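import Pool.Agent.SFree.Asym

/-!
# From the sets for the parameters `D` to all `n`, sharper version
-/

namespace SF2

open Finset SFree

theorem asym2
    (h : ∃ C₀ : ℝ, ∃ D₀ : ℕ, ∀ D : ℕ, D₀ ≤ D → ∃ A : Finset ℤ, (∀ a ∈ A, 0 < a) ∧ 0 < A.card ∧
      Real.log A.card ≤ C₀ * D ^ 2 * Real.log D ∧
      ∀ B ⊆ A, SumFree (B : Set ℤ) → (B.card : ℝ) ≤ (1 / 3 + 5 / D) * A.card) :
    ∃ C : ℝ, ∃ n₀ : ℕ, ∀ n : ℕ, n₀ ≤ n → (f n : ℝ) ≤
      n / 3 + C * n * Real.sqrt (Real.log (Real.log n) / Real.log n) := by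
  obtain ⟨C₀, D₀, hC₀⟩ := h
  set C₁ : ℝ := max C₀ 1 with hC₁
  have hC₁1 : 1 ≤ C₁ := le_max_right _ _
  have hC₁0 : 0 < C₁ := by linarith
  set c : ℝ := 1 / Real.sqrt C₁ with hc
  have hsq1 : 1 ≤ Real.sqrt C₁ := by rw [Real.one_le_sqrt]; exact hC₁1
  have hc0 : 0 < c := by positivity
  have hc1 : c ≤ 1 := by rw [hc, div_le_one (by positivity)]; exact hsq1
  have hcC : C₁ * c ^ 2 = 1 := by
    rw [hc, div_pow, Real.sq_sqrt hC₁0.le]
    field_simp
  refine ⟨10 / c + 1, ?_⟩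
  -- eventual conditions
  have hLtend : Filter.Tendsto (fun n : ℕ => Real.log (Real.log n)) Filter.atTop Filter.atTop :=
    Real.tendsto_log_atTop.comp (Real.tendsto_log_atTop.comp tendsto_natCast_atTop_atTop)
  have hltend : Filter.Tendsto (fun n : ℕ => Real.log n) Filter.atTop Filter.atTop :=
    Real.tendsto_log_atTop.comp tendsto_natCast_atTop_atTop
  set K : ℝ := max 2 (D₀ : ℝ) with hK
  have hK2 : 2 ≤ K := le_max_left _ _
  have hKD : (D₀ : ℝ) ≤ K := le_max_right _ _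
  have hK0 : 0 < K := by linarith
  have hlogo : ∀ᶠ x : ℝ in Filter.atTop, Real.log x ≤ (c / K) ^ 2 * x := by
    have h1 := Real.isLittleO_log_id_atTop.bound (show (0 : ℝ) < (c / K) ^ 2 by positivity)
    filter_upwards [h1, Filter.eventually_ge_atTop (1 : ℝ)] with x hx hx1
    rw [Real.norm_of_nonneg (Real.log_nonneg hx1), id, Real.norm_of_nonneg (by linarith)] at hx
    exact hx
  have hev : ∀ᶠ n : ℕ in Filter.atTop, 1 ≤ Real.log (Real.log n) ∧
      Real.log (Real.log n) ≤ (c / K) ^ 2 * Real.log n ∧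
      4 ≤ Real.log n ∧ 1 ≤ (n : ℝ) := by
    filter_upwards [hLtend.eventually_ge_atTop 1, hltend.eventually hlogo,
      hltend.eventually_ge_atTop 4, Filter.eventually_ge_atTop 1] with n h1 h2 h3 h4
    exact ⟨h1, h2, h3, by exact_mod_cast h4⟩
  obtain ⟨n₀, hn₀⟩ := Filter.eventually_atTop.1 hev
  refine ⟨n₀, fun n hn => ?_⟩
  obtain ⟨hL1, hL2, hl4, hn1⟩ := hn₀ n hn
  set l : ℝ := Real.log n with hl
  set L : ℝ := Real.log l with hL
  have hl0 : 0 < l := by linarith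
  have hL0 : 0 < L := by linarith
  have hn0 : (0 : ℝ) < n := by linarith
  set s : ℝ := Real.sqrt (l / L) with hs
  have hs0 : 0 < s := Real.sqrt_pos.2 (by positivity)
  have hss : s ^ 2 = l / L := Real.sq_sqrt (by positivity)
  set r : ℝ := Real.sqrt (L / l) with hr
  have hr0 : 0 < r := Real.sqrt_pos.2 (by positivity)
  have hsr : s * r = 1 := by
    rw [hs, hr, ← Real.sqrt_mul (by positivity)]
    rw [show l / L * (L / l) = 1 by field_simp, Real.sqrt_one]
  have hxK : K ≤ c * s := by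
    have h1 : (K / c) ^ 2 ≤ s ^ 2 := by
      rw [hss, le_div_iff₀ hL0]
      calc (K / c) ^ 2 * L ≤ (K / c) ^ 2 * ((c / K) ^ 2 * l) := by gcongr
        _ = l := by field_simp
    have h2 : K / c ≤ s := (pow_le_pow_iff_left₀ (by positivity) hs0.le two_ne_zero).1 h1
    rw [div_le_iff₀ hc0] at h2
    linarith
  set x : ℝ := c * s with hx
  set D : ℕ := ⌊x⌋₊ with hD
  have hx0 : 0 ≤ x := by linarith
  have hD2 : 2 ≤ D := by
    rw [hD]; exact Nat.le_floor (by push_cast; linarith)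
  have hDD : D₀ ≤ D := by
    rw [hD]; exact Nat.le_floor (by linarith)
  have hDx : (D : ℝ) ≤ x := Nat.floor_le hx0
  have hDx' : x / 2 ≤ D := by
    have h1 := Nat.lt_floor_add_one x
    rw [← hD] at h1
    have : (1 : ℝ) ≤ D := by exact_mod_cast (by omega : 1 ≤ D)
    linarith
  have hD0 : (0 : ℝ) < D := by exact_mod_cast (by omega : 0 < D)
  obtain ⟨A, hpos, hA0, hAlog, hA⟩ := hC₀ D hDD
  have hf := Asy.f_le (by positivity) hpos hA0 hA n
  have hlogD0 : 0 ≤ Real.log D := Real.log_nonneg (by exact_mod_cast (by omega : 1 ≤ D))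
  -- `log D ≤ L / 2`
  have hsl : s ≤ Real.sqrt l := by
    rw [hs]
    refine Real.sqrt_le_sqrt ?_
    rw [div_le_iff₀ hL0]
    nlinarith
  have hlogD : Real.log D ≤ L / 2 := by
    have h1 : (D : ℝ) ≤ Real.sqrt l := by
      refine hDx.trans ?_
      rw [hx]
      nlinarith
    calc Real.log D ≤ Real.log (Real.sqrt l) := Real.log_le_log hD0 h1
      _ = L / 2 := by rw [Real.log_sqrt hl0.le]
  have hlogA : Real.log A.card ≤ l / 2 := by
    have hDsq : (D : ℝ) ^ 2 ≤ c ^ 2 * (l / L) := by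
      calc (D : ℝ) ^ 2 ≤ x ^ 2 := by gcongr
        _ = c ^ 2 * (l / L) := by rw [hx, mul_pow, hss]
    calc Real.log A.card ≤ C₀ * D ^ 2 * Real.log D := hAlog
      _ ≤ C₁ * D ^ 2 * Real.log D := by
        gcongr
        exact le_max_left _ _
      _ ≤ C₁ * (c ^ 2 * (l / L)) * (L / 2) := by gcongr
      _ = (C₁ * c ^ 2) * (l / 2) := by field_simp
      _ = l / 2 := by rw [hcC, one_mul]
  have hAcard : (A.card : ℝ) ≤ Real.sqrt n := by
    have h1 : Real.log A.card ≤ Real.log (Real.sqrt n) := by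
      rw [Real.log_sqrt hn0.le]; exact hlogA
    exact (Real.log_le_log_iff (by exact_mod_cast hA0) (Real.sqrt_pos.2 hn0)).1 h1
  -- `√n ≤ n √(L / l)`
  have hln : l ≤ n := (Real.log_le_sub_one_of_pos hn0).trans (by linarith)
  have hsn : Real.sqrt n ≤ n * r := by
    have h1 : s ≤ Real.sqrt n := hsl.trans (Real.sqrt_le_sqrt hln)
    calc Real.sqrt n = Real.sqrt n * (s * r) := by rw [hsr, mul_one]
      _ = Real.sqrt n * s * r := by ring
      _ ≤ Real.sqrt n * Real.sqrt n * r := by gcongr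
      _ = n * r := by rw [Real.mul_self_sqrt hn0.le]
  have h5D : 5 / (D : ℝ) ≤ 10 / c * r := by
    have h1 : 5 / (D : ℝ) ≤ 5 / (x / 2) := by
      have : 0 < x / 2 := by rw [hx]; positivity
      gcongr
    refine h1.trans (le_of_eq ?_)
    have h2 : r = 1 / s := by rw [eq_div_iff hs0.ne', mul_comm]; exact hsr
    rw [hx, h2]
    field_simp
    norm_num
  calc (f n : ℝ) ≤ (1 / 3 + 5 / D) * n + A.card := hf
    _ ≤ (1 / 3 + 10 / c * r) * n + n * r := by
      gcongr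
      exact hAcard.trans hsn
    _ = n / 3 + (10 / c + 1) * n * r := by ring

end SF2
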