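import Pool.Agent.SFree.Defs

/-!
# Translates, representation counts
-/

namespace SF2

open Finset

noncomputable section

/-- The elements of `S` that are at most `t`. -/
def lev (S : Finset ℤ) (t : ℕ) : Finset ℤ := S.filter (· ≤ (t : ℤ))

/-- Number of `x ∈ L` with `x + n ∈ L`. -/
def rep (L : Finset ℤ) (n : ℤ) : ℕ := (L.filter (fun x => x + n ∈ L)).card

/-- Translate. -/
def tr (L : Finset ℤ) (a : ℤ) : Finset ℤ := L.image (· + a)

theorem mem_lev {S : Finset ℤ} {t : ℕ} {x : ℤ} : x ∈ lev S t ↔ x ∈ S ∧ x ≤ t := by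
  simp [lev]

theorem mem_tr {L : Finset ℤ} {a x : ℤ} : x ∈ tr L a ↔ x - a ∈ L := by
  unfold tr
  rw [mem_image]
  constructor
  · rintro ⟨y, hy, rfl⟩; simpa using hy
  · intro h; exact ⟨x - a, h, by ring⟩

theorem card_tr (L : Finset ℤ) (a : ℤ) : (tr L a).card = L.card :=
  card_image_of_injective _ (add_left_injective a)

theorem card_tr_inter (L : Finset ℤ) (a b : ℤ) : (tr L a ∩ tr L b).card = rep L (a - b) := by
  unfold rep
  rw [← card_tr (L.filter (fun x => x + (a - b) ∈ L)) a]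
  congr 1
  ext x
  simp only [mem_inter, mem_tr, mem_filter]
  have : x - a + (a - b) = x - b := by ring
  rw [this]

theorem rep_neg (L : Finset ℤ) (n : ℤ) : rep L (-n) = rep L n := by
  have h1 := card_tr_inter L 0 n
  have h2 := card_tr_inter L n 0
  rw [inter_comm] at h2
  rw [h1] at h2
  simpa using h2

theorem card_three {α : Type*} [DecidableEq α] {A B C U : Finset α} (hA : A ⊆ U) (hB : B ⊆ U)
    (hC : C ⊆ U) :
    A.card + B.card + C.card ≤ U.card + (A ∩ B).card + (B ∩ C).card + (A ∩ C).card := by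
  have h1 : (A ∪ B ∪ C).card ≤ U.card := card_le_card (union_subset (union_subset hA hB) hC)
  have h2 := card_union_add_card_inter A B
  have h3 := card_union_add_card_inter (A ∪ B) C
  have h4 : ((A ∪ B) ∩ C).card ≤ (A ∩ C).card + (B ∩ C).card := by
    rw [union_inter_distrib_right]
    exact card_union_le _ _
  omega

/-- Three translates of `L` inside `Icc lo hi`. -/
theorem three_tr {L : Finset ℤ} {a b c lo hi : ℤ} (ha : tr L a ⊆ Icc lo hi)
    (hb : tr L b ⊆ Icc lo hi) (hc : tr L c ⊆ Icc lo hi) :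
    3 * L.card ≤ (hi + 1 - lo).toNat + rep L (a - b) + rep L (b - c) + rep L (a - c) := by
  have := card_three ha hb hc
  rw [card_tr, card_tr, card_tr, Int.card_Icc, card_tr_inter, card_tr_inter, card_tr_inter] at this
  omega

/-- popularity -/
theorem pop {S : Finset ℤ} (hpos : ∀ s ∈ S, 0 < s) {t₁ t₂ : ℕ} {a a' : ℤ}
    (ha : a ∈ lev S t₁) (ha' : a' ∈ lev S t₁) :
    3 * (lev S t₂).card ≤ t₂ + t₁ + rep (lev S t₂) a + rep (lev S t₂) a' +
      rep (lev S t₂) (a - a') := by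
  rw [mem_lev] at ha ha'
  have hsub : ∀ c : ℤ, 0 ≤ c → c ≤ t₁ → tr (lev S t₂) c ⊆ Icc 1 ((t₂ : ℤ) + t₁) := by
    intro c hc0 hc1 x hx
    rw [mem_tr, mem_lev] at hx
    have := hpos _ hx.1
    rw [mem_Icc]
    omega
  have h1 := three_tr (hsub a' (hpos _ ha'.1).le ha'.2) (hsub a (hpos _ ha.1).le ha.2)
    (hsub 0 le_rfl (by positivity))
  rw [← rep_neg _ (a' - a)] at h1
  have e1 : -(a' - a) = a - a' := by ring
  rw [e1, sub_zero, sub_zero] at h1
  have e2 : ((t₂ : ℤ) + t₁ + 1 - 1).toNat = t₂ + t₁ := by omega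
  rw [e2] at h1
  omega

/-- `x`, `y`, `x + y` -/
theorem sumf {S : Finset ℤ} (hpos : ∀ s ∈ S, 0 < s) {t B : ℕ} {x y : ℤ}
    (hx : |x| ≤ B) (hy : |y| ≤ B) :
    3 * (lev S t).card ≤ t + 4 * B + rep (lev S t) x + rep (lev S t) y +
      rep (lev S t) (x + y) := by
  rw [abs_le] at hx hy
  have hsub : ∀ c : ℤ, -(2 * (B : ℤ)) ≤ c → c ≤ 2 * B →
      tr (lev S t) c ⊆ Icc (1 - 2 * (B : ℤ)) ((t : ℤ) + 2 * B) := by
    intro c hc0 hc1 z hz
    rw [mem_tr, mem_lev] at hz
    have := hpos _ hz.1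
    rw [mem_Icc]
    omega
  have h1 := three_tr (hsub (x + y) (by omega) (by omega)) (hsub y (by omega) (by omega))
    (hsub 0 (by omega) (by omega))
  rw [sub_zero, sub_zero, add_sub_cancel_right] at h1
  have e2 : ((t : ℤ) + 2 * B + 1 - (1 - 2 * B)).toNat = t + 4 * B := by omega
  rw [e2] at h1
  omega

end

end SF2
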