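import Pool.Agent.SFree.Defs

/-!
# Containers for sum-free sets
-/

namespace SF2

open Finset SFree

/-- The section `{n ∈ [1, N] : L ^ i * n ∈ C}`. -/
noncomputable def sec (L : ℤ) (N : ℕ) (C : Finset ℤ) (i : ℕ) : Finset ℤ :=
  (Icc (1 : ℤ) N).filter (fun n => L ^ i * n ∈ C)

/-- The number of pairs `(s, x)` in `S` with `s ≤ a`, `x + s ≤ b`, `x + s ∈ S`. -/
noncomputable def prs (S : Finset ℤ) (a b : ℕ) : ℕ :=
  ((S ×ˢ S).filter (fun p => p.1 ≤ (a : ℤ) ∧ p.2 + p.1 ≤ (b : ℤ) ∧ p.2 + p.1 ∈ S)).card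

/-- `C` has no rich node. -/
def Poor (L : ℤ) (N : ℕ) (T : ℕ → ℕ) (κ K : ℕ) (ε : ℝ) (C : Finset ℤ) : Prop :=
  ∀ i < κ, ∀ l k, l ≤ k → k < K → (prs (sec L N C i) (T l) (T k) : ℝ) ≤ ε * T l * T k

theorem sum_biUnion_le' {ι α : Type*} [DecidableEq ι] [DecidableEq α] (s : Finset ι)
    (t : ι → Finset α) (f : α → ℝ) (hf : ∀ a, 0 ≤ f a) :
    ∑ a ∈ s.biUnion t, f a ≤ ∑ i ∈ s, ∑ a ∈ t i, f a := by
  induction s using Finset.induction_on with
  | empty => simp
  | insert i s hi ih =>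
    rw [biUnion_insert, sum_insert hi]
    have h1 := sum_union_inter (s₁ := t i) (s₂ := s.biUnion t) (f := f)
    have h2 : 0 ≤ ∑ a ∈ t i ∩ s.biUnion t, f a := sum_nonneg (fun a _ => hf a)
    linarith

theorem sum_image_le' {ι α : Type*} [DecidableEq ι] [DecidableEq α] (s : Finset ι)
    (g : ι → α) (f : α → ℝ) (hf : ∀ a, 0 ≤ f a) :
    ∑ a ∈ s.image g, f a ≤ ∑ i ∈ s, f (g i) := by
  have h : s.image g = s.biUnion (fun i => {g i}) := by
    ext a; simp [eq_comm]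
  rw [h]
  refine (sum_biUnion_le' s _ f hf).trans (le_of_eq ?_)
  simp

theorem sum_union_le' {α : Type*} [DecidableEq α] (s t : Finset α)
    (f : α → ℝ) (hf : ∀ a, 0 ≤ f a) :
    ∑ a ∈ s ∪ t, f a ≤ ∑ a ∈ s, f a + ∑ a ∈ t, f a := by
  have h1 := sum_union_inter (s₁ := s) (s₂ := t) (f := f)
  have h2 : 0 ≤ ∑ a ∈ s ∩ t, f a := sum_nonneg (fun a _ => hf a)
  linarith

/-- Families of total weight at most 1 compose. -/
theorem branch {α : Type*} [DecidableEq α] (P Q : Finset α → Prop) (τ : ℝ) (C : Finset α)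
    (𝒟 : Finset (Finset α)) (hsub : ∀ D ∈ 𝒟, D ⊆ C)
    (hcov : ∀ B ⊆ C, Q B → ∃ D ∈ 𝒟, B ⊆ D)
    (hsum : ∑ D ∈ 𝒟, Real.exp (-τ * ((C \ D).card : ℝ)) ≤ 1)
    (ih : ∀ D ∈ 𝒟, ∃ 𝒞 : Finset (Finset α), (∀ B ⊆ D, Q B → ∃ C' ∈ 𝒞, B ⊆ C') ∧
      (∀ C' ∈ 𝒞, C' ⊆ D ∧ P C') ∧ ∑ C' ∈ 𝒞, Real.exp (-τ * ((D \ C').card : ℝ)) ≤ 1) :
    ∃ 𝒞 : Finset (Finset α), (∀ B ⊆ C, Q B → ∃ C' ∈ 𝒞, B ⊆ C') ∧
      (∀ C' ∈ 𝒞, C' ⊆ C ∧ P C') ∧ ∑ C' ∈ 𝒞, Real.exp (-τ * ((C \ C').card : ℝ)) ≤ 1 := by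
  classical
  choose! F hF using ih
  refine ⟨𝒟.biUnion F, ?_, ?_, ?_⟩
  · intro B hB hQB
    obtain ⟨D, hD, hBD⟩ := hcov B hB hQB
    obtain ⟨C', hC', hBC'⟩ := (hF D hD).1 B hBD hQB
    exact ⟨C', mem_biUnion.2 ⟨D, hD, hC'⟩, hBC'⟩
  · intro C' hC'
    obtain ⟨D, hD, hC'D⟩ := mem_biUnion.1 hC'
    exact ⟨((hF D hD).2.1 C' hC'D).1.trans (hsub D hD), ((hF D hD).2.1 C' hC'D).2⟩
  · refine (sum_biUnion_le' 𝒟 F _ (fun a => (Real.exp_pos _).le)).trans ?_
    refine le_trans (sum_le_sum (fun D hD => ?_)) hsum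
    have h1 : ∀ C' ∈ F D, Real.exp (-τ * ((C \ C').card : ℝ)) =
        Real.exp (-τ * ((C \ D).card : ℝ)) * Real.exp (-τ * ((D \ C').card : ℝ)) := by
      intro C' hC'
      have h2 : C' ⊆ D := ((hF D hD).2.1 C' hC').1
      have h3 : C \ C' = (C \ D) ∪ (D \ C') := by
        ext x
        simp only [mem_sdiff, mem_union]
        have := hsub D hD
        constructor
        · rintro ⟨h4, h5⟩
          by_cases h6 : x ∈ D
          · exact Or.inr ⟨h6, h5⟩
          · exact Or.inl ⟨h4, h6⟩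
        · rintro (⟨h4, h5⟩ | ⟨h4, h5⟩)
          · exact ⟨h4, fun h => h5 (h2 h)⟩
          · exact ⟨this h4, h5⟩
      have h4 : Disjoint (C \ D) (D \ C') := by
        rw [disjoint_left]
        intro x hx hx'
        exact (mem_sdiff.1 hx).2 (mem_sdiff.1 hx').1
      rw [h3, card_union_of_disjoint h4, ← Real.exp_add]
      push_cast
      ring_nf
    rw [sum_congr rfl h1, ← mul_sum]
    calc Real.exp (-τ * ((C \ D).card : ℝ)) * ∑ C' ∈ F D, Real.exp (-τ * ((D \ C').card : ℝ))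
        ≤ Real.exp (-τ * ((C \ D).card : ℝ)) * 1 :=
          mul_le_mul_of_nonneg_left (hF D hD).2.2 (Real.exp_pos _).le
      _ = _ := mul_one _

/-- Kleitman–Winston: containers for independent sets. -/
theorem kw {α : Type*} [DecidableEq α] (adj : α → α → Prop) [DecidableRel adj] (τ : ℝ) (β : ℕ)
    (hKW : Real.exp (-τ) + Real.exp (-τ * β) ≤ 1) (V : Finset α) :
    ∃ 𝒱 : Finset (Finset α), (∀ I ⊆ V, (∀ a ∈ I, ∀ b ∈ I, ¬ adj a b) → ∃ V' ∈ 𝒱, I ⊆ V') ∧
      (∀ V' ∈ 𝒱, V' ⊆ V ∧ ∀ v ∈ V', (V'.filter (adj v)).card < β) ∧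
      ∑ V' ∈ 𝒱, Real.exp (-τ * ((V \ V').card : ℝ)) ≤ 1 := by
  induction hn : V.card using Nat.strong_induction_on generalizing V with
  | _ n ih =>
  have hβ : 0 < β := by
    rcases Nat.eq_zero_or_pos β with h | h
    · subst h
      have := Real.exp_pos (-τ)
      simp at hKW
      linarith
    · exact h
  have hτ : 0 < τ := by
    by_contra h
    push Not at h
    have h1 : 1 ≤ Real.exp (-τ) := Real.one_le_exp (by linarith)
    have h2 := Real.exp_pos (-τ * β)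
    linarith
  by_cases hdeg : ∀ v ∈ V, (V.filter (adj v)).card < β
  · exact ⟨{V}, fun I hI _ => ⟨V, mem_singleton_self _, hI⟩, by simpa using hdeg, by simp⟩
  push Not at hdeg
  obtain ⟨v, hv, hvβ⟩ := hdeg
  refine branch (fun V' => ∀ v ∈ V', (V'.filter (adj v)).card < β)
    (fun I => ∀ a ∈ I, ∀ b ∈ I, ¬ adj a b) τ V {V.erase v, V \ V.filter (adj v)} ?_ ?_ ?_ ?_
  · intro D hD
    rcases mem_insert.1 hD with h | h
    · rw [h]; exact erase_subset _ _
    · rw [mem_singleton.1 h]; exact sdiff_subset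
  · intro I hI hind
    by_cases hvI : v ∈ I
    · refine ⟨V \ V.filter (adj v), by simp, fun x hx => ?_⟩
      rw [mem_sdiff, mem_filter]
      exact ⟨hI hx, fun h => hind v hvI x hx h.2⟩
    · refine ⟨V.erase v, by simp, fun x hx => ?_⟩
      rw [mem_erase]
      exact ⟨fun h => hvI (h ▸ hx), hI hx⟩
  · have h1 : ∑ D ∈ ({V.erase v, V \ V.filter (adj v)} : Finset (Finset α)),
        Real.exp (-τ * ((V \ D).card : ℝ)) ≤ Real.exp (-τ * ((V \ V.erase v).card : ℝ)) +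
          Real.exp (-τ * ((V \ (V \ V.filter (adj v))).card : ℝ)) := by
      rw [insert_eq]
      refine (sum_union_le' _ _ _ (fun a => (Real.exp_pos _).le)).trans (le_of_eq ?_)
      simp only [sum_singleton]
    refine h1.trans (le_trans (add_le_add ?_ ?_) hKW)
    · rw [sdiff_erase hv]
      simp
    · rw [sdiff_sdiff_right_self, inf_eq_inter, inter_eq_right.2 (filter_subset _ _)]
      apply Real.exp_le_exp.2
      have : (β : ℝ) ≤ ((V.filter (adj v)).card : ℝ) := by exact_mod_cast hvβ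
      nlinarith
  · intro D hD
    have hlt : D.card < n := by
      rw [← hn]
      apply card_lt_card
      rcases mem_insert.1 hD with h | h
      · rw [h]; exact erase_ssubset hv
      · rw [mem_singleton.1 h]
        have hne : (V.filter (adj v)).Nonempty := card_pos.1 (lt_of_lt_of_le hβ hvβ)
        exact sdiff_ssubset (filter_subset _ _) hne
    exact ih D.card hlt D rfl

theorem mem_sec {L : ℤ} {N : ℕ} {C : Finset ℤ} {i : ℕ} {n : ℤ} :
    n ∈ sec L N C i ↔ (1 ≤ n ∧ n ≤ N) ∧ L ^ i * n ∈ C := by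
  simp [sec]

/-- Removing `L ^ i * W` from `C` for `W ⊆ sec L N C i`. -/
theorem sdiff_lift {L : ℤ} (hL : 0 < L) {N : ℕ} {C : Finset ℤ} {i : ℕ} {W : Finset ℤ}
    (hW : W ⊆ sec L N C i) :
    (C \ (C \ W.image (fun n => L ^ i * n))).card = W.card := by
  have h1 : W.image (fun n => L ^ i * n) ⊆ C := by
    intro x hx
    obtain ⟨n, hn, rfl⟩ := mem_image.1 hx
    exact (mem_sec.1 (hW hn)).2
  rw [sdiff_sdiff_right_self, inf_eq_inter, inter_eq_right.2 h1]
  apply card_image_of_injective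
  intro a b hab
  have : L ^ i ≠ 0 := (pow_pos hL i).ne'
  exact mul_left_cancel₀ this hab

/-- number of small subsets -/
theorem card_small {α : Type*} [DecidableEq α] (H : Finset α) (h₀ N : ℕ) (hH : H.card ≤ N)
    (hN : h₀ ≤ N) : (H.powerset.filter (fun Z => Z.card < h₀)).card ≤ N ^ (h₀ + 1) := by
  have h1 : H.powerset.filter (fun Z => Z.card < h₀) ⊆
      (range h₀).biUnion (fun j => H.powersetCard j) := by
    intro Z hZ
    rw [mem_filter, mem_powerset] at hZ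
    rw [mem_biUnion]
    exact ⟨Z.card, mem_range.2 hZ.2, mem_powersetCard.2 ⟨hZ.1, rfl⟩⟩
  refine (card_le_card h1).trans (card_biUnion_le.trans ?_)
  rcases Nat.eq_zero_or_pos N with h0 | hpos
  · have : h₀ = 0 := by omega
    subst this
    simp
  calc ∑ j ∈ range h₀, (H.powersetCard j).card ≤ ∑ j ∈ range h₀, N ^ h₀ := by
        apply sum_le_sum
        intro j hj
        rw [card_powersetCard]
        exact (Nat.choose_le_choose j hH).trans ((Nat.choose_le_pow N j).trans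
          (Nat.pow_le_pow_right hpos (mem_range.1 hj).le))
    _ = h₀ * N ^ h₀ := by simp
    _ ≤ N * N ^ h₀ := Nat.mul_le_mul_right _ hN
    _ = N ^ (h₀ + 1) := by ring

/-- number of pairs killed -/
theorem killed {S V V' X : Finset ℤ} {b h₀ β : ℕ} (hS : ∀ s ∈ S, 0 < s)
    (hV : V = S.filter (· ≤ (b : ℤ))) (hV' : V' ⊆ V) (hXS : X ⊆ S) (hX : X.card = h₀)
    (hVb : V.card ≤ b) (e : ℝ)
    (hrich : ∀ s ∈ X, e ≤ ((S.filter (fun x => x + s ≤ (b : ℤ) ∧ x + s ∈ S)).card : ℝ))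
    (hdeg : ∀ v ∈ V', (V'.filter (fun w => w - v ∈ X)).card < β) :
    h₀ * e ≤ β * b + 2 * h₀ * ((V \ V').card : ℝ) := by
  have h1 : ∀ s ∈ X, (S.filter (fun x => x + s ≤ (b : ℤ) ∧ x + s ∈ S)).card ≤
      (V'.filter (fun x => x + s ∈ V')).card + 2 * (V \ V').card := by
    intro s hs
    have hspos := hS s (hXS hs)
    have h2 : S.filter (fun x => x + s ≤ (b : ℤ) ∧ x + s ∈ S) ⊆
        (V'.filter (fun x => x + s ∈ V')) ∪ ((V \ V') ∪ (V \ V').image (fun y => y - s)) := by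
      intro x hx
      rw [mem_filter] at hx
      obtain ⟨hxS, hxb, hxs⟩ := hx
      have hxV : x ∈ V := by rw [hV, mem_filter]; exact ⟨hxS, by omega⟩
      have hxsV : x + s ∈ V := by rw [hV, mem_filter]; exact ⟨hxs, hxb⟩
      rw [mem_union, mem_union]
      by_cases hc1 : x ∈ V'
      · by_cases hc2 : x + s ∈ V'
        · exact Or.inl (mem_filter.2 ⟨hc1, hc2⟩)
        · refine Or.inr (Or.inr (mem_image.2 ⟨x + s, mem_sdiff.2 ⟨hxsV, hc2⟩, by ring⟩))
      · exact Or.inr (Or.inl (mem_sdiff.2 ⟨hxV, hc1⟩))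
    refine (card_le_card h2).trans ((card_union_le _ _).trans ?_)
    have h3 := card_union_le (V \ V') ((V \ V').image (fun y => y - s))
    have h4 : ((V \ V').image (fun y => y - s)).card ≤ (V \ V').card := card_image_le
    omega
  have h2 : ∑ s ∈ X, (V'.filter (fun x => x + s ∈ V')).card ≤ β * b := by
    have h3 : ∑ s ∈ X, (V'.filter (fun x => x + s ∈ V')).card =
        ∑ x ∈ V', (X.filter (fun s => x + s ∈ V')).card := by
      simp only [card_filter]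
      exact sum_comm
    rw [h3]
    have h4 : ∀ x ∈ V', (X.filter (fun s => x + s ∈ V')).card ≤ β := by
      intro x hx
      refine le_trans ?_ (hdeg x hx).le
      refine card_le_card_of_injOn (fun s => x + s) ?_ ?_
      · intro s hs
        have hs' := mem_filter.1 (mem_coe.1 hs)
        refine mem_coe.2 (mem_filter.2 ⟨hs'.2, ?_⟩)
        have : x + s - x = s := by ring
        rw [this]; exact hs'.1
      · intro a _ c _ hac
        simpa using hac
    calc ∑ x ∈ V', (X.filter (fun s => x + s ∈ V')).card ≤ ∑ x ∈ V', β := sum_le_sum h4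
      _ = V'.card * β := by simp
      _ ≤ b * β := Nat.mul_le_mul_right _ ((card_le_card hV').trans hVb)
      _ = β * b := by ring
  have h3 : ∑ s ∈ X, (S.filter (fun x => x + s ≤ (b : ℤ) ∧ x + s ∈ S)).card ≤
      β * b + h₀ * (2 * (V \ V').card) := by
    refine (sum_le_sum h1).trans ?_
    rw [sum_add_distrib, sum_const, hX, smul_eq_mul]
    omega
  have h4 : (h₀ : ℝ) * e ≤
      ∑ s ∈ X, ((S.filter (fun x => x + s ≤ (b : ℤ) ∧ x + s ∈ S)).card : ℝ) := by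
    calc (h₀ : ℝ) * e = ∑ s ∈ X, e := by rw [sum_const, hX, nsmul_eq_mul]
      _ ≤ _ := sum_le_sum hrich
  refine h4.trans ?_
  have h5 : ((∑ s ∈ X, (S.filter (fun x => x + s ≤ (b : ℤ) ∧ x + s ∈ S)).card : ℕ) : ℝ) ≤
      ((β * b + h₀ * (2 * (V \ V').card) : ℕ) : ℝ) := by exact_mod_cast h3
  push_cast at h5
  linarith

theorem children (L : ℤ) (hL : 0 < L) (N : ℕ) (T : ℕ → ℕ) (h₀ β : ℕ) (ε τ : ℝ)
    (hT : Monotone T) {l k i : ℕ} (hTk : T k ≤ N) (hlk : l ≤ k) (hh₀ : 0 < h₀)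
    (hh₀N : h₀ + 1 ≤ N) (hε : 0 < ε) (hτ : 0 < τ) (hβ : (β : ℝ) ≤ h₀ * ε / 4)
    (hKW : Real.exp (-(τ / 2)) + Real.exp (-(τ / 2) * β) ≤ 1)
    (hbig : (N : ℝ) ^ (h₀ + 1) * Real.exp (-τ * (ε * T 0 / 16 - h₀)) ≤ 1 / 2) (C : Finset ℤ)
    (hrich : ε * T l * T k < (prs (sec L N C i) (T l) (T k) : ℝ)) :
    ∃ 𝒟 : Finset (Finset ℤ), (∀ D ∈ 𝒟, D ⊂ C) ∧
      (∀ B ⊆ C, SumFree (B : Set ℤ) → ∃ D ∈ 𝒟, B ⊆ D) ∧
      ∑ D ∈ 𝒟, Real.exp (-τ * ((C \ D).card : ℝ)) ≤ 1 := by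
  classical
  obtain ⟨S, hSdef⟩ : ∃ S, S = sec L N C i := ⟨_, rfl⟩
  rw [← hSdef] at hrich
  have hSpos : ∀ s ∈ S, 0 < s := by
    intro s hs
    rw [hSdef, mem_sec] at hs
    omega
  obtain ⟨r, hr⟩ : ∃ r : ℤ → ℕ, r = fun s =>
    (S.filter (fun x => x + s ≤ (T k : ℤ) ∧ x + s ∈ S)).card := ⟨_, rfl⟩
  obtain ⟨H, hH⟩ : ∃ H, H = S.filter (fun s => s ≤ (T l : ℤ) ∧ ε * T k / 2 < (r s : ℝ)) :=
    ⟨_, rfl⟩
  obtain ⟨V, hV⟩ : ∃ V, V = S.filter (· ≤ (T k : ℤ)) := ⟨_, rfl⟩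
  have hHS : H ⊆ S := by rw [hH]; exact filter_subset _ _
  have hVS : V ⊆ S := by rw [hV]; exact filter_subset _ _
  have hcardle : ∀ b : ℕ, (S.filter (· ≤ (b : ℤ))).card ≤ b := by
    intro b
    have h1 : S.filter (· ≤ (b : ℤ)) ⊆ Icc (1 : ℤ) b := by
      intro x hx
      rw [mem_filter] at hx
      have := hSpos x hx.1
      rw [mem_Icc]
      exact ⟨by omega, hx.2⟩
    refine (card_le_card h1).trans ?_
    simp
  have hVcard : V.card ≤ T k := by rw [hV]; exact hcardle _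
  have hr_le : ∀ s ∈ S, r s ≤ T k := by
    intro s hs
    rw [hr]
    refine le_trans (card_le_card ?_) (hcardle (T k))
    intro x hx
    rw [mem_filter] at hx ⊢
    have := hSpos s hs
    exact ⟨hx.1, by omega⟩
  have hprs : prs S (T l) (T k) = ∑ s ∈ S.filter (· ≤ (T l : ℤ)), r s := by
    rw [prs, card_filter, sum_product, sum_filter]
    apply sum_congr rfl
    intro s _
    simp only [hr]
    split_ifs with h
    · rw [card_filter]
      apply sum_congr rfl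
      intro x _
      simp [h]
    · apply sum_eq_zero
      intro x _
      simp [h]
  have hHcard : ε * T l / 2 < (H.card : ℝ) := by
    have h1 : (∑ s ∈ S.filter (· ≤ (T l : ℤ)), (r s : ℝ)) ≤
        H.card * T k + T l * (ε * T k / 2) := by
      have h2 : (∑ s ∈ S.filter (· ≤ (T l : ℤ)), (r s : ℝ)) ≤
          ∑ s ∈ S.filter (· ≤ (T l : ℤ)), ((if s ∈ H then (T k : ℝ) else 0) + ε * T k / 2) := by
        apply sum_le_sum
        intro s hs
        rw [mem_filter] at hs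
        have h3 : (r s : ℝ) ≤ T k := by exact_mod_cast hr_le s hs.1
        have h4 : 0 ≤ ε * T k / 2 := by positivity
        split_ifs with h
        · linarith
        · rw [hH, mem_filter] at h
          push Not at h
          have := h hs.1 hs.2
          linarith
      refine h2.trans ?_
      rw [sum_add_distrib, sum_const, nsmul_eq_mul, ← sum_filter, sum_const, nsmul_eq_mul]
      have h5 : ((S.filter (· ≤ (T l : ℤ))).filter (· ∈ H)).card ≤ H.card := by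
        apply card_le_card
        intro x hx
        exact (mem_filter.1 hx).2
      have h6 : (((S.filter (· ≤ (T l : ℤ))).filter (· ∈ H)).card : ℝ) ≤ H.card := by
        exact_mod_cast h5
      have h7 : ((S.filter (· ≤ (T l : ℤ))).card : ℝ) ≤ T l := by exact_mod_cast hcardle (T l)
      have h8 : 0 ≤ ε * T k / 2 := by positivity
      have h9 : (0 : ℝ) ≤ T k := Nat.cast_nonneg _
      nlinarith
    have h2 : (prs S (T l) (T k) : ℝ) ≤ H.card * T k + T l * (ε * T k / 2) := by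
      rw [hprs]; push_cast; exact h1
    have h3 : (0 : ℝ) < T k := by
      rcases Nat.eq_zero_or_pos (T k) with h | h
      · exfalso
        rw [h] at h2 hrich
        simp only [Nat.cast_zero, mul_zero, zero_div, add_zero] at h2 hrich
        linarith
      · exact_mod_cast h
    have h4 : ε * T l * T k < H.card * T k + T l * (ε * T k / 2) := lt_of_lt_of_le hrich h2
    have h5 : (ε * T l / 2) * T k < H.card * T k := by nlinarith
    exact lt_of_mul_lt_mul_right h5 h3.le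
  have hN1 : (1 : ℝ) ≤ N := by
    have : 1 ≤ N := by omega
    exact_mod_cast this
  have hpow1 : (1 : ℝ) ≤ (N : ℝ) ^ (h₀ + 1) := one_le_pow₀ hN1
  have hpos : 0 < ε * T 0 / 16 - h₀ := by
    by_contra h
    push Not at h
    have h1 : 1 ≤ Real.exp (-τ * (ε * T 0 / 16 - h₀)) := Real.one_le_exp (by nlinarith)
    nlinarith
  have hT0l : (T 0 : ℝ) ≤ T l := by exact_mod_cast hT (Nat.zero_le l)
  have hT0k : (T 0 : ℝ) ≤ T k := by exact_mod_cast hT (Nat.zero_le k)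
  have hHN : H.card ≤ N := by
    refine (card_le_card ?_).trans ((hcardle (T k)).trans hTk)
    intro x hx
    rw [hH, mem_filter] at hx
    rw [mem_filter]
    have : (T l : ℤ) ≤ T k := by exact_mod_cast hT hlk
    exact ⟨hx.1, by omega⟩
  -- the containers of the graphs
  have hkw : ∀ X : Finset ℤ, ∃ 𝒱 : Finset (Finset ℤ),
      (∀ I ⊆ V, (∀ a ∈ I, ∀ b ∈ I, ¬ (b - a ∈ X)) → ∃ V' ∈ 𝒱, I ⊆ V') ∧
      (∀ V' ∈ 𝒱, V' ⊆ V ∧ ∀ v ∈ V', (V'.filter (fun w => w - v ∈ X)).card < β) ∧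
      ∑ V' ∈ 𝒱, Real.exp (-(τ / 2) * ((V \ V').card : ℝ)) ≤ 1 := fun X =>
    kw (fun a b => b - a ∈ X) (τ / 2) β hKW V
  choose F hF using hkw
  obtain ⟨𝒟₁, h𝒟₁⟩ : ∃ 𝒟₁, 𝒟₁ = (H.powerset.filter (fun Z => Z.card < h₀)).image
    (fun Z => C \ (H \ Z).image (fun n => L ^ i * n)) := ⟨_, rfl⟩
  obtain ⟨𝒟₂, h𝒟₂⟩ : ∃ 𝒟₂, 𝒟₂ = (H.powersetCard h₀).biUnion (fun X => (F X).image
    (fun V' => C \ (V \ V').image (fun n => L ^ i * n))) := ⟨_, rfl⟩
  have hVV : ∀ X ∈ H.powersetCard h₀, ∀ V' ∈ F X, ε * T 0 / 8 ≤ ((V \ V').card : ℝ) := by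
    intro X hX V' hV'
    rw [mem_powersetCard] at hX
    have h1 := killed (b := T k) hSpos hV ((hF X).2.1 V' hV').1 (hX.1.trans hHS) hX.2 hVcard
      (ε * T k / 2) (fun s hs => ?_) ((hF X).2.1 V' hV').2
    · have h2 : (β : ℝ) * T k ≤ h₀ * ε / 4 * T k :=
        mul_le_mul_of_nonneg_right hβ (Nat.cast_nonneg _)
      have h3 : (0 : ℝ) < h₀ := by exact_mod_cast hh₀
      have h4 : (h₀ : ℝ) * (ε * T k / 8) ≤ h₀ * ((V \ V').card : ℝ) := by nlinarith
      have h5 := le_of_mul_le_mul_left h4 h3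
      have h6 : ε * T 0 ≤ ε * T k := mul_le_mul_of_nonneg_left hT0k hε.le
      linarith
    · have h2 := hX.1 hs
      rw [hH, mem_filter] at h2
      have h3 := h2.2.2
      rw [hr] at h3
      exact h3.le
  have hsub : ∀ W : Finset ℤ, W ⊆ S → 0 < W.card → C \ W.image (fun n => L ^ i * n) ⊂ C := by
    intro W hW hpos
    rw [hSdef] at hW
    refine sdiff_ssubset ?_ ?_
    · intro x hx
      obtain ⟨n, hn, rfl⟩ := mem_image.1 hx
      exact (mem_sec.1 (hW hn)).2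
    · exact (card_pos.1 hpos).image _
  have hZcard : ∀ Z ⊆ H, Z.card < h₀ → ε * T 0 / 16 - h₀ ≤ ((H \ Z).card : ℝ) := by
    intro Z hZ hZc
    have h1 : H.card ≤ (H \ Z).card + Z.card := by
      have := le_card_sdiff Z H
      omega
    have h2 : (H.card : ℝ) ≤ ((H \ Z).card : ℝ) + Z.card := by exact_mod_cast h1
    have h3 : (Z.card : ℝ) ≤ h₀ := by exact_mod_cast hZc.le
    have h4 : ε * T 0 ≤ ε * T l := mul_le_mul_of_nonneg_left hT0l hε.le
    have h5 : 0 ≤ ε * T 0 := by positivity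
    linarith
  refine ⟨𝒟₁ ∪ 𝒟₂, ?_, ?_, ?_⟩
  · intro D hD
    rcases mem_union.1 hD with h | h
    · rw [h𝒟₁, mem_image] at h
      obtain ⟨Z, hZ, rfl⟩ := h
      rw [mem_filter, mem_powerset] at hZ
      refine hsub _ (sdiff_subset.trans hHS) ?_
      have h1 := hZcard Z hZ.1 hZ.2
      have h2 : (0 : ℝ) < ((H \ Z).card : ℝ) := by linarith
      exact_mod_cast h2
    · rw [h𝒟₂, mem_biUnion] at h
      obtain ⟨X, hX, h⟩ := h
      rw [mem_image] at h
      obtain ⟨V', hV', rfl⟩ := h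
      refine hsub _ (sdiff_subset.trans hVS) ?_
      have h1 := hVV X hX V' hV'
      have h3 : (0 : ℝ) ≤ h₀ := Nat.cast_nonneg _
      have h2 : (0 : ℝ) < ((V \ V').card : ℝ) := by linarith
      exact_mod_cast h2
  · intro B hB hfree
    obtain ⟨Bi, hBi⟩ : ∃ Bi, Bi = S.filter (fun n => L ^ i * n ∈ B) := ⟨_, rfl⟩
    have hmemBi : ∀ x, x ∈ Bi ↔ x ∈ S ∧ L ^ i * x ∈ B := by
      intro x; rw [hBi, mem_filter]
    by_cases hc : (Bi ∩ H).card < h₀
    · refine ⟨C \ (H \ (Bi ∩ H)).image (fun n => L ^ i * n), ?_, ?_⟩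
      · rw [mem_union, h𝒟₁, mem_image]
        exact Or.inl ⟨Bi ∩ H, mem_filter.2 ⟨mem_powerset.2 inter_subset_right, hc⟩, rfl⟩
      · intro x hx
        rw [mem_sdiff]
        refine ⟨hB hx, fun h => ?_⟩
        obtain ⟨n, hn, rfl⟩ := mem_image.1 h
        rw [mem_sdiff, mem_inter] at hn
        exact hn.2 ⟨(hmemBi n).2 ⟨hHS hn.1, hx⟩, hn.1⟩
    · push Not at hc
      obtain ⟨X, hXsub, hXcard⟩ := exists_subset_card_eq hc
      have hXH : X ⊆ H := hXsub.trans inter_subset_right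
      have hXB : X ⊆ Bi := hXsub.trans inter_subset_left
      obtain ⟨V', hV', hIV⟩ := (hF X).1 (Bi ∩ V) inter_subset_right (by
        intro a ha b hb hab
        have h1 := ((hmemBi a).1 (mem_inter.1 ha).1).2
        have h2 := ((hmemBi b).1 (mem_inter.1 hb).1).2
        have h3 := ((hmemBi _).1 (hXB hab)).2
        have h4 := hfree _ (mem_coe.2 h1) _ (mem_coe.2 h3)
        apply h4
        have : L ^ i * a + L ^ i * (b - a) = L ^ i * b := by ring
        rw [this]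
        exact mem_coe.2 h2)
      refine ⟨C \ (V \ V').image (fun n => L ^ i * n), ?_, ?_⟩
      · rw [mem_union, h𝒟₂, mem_biUnion]
        exact Or.inr ⟨X, mem_powersetCard.2 ⟨hXH, hXcard⟩, mem_image.2 ⟨V', hV', rfl⟩⟩
      · intro x hx
        rw [mem_sdiff]
        refine ⟨hB hx, fun h => ?_⟩
        obtain ⟨n, hn, rfl⟩ := mem_image.1 h
        rw [mem_sdiff] at hn
        exact hn.2 (hIV (mem_inter.2 ⟨(hmemBi n).2 ⟨hVS hn.1, hx⟩, hn.1⟩))
  · have hnn : ∀ D : Finset ℤ, 0 ≤ Real.exp (-τ * ((C \ D).card : ℝ)) :=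
      fun D => (Real.exp_pos _).le
    have hE : 0 < Real.exp (-τ * (ε * T 0 / 16 - h₀)) := Real.exp_pos _
    refine (sum_union_le' 𝒟₁ 𝒟₂ _ hnn).trans ?_
    have hs1 : ∑ D ∈ 𝒟₁, Real.exp (-τ * ((C \ D).card : ℝ)) ≤ 1 / 2 := by
      rw [h𝒟₁]
      refine (sum_image_le' _ _ _ hnn).trans (le_trans ?_ hbig)
      have h1 : ∀ Z ∈ H.powerset.filter (fun Z => Z.card < h₀),
          Real.exp (-τ * ((C \ (C \ (H \ Z).image (fun n => L ^ i * n))).card : ℝ)) ≤
            Real.exp (-τ * (ε * T 0 / 16 - h₀)) := by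
        intro Z hZ
        rw [mem_filter, mem_powerset] at hZ
        rw [sdiff_lift hL (by rw [← hSdef]; exact sdiff_subset.trans hHS)]
        apply Real.exp_le_exp.2
        have := hZcard Z hZ.1 hZ.2
        nlinarith
      refine (sum_le_sum h1).trans ?_
      rw [sum_const, nsmul_eq_mul]
      apply mul_le_mul_of_nonneg_right _ hE.le
      exact_mod_cast card_small H h₀ N hHN (by omega)
    have hs2 : ∑ D ∈ 𝒟₂, Real.exp (-τ * ((C \ D).card : ℝ)) ≤ 1 / 2 := by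
      rw [h𝒟₂]
      refine (sum_biUnion_le' _ _ _ hnn).trans (le_trans ?_ hbig)
      have h1 : ∀ X ∈ H.powersetCard h₀, ∑ D ∈ (F X).image
          (fun V' => C \ (V \ V').image (fun n => L ^ i * n)),
            Real.exp (-τ * ((C \ D).card : ℝ)) ≤ Real.exp (-τ * (ε * T 0 / 16 - h₀)) := by
        intro X hX
        refine (sum_image_le' _ _ _ hnn).trans ?_
        have h2 : ∀ V' ∈ F X,
            Real.exp (-τ * ((C \ (C \ (V \ V').image (fun n => L ^ i * n))).card : ℝ)) ≤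
            Real.exp (-τ * (ε * T 0 / 16 - h₀)) * Real.exp (-(τ / 2) * ((V \ V').card : ℝ)) := by
          intro V' hV'
          rw [sdiff_lift hL (by rw [← hSdef]; exact sdiff_subset.trans hVS), ← Real.exp_add]
          apply Real.exp_le_exp.2
          have h3 := hVV X hX V' hV'
          have h4 : (0 : ℝ) ≤ h₀ := Nat.cast_nonneg _
          nlinarith
        refine (sum_le_sum h2).trans ?_
        rw [← mul_sum]
        calc Real.exp (-τ * (ε * T 0 / 16 - h₀)) *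
              ∑ V' ∈ F X, Real.exp (-(τ / 2) * ((V \ V').card : ℝ))
            ≤ Real.exp (-τ * (ε * T 0 / 16 - h₀)) * 1 :=
              mul_le_mul_of_nonneg_left (hF X).2.2 hE.le
          _ = _ := mul_one _
      refine (sum_le_sum h1).trans ?_
      rw [sum_const, nsmul_eq_mul, card_powersetCard]
      apply mul_le_mul_of_nonneg_right _ hE.le
      have h5 : H.card.choose h₀ ≤ N ^ (h₀ + 1) :=
        (Nat.choose_le_choose h₀ hHN).trans ((Nat.choose_le_pow N h₀).trans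
          (Nat.pow_le_pow_right (by omega) (by omega)))
      exact_mod_cast h5
    linarith

/-- Containers for sum-free sets. -/
theorem containers (L : ℤ) (hL : 0 < L) (N : ℕ) (T : ℕ → ℕ) (κ K h₀ β : ℕ) (ε τ : ℝ)
    (hT : Monotone T) (hTN : ∀ k < K, T k ≤ N) (hh₀ : 0 < h₀) (hh₀N : h₀ + 1 ≤ N)
    (hε : 0 < ε) (hτ : 0 < τ) (hβ : (β : ℝ) ≤ h₀ * ε / 4)
    (hKW : Real.exp (-(τ / 2)) + Real.exp (-(τ / 2) * β) ≤ 1)
    (hbig : (N : ℝ) ^ (h₀ + 1) * Real.exp (-τ * (ε * T 0 / 16 - h₀)) ≤ 1 / 2) (C : Finset ℤ) :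
    ∃ 𝒞 : Finset (Finset ℤ), (∀ B ⊆ C, SumFree (B : Set ℤ) → ∃ C' ∈ 𝒞, B ⊆ C') ∧
      (∀ C' ∈ 𝒞, C' ⊆ C ∧ Poor L N T κ K ε C') ∧
      ∑ C' ∈ 𝒞, Real.exp (-τ * ((C \ C').card : ℝ)) ≤ 1 := by
  classical
  induction hn : C.card using Nat.strong_induction_on generalizing C with
  | _ n ih =>
  by_cases hP : Poor L N T κ K ε C
  · exact ⟨{C}, fun B hB _ => ⟨C, mem_singleton_self _, hB⟩, by simpa using hP, by simp⟩
  have hP' := hP
  unfold Poor at hP'
  push Not at hP'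
  obtain ⟨i, hi, l, k, hlk, hk, hrich⟩ := hP'
  obtain ⟨𝒟, h1, h2, h3⟩ := children L hL N T h₀ β ε τ hT (hTN k hk) hlk hh₀ hh₀N hε hτ hβ hKW
    hbig C hrich
  refine branch (Poor L N T κ K ε) (fun B => SumFree (B : Set ℤ)) τ C 𝒟
    (fun D hD => (h1 D hD).1) h2 h3 (fun D hD => ?_)
  exact ih D.card (by rw [← hn]; exact card_lt_card (h1 D hD)) D rfl

end SF2
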