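import Pool.Agent.SF2.Period
import Pool.Agent.SF2.Trio

/-!
# Six dense scales
-/

namespace SF2

open Finset

theorem no_sum {D : ℕ} (hD : 100 ≤ D) {S : Finset ℤ} (hpos : ∀ s ∈ S, 0 < s) {t B : ℕ}
    {θ : ℝ} (hθ : θ ≤ 1 / (100 * D)) (hB : 50 * D * B ≤ t) (ht : 0 < t)
    (hd : (1 / 3 + 1 / (D : ℝ)) * t ≤ (lev S t).card) {x y : ℤ} (hx : |x| ≤ B) (hy : |y| ≤ B)
    (hrx : (rep (lev S t) x : ℝ) ≤ θ * t) (hry : (rep (lev S t) y : ℝ) ≤ θ * t) :
    θ * t < rep (lev S t) (x + y) := by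
  have hD0 : (0 : ℝ) < D := by exact_mod_cast (by omega : 0 < D)
  have h1 := sumf (S := S) hpos (t := t) hx hy
  have h2 : 3 * ((lev S t).card : ℝ) ≤ t + 4 * B + rep (lev S t) x + rep (lev S t) y +
      rep (lev S t) (x + y) := by exact_mod_cast h1
  have ht0 : (0 : ℝ) < t := by exact_mod_cast ht
  have h3 : θ * t ≤ t / D / 100 := by
    calc θ * t ≤ 1 / (100 * D) * t := by gcongr
      _ = t / D / 100 := by field_simp
  have h4 : (B : ℝ) ≤ t / D / 50 := by
    have : 50 * (D : ℝ) * B ≤ t := by exact_mod_cast hB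
    rw [div_div, le_div_iff₀ (by positivity)]
    linarith
  have h5 : (0 : ℝ) < t / D := by positivity
  have e1 : (1 / 3 + 1 / (D : ℝ)) * t = t / 3 + t / D := by ring
  rw [e1] at hd
  linarith

theorem pop' {D : ℕ} (hD : 100 ≤ D) {S : Finset ℤ} (hpos : ∀ s ∈ S, 0 < s) {t₁ t₂ : ℕ}
    {θ : ℝ} (hθ : θ ≤ 1 / (100 * D)) (h12 : 100 * D * t₁ ≤ t₂) (ht : 0 < t₂)
    (hd : (1 / 3 + 1 / (D : ℝ)) * t₂ ≤ (lev S t₂).card)
    (hf : ∀ s ∈ lev S t₂, (rep (lev S t₂) s : ℝ) ≤ θ * t₂) {a a' : ℤ} (ha : a ∈ lev S t₁)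
    (ha' : a' ∈ lev S t₁) :
    θ * t₂ < rep (lev S t₂) (a - a') := by
  have hD0 : (0 : ℝ) < D := by exact_mod_cast (by omega : 0 < D)
  have hmono : ∀ s ∈ lev S t₁, s ∈ lev S t₂ := by
    intro s hs
    rw [mem_lev] at hs ⊢
    refine ⟨hs.1, hs.2.trans ?_⟩
    have : t₁ ≤ t₂ := le_trans (Nat.le_mul_of_pos_left _ (by omega)) h12
    exact_mod_cast this
  have h1 := pop (S := S) hpos (t₂ := t₂) ha ha'
  have h2 : 3 * ((lev S t₂).card : ℝ) ≤ t₂ + t₁ + rep (lev S t₂) a + rep (lev S t₂) a' +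
      rep (lev S t₂) (a - a') := by exact_mod_cast h1
  have h3 := hf a (hmono _ ha)
  have h4 := hf a' (hmono _ ha')
  have ht0 : (0 : ℝ) < t₂ := by exact_mod_cast ht
  have h5 : θ * t₂ ≤ t₂ / D / 100 := by
    calc θ * t₂ ≤ 1 / (100 * D) * t₂ := by gcongr
      _ = t₂ / D / 100 := by field_simp
  have h6 : (t₁ : ℝ) ≤ t₂ / D / 100 := by
    have : 100 * (D : ℝ) * t₁ ≤ t₂ := by exact_mod_cast h12
    rw [div_div, le_div_iff₀ (by positivity)]
    linarith
  have h7 : (0 : ℝ) < t₂ / D := by positivity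
  have e1 : (1 / 3 + 1 / (D : ℝ)) * t₂ = t₂ / 3 + t₂ / D := by ring
  rw [e1] at hd
  linarith

/-- Number of elements of `S` in `[u, u + h)`. -/
noncomputable def cw (S : Finset ℤ) (h : ℕ) (u : ℤ) : ℕ := ((Ico u (u + h)).filter (· ∈ S)).card

theorem window_avg {S : Finset ℤ} (hpos : ∀ s ∈ S, 0 < s) (t h w : ℕ) :
    h * (lev S t).card ≤ ∑ u ∈ range t, cw S h ((w : ℤ) + u) + h * (w + h) := by
  rcases Nat.eq_zero_or_pos h with rfl | hh
  · simp
  set S' := S.filter (fun s => ((w : ℤ) + h ≤ s ∧ s < t)) with hS'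
  have h1 : (lev S t).card ≤ S'.card + (w + h) := by
    have hsub : lev S t ⊆ S' ∪ (Ico (1 : ℤ) (w + h) ∪ {(t : ℤ)}) := by
      intro s hs
      rw [mem_lev] at hs
      have := hpos _ hs.1
      rw [mem_union, mem_union, mem_Ico, mem_singleton, hS', mem_filter]
      by_cases h1 : (w : ℤ) + h ≤ s
      · by_cases h2 : s < t
        · exact Or.inl ⟨hs.1, h1, h2⟩
        · right; right; omega
      · right; left; omega
    have h2 := (card_le_card hsub).trans (card_union_le _ _)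
    have h3 := card_union_le (Ico (1 : ℤ) (w + h)) {(t : ℤ)}
    rw [Int.card_Ico, card_singleton] at h3
    omega
  have h2 : h * S'.card ≤ ∑ u ∈ range t, cw S h ((w : ℤ) + u) := by
    have e1 : ∀ u : ℕ, cw S h ((w : ℤ) + u) =
        ∑ s ∈ S, if ((w : ℤ) + u ≤ s ∧ s < (w : ℤ) + u + h) then 1 else 0 := by
      intro u
      rw [← card_filter]
      unfold cw
      congr 1
      ext s
      rw [mem_filter, mem_filter, mem_Ico]
      tauto
    simp only [e1]
    rw [sum_comm]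
    calc h * S'.card = ∑ s ∈ S', h := by rw [sum_const, smul_eq_mul, mul_comm]
      _ ≤ ∑ s ∈ S', ∑ u ∈ range t, (if ((w : ℤ) + u ≤ s ∧ s < (w : ℤ) + u + h) then 1 else 0) := by
          apply sum_le_sum
          intro s hs
          rw [hS', mem_filter] at hs
          rw [← card_filter]
          obtain ⟨k, hk⟩ : ∃ k : ℕ, s = k := ⟨s.toNat, by have := hpos _ hs.1; omega⟩
          have : Ioc (k - w - h) (k - w) ⊆
              (range t).filter (fun u : ℕ => (w : ℤ) + u ≤ s ∧ s < (w : ℤ) + u + h) := by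
            intro u hu
            rw [mem_Ioc] at hu
            rw [mem_filter, mem_range]
            omega
          have h3 := card_le_card this
          rw [Nat.card_Ioc] at h3
          omega
      _ ≤ _ := sum_le_sum_of_subset_of_nonneg (filter_subset _ _) (fun _ _ _ => by positivity)
  calc h * (lev S t).card ≤ h * (S'.card + (w + h)) := Nat.mul_le_mul_left _ h1
    _ = h * S'.card + h * (w + h) := by ring
    _ ≤ _ := by omega

theorem cw_avg1 {S : Finset ℤ} (hpos : ∀ s ∈ S, 0 < s) (t h : ℕ) (ht : 0 < t) :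
    ∃ u < t, h * (lev S t).card ≤ t * cw S h (u : ℤ) + h * h := by
  have h1 := window_avg hpos t h 0
  have hne : (range t).Nonempty := ⟨0, mem_range.2 ht⟩
  obtain ⟨u, hu, hmax⟩ := exists_max_image (range t) (fun u => cw S h (u : ℤ)) hne
  refine ⟨u, mem_range.1 hu, ?_⟩
  have h2 : ∑ u ∈ range t, cw S h (((0 : ℕ) : ℤ) + u) ≤ t * cw S h (u : ℤ) := by
    calc _ ≤ ∑ _u ∈ range t, cw S h (u : ℤ) := by
          apply sum_le_sum
          intro x hx
          have := hmax x hx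
          simpa using this
      _ = _ := by rw [sum_const, card_range, smul_eq_mul]
  have h3 : h * (0 + h) = h * h := by ring
  omega

theorem cw_avg2 {S : Finset ℤ} (hpos : ∀ s ∈ S, 0 < s) (t h w : ℕ) (ht : 0 < t) :
    ∃ u < t, 2 * h * (lev S t).card ≤
      t * (cw S h (u : ℤ) + cw S h ((w : ℤ) + u)) + h * h + h * (w + h) := by
  have h1 := window_avg hpos t h 0
  have h1' := window_avg hpos t h w
  have hne : (range t).Nonempty := ⟨0, mem_range.2 ht⟩
  obtain ⟨u, hu, hmax⟩ := exists_max_image (range t)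
    (fun u => cw S h (u : ℤ) + cw S h ((w : ℤ) + u)) hne
  refine ⟨u, mem_range.1 hu, ?_⟩
  have h2 : ∑ u ∈ range t, cw S h (((0 : ℕ) : ℤ) + u) + ∑ u ∈ range t, cw S h ((w : ℤ) + u) ≤
      t * (cw S h (u : ℤ) + cw S h ((w : ℤ) + u)) := by
    rw [← sum_add_distrib]
    calc _ ≤ ∑ _u ∈ range t, (cw S h (u : ℤ) + cw S h ((w : ℤ) + u)) := by
          apply sum_le_sum
          intro x hx
          have := hmax x hx
          simpa using this
      _ = _ := by rw [sum_const, card_range, smul_eq_mul]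
  have h3 : h * (0 + h) = h * h := by ring
  have h4 : 2 * h * (lev S t).card = h * (lev S t).card + h * (lev S t).card := by ring
  omega

theorem dvd_window {h : ℤ} (hh : 0 < h) {e : ℤ} (hd : h ∣ e) (h1 : -h < e) (h2 : e < 2 * h) :
    e = 0 ∨ e = h := by
  obtain ⟨k, rfl⟩ := hd
  have hk1 : -1 < k := by
    by_contra hcon
    have : k ≤ -1 := by omega
    nlinarith
  have hk2 : k < 2 := by
    by_contra hcon
    have : 2 ≤ k := by omega
    nlinarith
  interval_cases k <;> simp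

set_option maxHeartbeats 1000000 in
theorem six_levels' {D m : ℕ} (hD : 100 ≤ D) (S : Finset ℤ) (hpos : ∀ s ∈ S, 0 < s)
    (T : ℕ → ℕ) (x₀ : ℕ) (hx₀ : 0 < x₀) (θ : ℝ) (hθ0 : 0 ≤ θ)
    (hθm : (m : ℝ) * θ ≤ 1 / (100 * D)) (hθ : θ ≤ 1 / (100 * D))
    (hm : (1 - 1 / (D : ℝ)) ^ m ≤ 1 / (100 * D))
    (hdense : ∀ i < 6, (1 / 3 + 1 / (D : ℝ)) * T i ≤ ((lev S (T i)).card : ℝ))
    (hfew : ∀ i < 6, ∀ s ∈ lev S (T i), (rep (lev S (T i)) s : ℝ) ≤ θ * T i)
    (hratio : ∀ i < 5, 100 * D * T i ≤ T (i + 1))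
    (hT0 : 100 * D * (2 ^ (m + 1) * x₀) ≤ T 0) :
    ∃ q : ℕ, 0 < q ∧ q ≤ D ∧ ∀ s ∈ S, s < (x₀ : ℤ) → ¬ (q : ℤ) ∣ s := by
  classical
  have hD0 : (0 : ℝ) < D := by exact_mod_cast (by omega : 0 < D)
  have hDr : (100 : ℝ) ≤ D := by exact_mod_cast hD
  have hDD : 1 ≤ 100 * D := by omega
  have hr : ∀ i < 5, T i ≤ T (i + 1) := fun i hi =>
    le_trans (Nat.le_mul_of_pos_left _ hDD) (hratio i hi)
  have hr0 := hratio 0 (by norm_num)
  have hr1 := hratio 1 (by norm_num)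
  have hr2 := hratio 2 (by norm_num)
  have hr3 := hratio 3 (by norm_num)
  have hr4 := hratio 4 (by norm_num)
  have hs0 := hr 0 (by norm_num)
  have hs1 := hr 1 (by norm_num)
  have hs2 := hr 2 (by norm_num)
  have hs3 := hr 3 (by norm_num)
  simp only [zero_add, Nat.reduceAdd] at hr0 hr1 hr2 hr3 hr4 hs0 hs1 hs2 hs3
  have hpw : 0 < 2 ^ (m + 1) * x₀ := by positivity
  have hT0pos : 0 < T 0 := lt_of_lt_of_le (by positivity) hT0
  have h24 : 100 * D * T 2 ≤ T 4 := hr2.trans hs3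
  have hx4 : 100 * D * (2 ^ (m + 1) * x₀) ≤ T 4 := hT0.trans (hs0.trans (hs1.trans (hs2.trans hs3)))
  obtain ⟨h, hxh, hh, hper⟩ := near_period hD S hpos (T 2) (T 3) (T 4) (T 5) x₀ hx₀ θ hθ0 hθm hθ hm
    (hdense 4 (by norm_num)) (hdense 5 (by norm_num)) (hfew 4 (by norm_num))
    (hfew 5 (by norm_num)) h24 hr3 hr4 hx4
  have hhpos : 0 < h := lt_of_lt_of_le hx₀ hxh
  have hhT0 : 100 * D * h ≤ T 0 := le_trans (Nat.mul_le_mul_left _ hh) hT0
  have : NeZero h := ⟨hhpos.ne'⟩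
  have hT1pos : 0 < T 1 := lt_of_lt_of_le hT0pos hs0
  have hT2pos : 0 < T 2 := lt_of_lt_of_le hT1pos hs1
  have hT3pos : 0 < T 3 := lt_of_lt_of_le hT2pos hs2
  set P3 : ℤ → Prop := fun n => (rep (lev S (T 3)) n : ℝ) ≤ θ * T 3 with hP3
  set P2 : ℤ → Prop := fun n => (rep (lev S (T 2)) n : ℝ) ≤ θ * T 2 with hP2
  have hlev : ∀ {a b : ℕ}, a ≤ b → ∀ s ∈ lev S a, s ∈ lev S b := by
    intro a b hab s hs
    rw [mem_lev] at hs ⊢
    exact ⟨hs.1, hs.2.trans (by exact_mod_cast hab)⟩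
  have hSP3 : ∀ s ∈ lev S (T 3), P3 s := fun s hs => hfew 3 (by norm_num) s hs
  -- gap lemma
  have hgap : ∀ n : ℤ, |n| ≤ (T 2 : ℕ) → P3 n → P2 (n + h) := by
    intro n hn hPn
    by_contra hcon
    have hcon' : θ * T 2 < rep (lev S (T 2)) (n + h) := not_le.1 hcon
    have hrpos : 0 < rep (lev S (T 2)) (n + h) := by
      have : (0 : ℝ) < rep (lev S (T 2)) (n + h) := lt_of_le_of_lt (by positivity) hcon'
      exact_mod_cast this
    unfold rep at hrpos
    rw [card_pos] at hrpos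
    obtain ⟨x, hx⟩ := hrpos
    rw [mem_filter] at hx
    have h1 := hper _ hx.2
    rw [show x + (n + h) - (h : ℤ) = x + n by ring] at h1
    have hx0 := hpos _ (mem_lev.1 hx.1).1
    have h2 := no_sum hD hpos (t := T 3) (B := T 2) hθ
      (le_trans (Nat.mul_le_mul_right _ (by omega)) hr2) hT3pos (hdense 3 (by norm_num))
      (x := x) (y := n) (by rw [abs_of_pos hx0]; exact (mem_lev.1 hx.1).2) hn
      (hSP3 _ (hlev hs2 _ hx.1)) hPn
    linarith
  -- monotonicity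
  have hmono : ∀ n : ℤ, P3 n → P2 n := by
    intro n hPn
    by_contra hcon
    have hcon' : θ * T 2 < rep (lev S (T 2)) n := not_le.1 hcon
    have hrpos : 0 < rep (lev S (T 2)) n := by
      have : (0 : ℝ) < rep (lev S (T 2)) n := lt_of_le_of_lt (by positivity) hcon'
      exact_mod_cast this
    unfold rep at hrpos
    rw [card_pos] at hrpos
    obtain ⟨x, hx⟩ := hrpos
    rw [mem_filter] at hx
    have h1 := pop' hD hpos hθ hr2 hT3pos (hdense 3 (by norm_num)) (hfew 3 (by norm_num)) hx.2 hx.1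
    rw [show x + n - x = n by ring] at h1
    have : (rep (lev S (T 3)) n : ℝ) ≤ θ * T 3 := hPn
    linarith
  -- windows
  set F : ℤ → Finset ℤ := fun u => (Ico u (u + h)).filter P3 with hF
  have hmemF : ∀ {u n : ℤ}, n ∈ F u ↔ (u ≤ n ∧ n < u + h) ∧ P3 n := by
    intro u n
    rw [hF]
    simp only [mem_filter, mem_Ico]
  have hkey : ∀ u u' : ℤ, 0 ≤ u → 0 ≤ u' → u + h ≤ 2 * (T 1 : ℕ) → u' + h ≤ 2 * (T 1 : ℕ) →
      ∀ α ∈ F u, ∀ β ∈ F u', ∀ γ ∈ F (u + u'), ((α + β : ℤ) : ZMod h) ≠ (γ : ZMod h) := by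
    intro u u' hu hu' hub hub' α hα β hβ γ hγ heq
    rw [hmemF] at hα hβ hγ
    have hdvd : (h : ℤ) ∣ α + β - γ := by
      have := (ZMod.intCast_eq_intCast_iff_dvd_sub _ _ _).1 heq.symm
      exact this
    have hT12 : 8 * (T 1 : ℤ) ≤ T 2 := by
      have : 8 * T 1 ≤ T 2 := le_trans (Nat.mul_le_mul_right _ (by omega)) hr1
      exact_mod_cast this
    have hα1 : |α| ≤ ((2 * T 1 : ℕ) : ℤ) := by
      rw [abs_of_nonneg (by omega)]; push_cast; omega
    have hβ1 : |β| ≤ ((2 * T 1 : ℕ) : ℤ) := by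
      rw [abs_of_nonneg (by omega)]; push_cast; omega
    rcases dvd_window (by exact_mod_cast hhpos) hdvd (by omega) (by omega) with h0 | h0
    · have hs : α + β = γ := by omega
      have := no_sum hD hpos (t := T 3) (B := T 2) hθ
        (le_trans (Nat.mul_le_mul_right _ (by omega)) hr2) hT3pos (hdense 3 (by norm_num))
        (x := α) (y := β) (hα1.trans (by push_cast; omega)) (hβ1.trans (by push_cast; omega))
        hα.2 hβ.2
      rw [hs] at this
      have h2 : (rep (lev S (T 3)) γ : ℝ) ≤ θ * T 3 := hγ.2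
      linarith
    · have hs : α + β = γ + h := by omega
      have h3 := hgap γ (by rw [abs_of_nonneg (by omega)]; omega) hγ.2
      have := no_sum hD hpos (t := T 2) (B := 2 * T 1) hθ
        (by
          have : 50 * D * (2 * T 1) = 100 * D * T 1 := by ring
          rw [this]; exact hr1)
        hT2pos (hdense 2 (by norm_num)) (x := α) (y := β) hα1 hβ1 (hmono _ hα.2) (hmono _ hβ.2)
      rw [hs] at this
      have h2 : (rep (lev S (T 2)) (γ + h) : ℝ) ≤ θ * T 2 := h3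
      linarith
  set A : ℤ → Finset (ZMod h) := fun u => (F u).image (fun n : ℤ => (n : ZMod h)) with hA
  have hcardA : ∀ u : ℤ, (A u).card = (F u).card := by
    intro u
    rw [hA]
    apply card_image_of_injOn
    intro a ha b hb hab
    rw [mem_coe, hmemF] at ha hb
    have hdvd := (ZMod.intCast_eq_intCast_iff_dvd_sub _ _ _).1 hab
    obtain ⟨k, hk⟩ := hdvd
    have hh0 : (0 : ℤ) < h := by exact_mod_cast hhpos
    have hk1 : -1 < k := by
      by_contra hcon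
      have : k ≤ -1 := by omega
      nlinarith
    have hk2 : k < 1 := by
      by_contra hcon
      have : 1 ≤ k := by omega
      nlinarith
    have : k = 0 := by omega
    rw [this] at hk
    omega
  have hcwF : ∀ u : ℤ, 0 ≤ u → u + h ≤ 2 * (T 1 : ℕ) + (T 0 : ℕ) → cw S h u ≤ (A u).card := by
    intro u hu hub
    rw [hcardA]
    unfold cw
    apply card_le_card
    intro n hn
    rw [mem_filter, mem_Ico] at hn
    rw [hmemF]
    refine ⟨hn.1, hSP3 _ ?_⟩
    rw [mem_lev]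
    refine ⟨hn.2, ?_⟩
    have : 8 * T 1 ≤ T 2 := le_trans (Nat.mul_le_mul_right _ (by omega)) hr1
    omega
  -- averages
  obtain ⟨v, hv, hvc⟩ := cw_avg1 hpos (T 0) h hT0pos
  obtain ⟨v', hv', hvc'⟩ := cw_avg2 hpos (T 1) h v hT1pos
  have hhT0' : 100 * h ≤ T 0 := by
    refine le_trans (Nat.mul_le_mul_right _ ?_) hhT0
    exact Nat.le_mul_of_pos_right _ (by omega)
  have hT01n : 100 * T 0 ≤ T 1 := by
    refine le_trans (Nat.mul_le_mul_right _ ?_) hr0
    exact Nat.le_mul_of_pos_right _ (by omega)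
  have hb1 := hcwF v (by positivity) (by omega)
  have hb2 := hcwF v' (by positivity) (by omega)
  have hb3 := hcwF ((v : ℤ) + v') (by positivity) (by omega)
  have hT0r : (0 : ℝ) < T 0 := by exact_mod_cast hT0pos
  have hT1r : (0 : ℝ) < T 1 := by exact_mod_cast hT1pos
  have hhr : (0 : ℝ) < h := by exact_mod_cast hhpos
  have hhT0r : (h : ℝ) ≤ T 0 / (100 * D) := by
    rw [le_div_iff₀ (by positivity)]
    have : 100 * (D : ℝ) * h ≤ T 0 := by exact_mod_cast hhT0
    linarith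
  have hT01r : (T 0 : ℝ) ≤ T 1 / (100 * D) := by
    rw [le_div_iff₀ (by positivity)]
    have : 100 * (D : ℝ) * T 0 ≤ T 1 := by exact_mod_cast hr0
    linarith
  have hBc : (1 / 3 + 1 / (D : ℝ) - 1 / (100 * D)) * h ≤ (A v).card := by
    have h1 : (h : ℝ) * (lev S (T 0)).card ≤ T 0 * cw S h (v : ℤ) + h * h := by exact_mod_cast hvc
    have h2 := hdense 0 (by norm_num)
    have h3 : (cw S h (v : ℤ) : ℝ) ≤ (A v).card := by exact_mod_cast hb1
    have h4 : (h : ℝ) * ((1 / 3 + 1 / (D : ℝ)) * T 0) ≤ T 0 * (A v).card + h * (T 0 / (100 * D)) := by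
      calc (h : ℝ) * ((1 / 3 + 1 / (D : ℝ)) * T 0) ≤ h * (lev S (T 0)).card := by gcongr
        _ ≤ T 0 * cw S h (v : ℤ) + h * h := h1
        _ ≤ T 0 * (A v).card + h * (T 0 / (100 * D)) := by gcongr
    have h5 : (T 0 : ℝ) * ((1 / 3 + 1 / (D : ℝ) - 1 / (100 * D)) * h) ≤ T 0 * (A v).card := by
      have : (T 0 : ℝ) * ((1 / 3 + 1 / (D : ℝ) - 1 / (100 * D)) * h) =
        (h : ℝ) * ((1 / 3 + 1 / (D : ℝ)) * T 0) - h * (T 0 / (100 * D)) := by ring
      linarith
    exact le_of_mul_le_mul_left h5 hT0r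
  have hACc : (2 / 3 + 2 / (D : ℝ) - 3 / (100 * D)) * h ≤ ((A v').card : ℝ) + (A (v' + v)).card := by
    have h1 : 2 * (h : ℝ) * (lev S (T 1)).card ≤ T 1 * (cw S h (v' : ℤ) + cw S h ((v : ℤ) + v'))
        + h * h + h * (v + h) := by exact_mod_cast hvc'
    have h2 := hdense 1 (by norm_num)
    have h3 : (cw S h (v' : ℤ) : ℝ) ≤ (A v').card := by exact_mod_cast hb2
    have h3' : (cw S h ((v : ℤ) + v') : ℝ) ≤ (A (v' + v)).card := by
      rw [add_comm (v' : ℤ) v]; exact_mod_cast hb3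
    have h0 : (h : ℝ) ≤ T 0 := by
      refine hhT0r.trans ?_
      rw [div_le_iff₀ (by positivity)]
      nlinarith
    have h4 : (v : ℝ) ≤ T 0 := by exact_mod_cast hv.le
    have h5 : (h : ℝ) * h + h * (v + h) ≤ 3 * (h * (T 1 / (100 * D))) := by
      have : (h : ℝ) + (v + h) ≤ 3 * (T 1 / (100 * D)) := by linarith
      calc (h : ℝ) * h + h * (v + h) = h * (h + (v + h)) := by ring
        _ ≤ h * (3 * (T 1 / (100 * D))) := by gcongr
        _ = _ := by ring
    have h6 : 2 * (h : ℝ) * ((1 / 3 + 1 / (D : ℝ)) * T 1) ≤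
        T 1 * (((A v').card : ℝ) + (A (v' + v)).card) + 3 * (h * (T 1 / (100 * D))) := by
      calc 2 * (h : ℝ) * ((1 / 3 + 1 / (D : ℝ)) * T 1) ≤ 2 * h * (lev S (T 1)).card := by gcongr
        _ ≤ T 1 * (cw S h (v' : ℤ) + cw S h ((v : ℤ) + v')) + h * h + h * (v + h) := h1
        _ ≤ T 1 * (((A v').card : ℝ) + (A (v' + v)).card) + 3 * (h * (T 1 / (100 * D))) := by
            have : (T 1 : ℝ) * (cw S h (v' : ℤ) + cw S h ((v : ℤ) + v')) ≤
              T 1 * (((A v').card : ℝ) + (A (v' + v)).card) := by gcongr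
            linarith
    have h7 : (T 1 : ℝ) * ((2 / 3 + 2 / (D : ℝ) - 3 / (100 * D)) * h) ≤
        T 1 * (((A v').card : ℝ) + (A (v' + v)).card) := by
      have : (T 1 : ℝ) * ((2 / 3 + 2 / (D : ℝ) - 3 / (100 * D)) * h) =
        2 * (h : ℝ) * ((1 / 3 + 1 / (D : ℝ)) * T 1) - 3 * (h * (T 1 / (100 * D))) := by ring
      linarith
    exact le_of_mul_le_mul_left h7 hT1r
  have hDinv : (0 : ℝ) < 1 / D := by positivity
  have e100 : 1 / (100 * (D : ℝ)) = 1 / D / 100 := by field_simp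
  have e300 : 3 / (100 * (D : ℝ)) = 3 * (1 / D) / 100 := by field_simp
  have e2 : 2 / (D : ℝ) = 2 * (1 / D) := by ring
  obtain ⟨q, hq0, hqγ, hq⟩ := trio (A v') (A v) (A (v' + v)) (2 / (D : ℝ)) (by positivity)
    (by
      intro a ha b hb hab
      rw [hA] at ha hb hab
      simp only [mem_image] at ha hb hab
      obtain ⟨α, hα, rfl⟩ := ha
      obtain ⟨β, hβ, rfl⟩ := hb
      obtain ⟨γ, hγ, hγe⟩ := hab
      refine hkey v' v (by positivity) (by positivity) (by push_cast; omega) (by push_cast; omega)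
        α hα β hβ γ hγ ?_
      rw [hγe]; push_cast; ring)
    (by
      have : (h : ℝ) < 4 * (A v).card := by
        rw [e100] at hBc
        nlinarith
      exact_mod_cast this)
    (by
      rw [e100] at hBc
      rw [e300, e2] at hACc
      rw [e2]
      nlinarith)
  refine ⟨q, hq0, ?_, ?_⟩
  · have h1 : (q : ℝ) * 2 ≤ D := by
      rw [mul_div_assoc', div_le_one hD0] at hqγ
      exact hqγ
    have h2 : (q : ℝ) ≤ D := by
      have : (0 : ℝ) ≤ q := by positivity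
      linarith
    exact_mod_cast h2
  · intro s hs hsx hdvd
    obtain ⟨t, rfl⟩ := hdvd
    have hspos := hpos _ hs
    have hsF : (q * t : ℤ) ∈ F 0 := by
      rw [hmemF]
      refine ⟨⟨hspos.le, by omega⟩, hSP3 _ ?_⟩
      rw [mem_lev]
      refine ⟨hs, ?_⟩
      omega
    have hcl : ∀ u : ℤ, 0 ≤ u → u + h ≤ 2 * (T 1 : ℕ) →
        ∀ a ∈ A u, a + (q : ZMod h) * (t : ZMod h) ∉ A u := by
      intro u hu hub a ha hab
      rw [hA] at ha hab
      simp only [mem_image] at ha hab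
      obtain ⟨α, hα, rfl⟩ := ha
      obtain ⟨γ, hγ, hγe⟩ := hab
      refine hkey u 0 hu le_rfl hub (by push_cast; omega) α hα (q * t) hsF γ
        (by rw [add_zero]; exact hγ) ?_
      rw [hγe]; push_cast; ring
    exact hq t ⟨hcl v' (by positivity) (by push_cast; omega),
      hcl v (by positivity) (by push_cast; omega),
      hcl (v' + v) (by positivity) (by push_cast; omega)⟩

/-- Module STR: six dense scales `T 0 < ... < T 5`, few Schur pairs. -/
theorem six_levels {D m : ℕ} (hD : 100 ≤ D) (S : Finset ℤ) (hpos : ∀ s ∈ S, 0 < s)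
    (T : ℕ → ℕ) (x₀ : ℕ) (hx₀ : 0 < x₀) (θ : ℝ) (hθ0 : 0 ≤ θ)
    (hθm : (m : ℝ) * θ ≤ 1 / (100 * D)) (hθ : θ ≤ 1 / (100 * D))
    (hm : (1 - 1 / (D : ℝ)) ^ m ≤ 1 / (100 * D))
    (hdense : ∀ i < 6, (1 / 3 + 1 / (D : ℝ)) * T i ≤ ((S.filter (· ≤ (T i : ℤ))).card : ℝ))
    (hfew : ∀ i < 6, ∀ s ∈ S, s ≤ (T i : ℤ) →
      ((S.filter (fun x => x + s ∈ S ∧ x + s ≤ (T i : ℤ))).card : ℝ) ≤ θ * T i)
    (hratio : ∀ i < 5, 100 * D * T i ≤ T (i + 1))
    (hT0 : 100 * D * (2 ^ (m + 1) * x₀) ≤ T 0) :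
    ∃ q : ℕ, 0 < q ∧ q ≤ D ∧ ∀ s ∈ S, s < (x₀ : ℤ) → ¬ (q : ℤ) ∣ s := by
  refine six_levels' hD S hpos T x₀ hx₀ θ hθ0 hθm hθ hm hdense ?_ hratio hT0
  intro i hi s hs
  rw [mem_lev] at hs
  refine le_trans ?_ (hfew i hi s hs.1 hs.2)
  unfold rep
  have hsub : (lev S (T i)).filter (fun x => x + s ∈ lev S (T i)) ⊆
      S.filter (fun x => x + s ∈ S ∧ x + s ≤ (T i : ℤ)) := by
    intro x hx
    rw [mem_filter, mem_lev, mem_lev] at hx
    rw [mem_filter]
    exact ⟨hx.1.1, hx.2⟩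
  exact_mod_cast card_le_card hsub

end SF2
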