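import Pool.Agent.SF2.Cont
import Pool.Agent.SF2.Struct

/-!
# The weighted count for poor sets
-/

namespace SF2

open Finset SFree

/-- The number of `x` in `S` with `x + s` in `S`, `x + s ≤ b`. -/
noncomputable def rr (S : Finset ℤ) (b : ℕ) (s : ℤ) : ℕ :=
  (S.filter (fun x => x + s ∈ S ∧ x + s ≤ (b : ℤ))).card

/-- The elements with few representations at every level. -/
def Core (S : Finset ℤ) (T : ℕ → ℕ) (K : ℕ) (θ : ℝ) (s : ℤ) : Prop :=
  ∀ k < K, s ≤ (T k : ℤ) → (rr S (T k) s : ℝ) ≤ θ * T k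

noncomputable instance (S : Finset ℤ) (T : ℕ → ℕ) (K : ℕ) (θ : ℝ) :
    DecidablePred (Core S T K θ) := Classical.decPred _

theorem prs_eq_sum (S : Finset ℤ) (a b : ℕ) :
    prs S a b = ∑ s ∈ S.filter (· ≤ (a : ℤ)), rr S b s := by
  rw [prs, card_filter, sum_product, sum_filter]
  apply sum_congr rfl
  intro s _
  simp only [rr]
  split_ifs with h
  · rw [card_filter]
    apply sum_congr rfl
    intro x _
    simp [h, and_comm]
  · apply sum_eq_zero
    intro x _
    simp [h]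

theorem bad_card_aux {S : Finset ℤ} {T : ℕ → ℕ} (hTpos : ∀ k, 0 < T k) {θ : ℝ} (hθ : 0 < θ)
    {l k : ℕ} (hprs : (prs S (T l) (T k) : ℝ) ≤ θ ^ 2 * T l * T k) :
    ((S.filter (fun s => s ≤ (T l : ℤ) ∧ θ * T k < (rr S (T k) s : ℝ))).card : ℝ) ≤ θ * T l := by
  obtain ⟨H, hH⟩ : ∃ H, H = S.filter (fun s => s ≤ (T l : ℤ) ∧ θ * T k < (rr S (T k) s : ℝ)) :=
    ⟨_, rfl⟩
  rw [← hH]
  have h1 : (H.card : ℝ) * (θ * T k) ≤ (prs S (T l) (T k) : ℝ) := by
    rw [prs_eq_sum]
    push_cast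
    calc (H.card : ℝ) * (θ * T k) = ∑ s ∈ H, θ * T k := by rw [sum_const, nsmul_eq_mul]
      _ ≤ ∑ s ∈ H, (rr S (T k) s : ℝ) := by
        apply sum_le_sum
        intro s hs
        rw [hH, mem_filter] at hs
        exact hs.2.2.le
      _ ≤ ∑ s ∈ S.filter (· ≤ (T l : ℤ)), (rr S (T k) s : ℝ) := by
        apply sum_le_sum_of_subset_of_nonneg
        · intro s hs
          rw [hH, mem_filter] at hs
          exact mem_filter.2 ⟨hs.1, hs.2.1⟩
        · intro s _ _
          exact Nat.cast_nonneg _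
  have h2 : (0 : ℝ) < θ * T k := mul_pos hθ (by exact_mod_cast hTpos k)
  have h3 : (H.card : ℝ) * (θ * T k) ≤ θ * T l * (θ * T k) := by nlinarith
  exact le_of_mul_le_mul_right h3 h2

theorem noncore_card {S : Finset ℤ} {T : ℕ → ℕ} (hT : Monotone T) (hTpos : ∀ k, 0 < T k) {θ : ℝ}
    (hθ : 0 < θ) {K : ℕ}
    (hprs : ∀ l k, l ≤ k → k < K → (prs S (T l) (T k) : ℝ) ≤ θ ^ 2 * T l * T k) (l : ℕ) :
    ((S.filter (fun s => s ≤ (T l : ℤ) ∧ ¬ Core S T K θ s)).card : ℝ) ≤ K * θ * T l := by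
  classical
  have h1 : S.filter (fun s => s ≤ (T l : ℤ) ∧ ¬ Core S T K θ s) ⊆
      (range K).biUnion (fun k => S.filter (fun s => s ≤ (T l : ℤ) ∧ s ≤ (T k : ℤ) ∧
        θ * T k < (rr S (T k) s : ℝ))) := by
    intro s hs
    rw [mem_filter] at hs
    obtain ⟨hsS, hsl, hsc⟩ := hs
    unfold Core at hsc
    push Not at hsc
    obtain ⟨k, hk, hsk, hrr⟩ := hsc
    rw [mem_biUnion]
    exact ⟨k, mem_range.2 hk, mem_filter.2 ⟨hsS, hsl, hsk, hrr⟩⟩
  have h2 : ((S.filter (fun s => s ≤ (T l : ℤ) ∧ ¬ Core S T K θ s)).card : ℝ) ≤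
      ∑ k ∈ range K, ((S.filter (fun s => s ≤ (T l : ℤ) ∧ s ≤ (T k : ℤ) ∧
        θ * T k < (rr S (T k) s : ℝ))).card : ℝ) := by
    exact_mod_cast (card_le_card h1).trans card_biUnion_le
  refine h2.trans ?_
  have h3 : ∀ k ∈ range K, ((S.filter (fun s => s ≤ (T l : ℤ) ∧ s ≤ (T k : ℤ) ∧
        θ * T k < (rr S (T k) s : ℝ))).card : ℝ) ≤ θ * T l := by
    intro k hk
    rw [mem_range] at hk
    rcases le_total l k with hlk | hkl
    · refine le_trans ?_ (bad_card_aux hTpos hθ (hprs l k hlk hk))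
      have : S.filter (fun s => s ≤ (T l : ℤ) ∧ s ≤ (T k : ℤ) ∧ θ * T k < (rr S (T k) s : ℝ)) ⊆
        S.filter (fun s => s ≤ (T l : ℤ) ∧ θ * T k < (rr S (T k) s : ℝ)) := by
        intro s hs
        rw [mem_filter] at hs ⊢
        exact ⟨hs.1, hs.2.1, hs.2.2.2⟩
      exact_mod_cast card_le_card this
    · refine le_trans (le_trans ?_ (bad_card_aux hTpos hθ (hprs k k le_rfl hk))) ?_
      · have : S.filter (fun s => s ≤ (T l : ℤ) ∧ s ≤ (T k : ℤ) ∧ θ * T k < (rr S (T k) s : ℝ)) ⊆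
          S.filter (fun s => s ≤ (T k : ℤ) ∧ θ * T k < (rr S (T k) s : ℝ)) := by
          intro s hs
          rw [mem_filter] at hs ⊢
          exact ⟨hs.1, hs.2.2.1, hs.2.2.2⟩
        exact_mod_cast card_le_card this
      · have : (T k : ℝ) ≤ T l := by exact_mod_cast hT hkl
        exact mul_le_mul_of_nonneg_left this hθ.le
  refine (sum_le_sum h3).trans (le_of_eq ?_)
  rw [sum_const, card_range, nsmul_eq_mul]
  ring

/-- Two almost disjoint translates. -/
theorem half_card {S : Finset ℤ} (hS : ∀ s ∈ S, 0 < s) {b : ℕ} {s : ℤ} (hs : 0 < s) {e : ℝ}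
    (hr : (rr S b s : ℝ) ≤ e) :
    2 * ((S.filter (· ≤ (b : ℤ))).card : ℝ) ≤ b + s + e := by
  obtain ⟨A, hA⟩ : ∃ A, A = S.filter (· ≤ (b : ℤ)) := ⟨_, rfl⟩
  rw [← hA]
  have h1 : (A ∪ A.image (· + s)).card ≤ b + s.toNat := by
    have h2 : A ∪ A.image (· + s) ⊆ Icc (1 : ℤ) (b + s) := by
      intro x hx
      rw [mem_Icc]
      rcases mem_union.1 hx with h | h
      · rw [hA, mem_filter] at h
        have := hS x h.1
        omega
      · obtain ⟨y, hy, rfl⟩ := mem_image.1 h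
        rw [hA, mem_filter] at hy
        have := hS y hy.1
        omega
    refine (card_le_card h2).trans ?_
    rw [Int.card_Icc]
    omega
  have h2 : (A.image (· + s)).card = A.card :=
    card_image_of_injective _ (add_left_injective s)
  have h3 : (A ∩ A.image (· + s)).card ≤ rr S b s := by
    have h4 : (A ∩ A.image (· + s)) ⊆
        (S.filter (fun x => x + s ∈ S ∧ x + s ≤ (b : ℤ))).image (· + s) := by
      intro x hx
      rw [mem_inter] at hx
      obtain ⟨hxA, hx2⟩ := hx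
      obtain ⟨y, hy, rfl⟩ := mem_image.1 hx2
      rw [hA, mem_filter] at hxA hy
      exact mem_image.2 ⟨y, mem_filter.2 ⟨hy.1, hxA.1, hxA.2⟩, rfl⟩
    exact (card_le_card h4).trans card_image_le
  have h4 := card_union_add_card_inter A (A.image (· + s))
  have h5 : 2 * A.card ≤ b + s.toNat + rr S b s := by omega
  have h6 : (2 * A.card : ℝ) ≤ b + (s.toNat : ℝ) + rr S b s := by exact_mod_cast h5
  have h7 : ((s.toNat : ℤ) : ℝ) = (s : ℝ) := by rw [Int.toNat_of_nonneg hs.le]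
  have h8 : (s.toNat : ℝ) = (s : ℝ) := by rw [← h7]; push_cast; rfl
  rw [h8] at h6
  linarith

/-- If `j ≥ 8` levels are dense, some `q` divides no small element of the core. -/
theorem no_multiple {D m : ℕ} (hD : 100 ≤ D) {S : Finset ℤ} (hS : ∀ s ∈ S, 0 < s)
    {T₀ ρ K : ℕ} (hT₀ : 0 < T₀) (hρm : 200 * D * 2 ^ (m + 1) * 2 ≤ ρ)
    (hm : (1 - 1 / (D : ℝ)) ^ m ≤ 1 / (100 * D))
    {θ : ℝ} (hθ0 : 0 < θ) (hθm : (m : ℝ) * θ ≤ 1 / (100 * D)) (hθ : θ ≤ 1 / (100 * D))
    {S' : Finset ℤ} (hS' : S' ⊆ S) (hcore : ∀ s ∈ S', Core S (fun k => T₀ * ρ ^ k) K θ s)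
    {J : Finset ℕ} (hJK : ∀ k ∈ J, k < K)
    (hJ : ∀ k ∈ J, (1 / 3 + 1 / (D : ℝ)) * ((T₀ * ρ ^ k : ℕ) : ℝ) ≤
      ((S'.filter (· ≤ ((T₀ * ρ ^ k : ℕ) : ℤ))).card : ℝ)) (hcard : 8 ≤ J.card) :
    ∃ q : ℕ, 0 < q ∧ q ≤ D ∧ ∀ s ∈ S', s ≤ ((T₀ * ρ ^ (J.card - 7) : ℕ) : ℤ) → ¬ (q : ℤ) ∣ s := by
  classical
  have hρ1 : 1 ≤ ρ := by
    have : 0 < 200 * D * 2 ^ (m + 1) * 2 := by positivity
    omega
  have h1 : 6 ≤ (J.filter (J.card - 6 ≤ ·)).card := by
    have h2 : J.card = (J.filter (J.card - 6 ≤ ·)).card + (J.filter (¬ J.card - 6 ≤ ·)).card :=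
      (card_filter_add_card_filter_not (s := J) (J.card - 6 ≤ ·)).symm
    have h3 : (J.filter (¬ J.card - 6 ≤ ·)).card ≤ J.card - 6 := by
      have : J.filter (¬ J.card - 6 ≤ ·) ⊆ range (J.card - 6) := by
        intro x hx
        rw [mem_filter] at hx
        rw [mem_range]
        omega
      refine (card_le_card this).trans ?_
      simp
    omega
  obtain ⟨J', hJ'sub, hJ'card⟩ := exists_subset_card_eq h1
  have hmemJ' : ∀ i : Fin 6, J'.orderEmbOfFin hJ'card i ∈ J ∧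
      J.card - 6 ≤ J'.orderEmbOfFin hJ'card i := by
    intro i
    have := hJ'sub (J'.orderEmbOfFin_mem hJ'card i)
    rw [mem_filter] at this
    exact this
  obtain ⟨κ, hκ⟩ : ∃ κ : ℕ → ℕ, κ = fun i => if h : i < 6 then J'.orderEmbOfFin hJ'card ⟨i, h⟩
      else 0 := ⟨_, rfl⟩
  have hκJ : ∀ i < 6, κ i ∈ J ∧ J.card - 6 ≤ κ i := by
    intro i hi
    rw [hκ]
    simp only [hi, dif_pos]
    exact hmemJ' ⟨i, hi⟩
  have hκlt : ∀ i < 5, κ i < κ (i + 1) := by
    intro i hi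
    rw [hκ]
    simp only [show i < 6 by omega, show i + 1 < 6 by omega, dif_pos]
    apply (J'.orderEmbOfFin hJ'card).strictMono
    simp [Fin.lt_def]
  have hfac : 100 * D * 1 ≤ ρ := by
    have : 1 ≤ 2 ^ (m + 1) := Nat.one_le_two_pow
    nlinarith
  have hfew : ∀ i < 6, ∀ s ∈ S', s ≤ ((T₀ * ρ ^ κ i : ℕ) : ℤ) →
      ((S'.filter (fun x => x + s ∈ S' ∧ x + s ≤ ((T₀ * ρ ^ κ i : ℕ) : ℤ))).card : ℝ) ≤
        θ * ((T₀ * ρ ^ κ i : ℕ) : ℝ) := by
    intro i hi s hs hsT
    have h2 := hcore s hs (κ i) (hJK _ (hκJ i hi).1) hsT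
    refine le_trans ?_ h2
    have h3 : S'.filter (fun x => x + s ∈ S' ∧ x + s ≤ ((T₀ * ρ ^ κ i : ℕ) : ℤ)) ⊆
        S.filter (fun x => x + s ∈ S ∧ x + s ≤ ((T₀ * ρ ^ κ i : ℕ) : ℤ)) := by
      intro x hx
      rw [mem_filter] at hx ⊢
      exact ⟨hS' hx.1, hS' hx.2.1, hx.2.2⟩
    unfold rr
    exact_mod_cast card_le_card h3
  have hratio : ∀ i < 5, 100 * D * (T₀ * ρ ^ κ i) ≤ T₀ * ρ ^ κ (i + 1) := by
    intro i hi
    have h2 : ρ ^ (κ i + 1) ≤ ρ ^ κ (i + 1) := Nat.pow_le_pow_right hρ1 (hκlt i hi)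
    calc 100 * D * (T₀ * ρ ^ κ i) ≤ ρ * (T₀ * ρ ^ κ i) := Nat.mul_le_mul_right _ (by omega)
      _ = T₀ * ρ ^ (κ i + 1) := by ring
      _ ≤ _ := Nat.mul_le_mul_left _ h2
  have hT0 : 100 * D * (2 ^ (m + 1) * (2 * (T₀ * ρ ^ (κ 0 - 1)))) ≤ T₀ * ρ ^ κ 0 := by
    have h2 := (hκJ 0 (by omega)).2
    have h3 : κ 0 = κ 0 - 1 + 1 := by omega
    calc 100 * D * (2 ^ (m + 1) * (2 * (T₀ * ρ ^ (κ 0 - 1))))
        = (200 * D * 2 ^ (m + 1)) * (T₀ * ρ ^ (κ 0 - 1)) := by ring
      _ ≤ ρ * (T₀ * ρ ^ (κ 0 - 1)) := Nat.mul_le_mul_right _ (by omega)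
      _ = T₀ * ρ ^ (κ 0 - 1 + 1) := by ring
      _ = _ := by rw [← h3]
  obtain ⟨q, hq0, hqD, hq⟩ := six_levels hD S' (fun s hs => hS s (hS' hs))
    (fun i => T₀ * ρ ^ (κ i)) (2 * (T₀ * ρ ^ (κ 0 - 1))) (by positivity) θ hθ0.le hθm hθ hm
    (fun i hi => hJ _ (hκJ i hi).1) hfew hratio hT0
  refine ⟨q, hq0, hqD, fun s hs hsT => hq s hs ?_⟩
  have h2 : T₀ * ρ ^ (J.card - 7) ≤ T₀ * ρ ^ (κ 0 - 1) := by
    apply Nat.mul_le_mul_left
    apply Nat.pow_le_pow_right hρ1
    have := (hκJ 0 (by omega)).2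
    omega
  have h3 : 0 < T₀ * ρ ^ (κ 0 - 1) := by positivity
  have h4 : ((T₀ * ρ ^ (J.card - 7) : ℕ) : ℤ) < ((2 * (T₀ * ρ ^ (κ 0 - 1)) : ℕ) : ℤ) := by
    exact_mod_cast (by omega : T₀ * ρ ^ (J.card - 7) < 2 * (T₀ * ρ ^ (κ 0 - 1)))
  omega

/-- The combinatorial double count. -/
theorem double_count (j e : ℕ → ℕ) (K : ℕ) (hj : ∀ i, j i ≤ K) :
    ∀ κ : ℕ, (∀ i, i + 1 < κ → j i ≤ e (i + 1) + 7) →
      ∑ i ∈ range κ, ((j i : ℝ) / 6 - (e i : ℝ) / 3) ≤ 7 / 3 * κ + K / 6 := by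
  intro κ
  have key : ∀ κ : ℕ, (∀ i, i + 1 < κ + 1 → j i ≤ e (i + 1) + 7) →
      ∑ i ∈ range (κ + 1), ((j i : ℝ) / 6 - (e i : ℝ) / 3) ≤ 7 / 3 * κ + j κ / 6 := by
    intro κ
    induction κ with
    | zero =>
      intro _
      simp only [zero_add, range_one, sum_singleton, Nat.cast_zero, mul_zero]
      have : (0 : ℝ) ≤ e 0 := Nat.cast_nonneg _
      linarith
    | succ κ ih =>
      intro h
      rw [sum_range_succ]
      have h1 := ih (fun i hi => h i (by omega))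
      have h2 : (j κ : ℝ) ≤ e (κ + 1) + 7 := by exact_mod_cast h κ (by omega)
      have h3 : (0 : ℝ) ≤ j κ := Nat.cast_nonneg _
      push_cast
      linarith
  intro h
  rcases κ with _ | κ
  · simp
    positivity
  · have h1 := key κ h
    have h2 : (j κ : ℝ) ≤ K := by exact_mod_cast hj κ
    push_cast
    linarith

/-- The weighted count for poor sets. -/
theorem poor_count {D m : ℕ} (hD : 100 ≤ D) (L : ℤ) (hL : 0 < L)
    (hLD : ∀ q : ℕ, 0 < q → q ≤ D → (q : ℤ) ∣ L)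
    (N T₀ ρ κ K : ℕ) (hT₀ : 0 < T₀) (hN : T₀ * ρ ^ K ≤ N)
    (hρL : L ≤ ρ) (hρm : 200 * D * 2 ^ (m + 1) * 2 ≤ ρ)
    (hm : (1 - 1 / (D : ℝ)) ^ m ≤ 1 / (100 * D))
    (θ : ℝ) (hθ0 : 0 < θ) (hθm : (m : ℝ) * θ ≤ 1 / (100 * D)) (hθK : K * ρ * θ ≤ 1 / (100 * D))
    (C : Finset ℤ) (hC : Poor L N (fun k => T₀ * ρ ^ k) κ K (θ ^ 2) C) :
    ∑ i ∈ range κ, ∑ k ∈ range K,
      (((sec L N C i).filter (· ≤ ((T₀ * ρ ^ k : ℕ) : ℤ))).card : ℝ) / ((T₀ * ρ ^ k : ℕ) : ℝ)
      ≤ (1 / 3 + 2 / D) * κ * K + 3 * κ + K / 3 := by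
  classical
  rcases Nat.eq_zero_or_pos K with hK0 | hK
  · subst hK0
    simp
  have hfac : 400 * D ≤ ρ := by
    have : 1 ≤ 2 ^ (m + 1) := Nat.one_le_two_pow
    nlinarith
  have hρ1 : 1 ≤ ρ := by omega
  have hDr : (100 : ℝ) ≤ D := by exact_mod_cast hD
  have hD0 : (0 : ℝ) < D := by linarith
  have hρr : (1 : ℝ) ≤ ρ := by exact_mod_cast hρ1
  have hKr : (1 : ℝ) ≤ K := by exact_mod_cast hK
  obtain ⟨T, hTdef⟩ : ∃ T : ℕ → ℕ, T = fun k => T₀ * ρ ^ k := ⟨_, rfl⟩
  have hTapp : ∀ k, T₀ * ρ ^ k = T k := fun k => by rw [hTdef]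
  have hTmono : Monotone T := by
    intro a b hab
    rw [hTdef]
    exact Nat.mul_le_mul_left _ (Nat.pow_le_pow_right hρ1 hab)
  have hTpos : ∀ k, 0 < T k := by
    intro k
    rw [hTdef]
    have : 0 < ρ := by omega
    positivity
  have hTsucc : ∀ k, T (k + 1) = ρ * T k := by
    intro k
    rw [hTdef]
    ring
  have hC' : Poor L N T κ K (θ ^ 2) C := by rw [hTdef]; exact hC
  have hθ : θ ≤ 1 / (100 * D) := by
    have h1 : 1 * 1 * θ ≤ K * ρ * θ := by
      apply mul_le_mul_of_nonneg_right _ hθ0.le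
      exact mul_le_mul hKr hρr (by norm_num) (by linarith)
    linarith
  have hKθ : K * θ ≤ 1 / (100 * D) := by
    have h1 : K * 1 * θ ≤ K * ρ * θ := by
      apply mul_le_mul_of_nonneg_right _ hθ0.le
      exact mul_le_mul_of_nonneg_left hρr (by linarith)
    linarith
  simp only [hTapp]
  obtain ⟨S, hSdef⟩ : ∃ S : ℕ → Finset ℤ, S = fun i => sec L N C i := ⟨_, rfl⟩
  have hSapp : ∀ i, sec L N C i = S i := fun i => by rw [hSdef]
  have hSpos : ∀ i, ∀ s ∈ S i, 0 < s := by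
    intro i s hs
    rw [← hSapp, mem_sec] at hs
    omega
  simp only [hSapp]
  obtain ⟨c, hc⟩ : ∃ c : ℕ → ℕ → ℝ, c = fun i k =>
    (((S i).filter (· ≤ (T k : ℤ))).card : ℝ) := ⟨_, rfl⟩
  have hcapp : ∀ i k, (((S i).filter (· ≤ (T k : ℤ))).card : ℝ) = c i k := fun i k => by rw [hc]
  simp only [hcapp]
  have hTr : ∀ k, (0 : ℝ) < T k := fun k => by exact_mod_cast hTpos k
  have hcT : ∀ i k, c i k ≤ T k := by
    intro i k
    rw [← hcapp]
    have h1 : (S i).filter (· ≤ (T k : ℤ)) ⊆ Icc (1 : ℤ) (T k) := by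
      intro x hx
      rw [mem_filter] at hx
      have := hSpos i x hx.1
      rw [mem_Icc]
      exact ⟨by omega, hx.2⟩
    have h2 := card_le_card h1
    rw [Int.card_Icc] at h2
    have h3 : ((S i).filter (· ≤ (T k : ℤ))).card ≤ T k := by omega
    exact_mod_cast h3
  -- the core
  have hprs : ∀ i < κ, ∀ l k, l ≤ k → k < K →
      (prs (S i) (T l) (T k) : ℝ) ≤ θ ^ 2 * T l * T k := by
    intro i hi l k hlk hk
    rw [← hSapp]
    exact hC' i hi l k hlk hk
  obtain ⟨S', hS'⟩ : ∃ S' : ℕ → Finset ℤ, S' = fun i => (S i).filter (Core (S i) T K θ) :=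
    ⟨_, rfl⟩
  have hS'sub : ∀ i, S' i ⊆ S i := fun i => by rw [hS']; exact filter_subset _ _
  have hS'core : ∀ i, ∀ s ∈ S' i, Core (S i) T K θ s := by
    intro i s hs
    rw [hS', mem_filter] at hs
    exact hs.2
  have hcore : ∀ i < κ, ∀ k, c i k ≤ (((S' i).filter (· ≤ (T k : ℤ))).card : ℝ) +
      K * θ * T k := by
    intro i hi k
    have h1 := noncore_card hTmono hTpos hθ0 (hprs i hi) k
    have h2 : (S i).filter (· ≤ (T k : ℤ)) ⊆ (S' i).filter (· ≤ (T k : ℤ)) ∪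
        (S i).filter (fun s => s ≤ (T k : ℤ) ∧ ¬ Core (S i) T K θ s) := by
      intro s hs
      rw [mem_filter] at hs
      rw [mem_union, mem_filter, mem_filter, hS', mem_filter]
      by_cases h : Core (S i) T K θ s
      · exact Or.inl ⟨⟨hs.1, h⟩, hs.2⟩
      · exact Or.inr ⟨hs.1, hs.2, h⟩
    have h3 := (card_le_card h2).trans (card_union_le _ _)
    have h4 : c i k ≤ (((S' i).filter (· ≤ (T k : ℤ))).card : ℝ) +
      (((S i).filter (fun s => s ≤ (T k : ℤ) ∧ ¬ Core (S i) T K θ s)).card : ℝ) := by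
      rw [← hcapp]
      exact_mod_cast h3
    linarith
  obtain ⟨J, hJ⟩ : ∃ J : ℕ → Finset ℕ, J = fun i =>
    (range K).filter (fun k => (1 / 3 + 2 / (D : ℝ)) * T k ≤ c i k) := ⟨_, rfl⟩
  obtain ⟨E, hE⟩ : ∃ E : ℕ → Finset ℕ, E = fun i =>
    (range K).filter (fun k => c i k ≤ 1 / (100 * D) * T k) := ⟨_, rfl⟩
  have hmemJ : ∀ i k, k ∈ J i ↔ k < K ∧ (1 / 3 + 2 / (D : ℝ)) * T k ≤ c i k := by
    intro i k
    rw [hJ, mem_filter, mem_range]
  have hmemE : ∀ i k, k ∈ E i ↔ k < K ∧ c i k ≤ 1 / (100 * D) * T k := by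
    intro i k
    rw [hE, mem_filter, mem_range]
  have hJK : ∀ i, (J i).card ≤ K := by
    intro i
    rw [hJ]
    refine (card_filter_le _ _).trans ?_
    simp
  have hcore2 : ∀ i < κ, ∀ k ∈ J i, (1 / 3 + 1 / (D : ℝ)) * T k ≤
      (((S' i).filter (· ≤ (T k : ℤ))).card : ℝ) := by
    intro i hi k hk
    have h1 := hcore i hi k
    have h2 := ((hmemJ i k).1 hk).2
    have h3 : K * θ * T k ≤ 1 / (100 * D) * T k := mul_le_mul_of_nonneg_right hKθ (hTr k).le
    have h4 : (1 / 3 + 2 / (D : ℝ)) * T k = (1 / 3 + 1 / (D : ℝ)) * T k + 1 / D * T k := by ring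
    have h5 : 1 / (100 * (D : ℝ)) * T k ≤ 1 / D * T k := by
      apply mul_le_mul_of_nonneg_right _ (hTr k).le
      apply one_div_le_one_div_of_le hD0
      linarith
    linarith
  have hnext : ∀ i, i + 1 < κ → (J i).card ≤ (E (i + 1)).card + 7 := by
    intro i hi
    rcases Nat.lt_or_ge (J i).card 8 with h8 | h8
    · omega
    obtain ⟨q, hq0, hqD, hq⟩ := no_multiple hD (hSpos i) (K := K) hT₀ hρm hm hθ0 hθm hθ
      (hS'sub i) (by rw [hTdef] at hS'core; exact hS'core i)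
      (fun k hk => ((hmemJ i k).1 hk).1) (by
        intro k hk
        have := hcore2 i (by omega) k hk
        rw [hTapp]
        exact this) h8
    rw [hTapp] at hq
    have h1 : range ((J i).card - 7) ⊆ E (i + 1) := by
      intro k hk
      rw [mem_range] at hk
      have hJKi := hJK i
      rw [hmemE]
      refine ⟨by omega, ?_⟩
      have h2 : ((S (i + 1)).filter (· ≤ (T k : ℤ))).card ≤
          ((S i).filter (fun s => s ≤ (T (k + 1) : ℤ) ∧ ¬ Core (S i) T K θ s)).card := by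
        refine card_le_card_of_injOn (fun n => L * n) ?_ ?_
        · intro n hn
          have hn' := mem_filter.1 (mem_coe.1 hn)
          have hnS := hn'.1
          rw [← hSapp, mem_sec] at hnS
          have hLn : L * n ≤ (T (k + 1) : ℤ) := by
            rw [hTsucc]
            push_cast
            exact mul_le_mul hρL hn'.2 (by omega) (by omega)
          have hLN : L * n ≤ (N : ℤ) := by
            have h3 : T (k + 1) ≤ T K := hTmono (by omega)
            have h4 : T K ≤ N := by rw [hTdef]; exact hN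
            have h5 : (T (k + 1) : ℤ) ≤ N := by exact_mod_cast h3.trans h4
            omega
          have hLpos : 1 ≤ L * n := by
            have := mul_pos hL (show 0 < n by omega)
            omega
          have hmem : L * n ∈ S i := by
            rw [← hSapp, mem_sec]
            refine ⟨⟨hLpos, hLN⟩, ?_⟩
            have : L ^ i * (L * n) = L ^ (i + 1) * n := by ring
            rw [this]
            exact hnS.2
          refine mem_coe.2 (mem_filter.2 ⟨hmem, hLn, fun hcr => ?_⟩)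
          have hmem' : L * n ∈ S' i := by
            rw [hS', mem_filter]
            exact ⟨hmem, hcr⟩
          refine hq _ hmem' ?_ (Dvd.dvd.mul_right (hLD q hq0 hqD) n)
          have h3 : (T (k + 1) : ℤ) ≤ T ((J i).card - 7) := by
            exact_mod_cast hTmono (show k + 1 ≤ (J i).card - 7 by omega)
          omega
        · intro a _ b _ hab
          exact mul_left_cancel₀ hL.ne' hab
      have h3 := noncore_card hTmono hTpos hθ0 (hprs i (by omega)) (k + 1)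
      have h4 : c (i + 1) k ≤ K * θ * T (k + 1) := by
        refine le_trans ?_ h3
        rw [← hcapp]
        exact_mod_cast h2
      refine h4.trans ?_
      rw [hTsucc]
      push_cast
      calc K * θ * (ρ * T k) = (K * ρ * θ) * T k := by ring
        _ ≤ _ := mul_le_mul_of_nonneg_right hθK (hTr k).le
    have h2 := card_le_card h1
    rw [card_range] at h2
    omega
  -- the bound at a level
  obtain ⟨low, hlow⟩ : ∃ low : ℕ → ℕ, low = fun i => if h : (J i).Nonempty then (J i).min' h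
    else K := ⟨_, rfl⟩
  have hlevel : ∀ i < κ, ∀ k < K, c i k / T k ≤ (1 / 3 + 2 / (D : ℝ)) +
      (if k ∈ J i then (1 / 6 : ℝ) else 0) + (if k = low i then (1 / 2 : ℝ) else 0) -
      (if k ∈ E i then (1 / 3 : ℝ) else 0) := by
    intro i hi k hk
    have hT := hTr k
    rw [div_le_iff₀ hT]
    have hinv : (0 : ℝ) < 1 / D := by positivity
    have hinv2 : 1 / (100 * (D : ℝ)) = (1 / 100) * (1 / D) := by
      rw [one_div_mul_one_div]
    have h2D : 2 / (D : ℝ) = 2 * (1 / D) := by ring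
    have hinv3 : 1 / (D : ℝ) ≤ 1 / 100 := by
      apply one_div_le_one_div_of_le (by norm_num) hDr
    by_cases hkJ : k ∈ J i
    · have hkJ' := ((hmemJ i k).1 hkJ).2
      have hkE : k ∉ E i := by
        intro h
        have h' := ((hmemE i k).1 h).2
        rw [hinv2] at h'
        rw [h2D] at hkJ'
        have h3 : (1 / 3 + 2 * (1 / (D : ℝ))) * T k ≤ 1 / 100 * (1 / D) * T k := hkJ'.trans h'
        have h4 := le_of_mul_le_mul_right h3 hT
        linarith
      rw [if_pos hkJ, if_neg hkE]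
      by_cases hkl : k = low i
      · rw [if_pos hkl]
        have := hcT i k
        have h3 : (0 : ℝ) < 2 / (D : ℝ) * T k := by positivity
        nlinarith
      · rw [if_neg hkl]
        have hne : (J i).Nonempty := ⟨k, hkJ⟩
        have hlow' : low i = (J i).min' hne := by
          rw [hlow]
          simp only [hne, dif_pos]
        have hlJ : low i ∈ J i := by rw [hlow']; exact min'_mem _ _
        have hlk : low i < k := by
          have : low i ≤ k := by rw [hlow']; exact min'_le _ _ hkJ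
          omega
        have h3 := hcore2 i hi (low i) hlJ
        have h4 : (0 : ℝ) < (((S' i).filter (· ≤ (T (low i) : ℤ))).card : ℝ) := by
          refine lt_of_lt_of_le ?_ h3
          have := hTr (low i)
          positivity
        obtain ⟨s, hs⟩ := card_pos.1 (by exact_mod_cast h4 :
          0 < ((S' i).filter (· ≤ (T (low i) : ℤ))).card)
        rw [mem_filter] at hs
        have hTlk : T (low i) ≤ T k := hTmono hlk.le
        have h5 : D * T (low i) ≤ T k := by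
          calc D * T (low i) ≤ ρ * T (low i) := Nat.mul_le_mul_right _ (by omega)
            _ = T (low i + 1) := (hTsucc _).symm
            _ ≤ T k := hTmono hlk
        have h6 := half_card (hSpos i) (b := T k) (hSpos i s (hS'sub i hs.1))
          (hS'core i s hs.1 k hk (by
            have : (T (low i) : ℤ) ≤ T k := by exact_mod_cast hTlk
            omega))
        rw [hcapp] at h6
        have h7 : (s : ℝ) ≤ T (low i) := by exact_mod_cast hs.2
        have h8 : (D : ℝ) * T (low i) ≤ T k := by exact_mod_cast h5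
        have h9 : (T (low i) : ℝ) ≤ 1 / D * T k := by
          rw [one_div, ← div_eq_inv_mul, le_div_iff₀ hD0]
          linarith
        have h10 : θ * T k ≤ 1 / (100 * D) * T k := mul_le_mul_of_nonneg_right hθ hT.le
        rw [hinv2] at h10
        rw [h2D]
        have h11 : 0 < 1 / (D : ℝ) * T k := by positivity
        nlinarith
    · rw [if_neg hkJ]
      have hkl : (0 : ℝ) ≤ if k = low i then (1 / 2 : ℝ) else 0 := by
        split_ifs <;> norm_num
      have hkl' : 0 ≤ (if k = low i then (1 / 2 : ℝ) else 0) * T k := mul_nonneg hkl hT.le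
      have hJneg : c i k < (1 / 3 + 2 / (D : ℝ)) * T k := by
        by_contra h
        push Not at h
        exact hkJ ((hmemJ i k).2 ⟨hk, h⟩)
      by_cases hkE : k ∈ E i
      · rw [if_pos hkE]
        have h' := ((hmemE i k).1 hkE).2
        rw [hinv2] at h'
        rw [h2D]
        have h11 : 0 < 1 / (D : ℝ) * T k := by positivity
        nlinarith
      · rw [if_neg hkE]
        nlinarith
  have hrow : ∀ i ∈ range κ, ∑ k ∈ range K, c i k / T k ≤
      ((1 / 3 + 2 / (D : ℝ)) * K + 1 / 2) + (((J i).card : ℝ) / 6 - ((E i).card : ℝ) / 3) := by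
    intro i hi
    rw [mem_range] at hi
    refine (sum_le_sum (fun k hk => hlevel i hi k (mem_range.1 hk))).trans ?_
    rw [sum_sub_distrib, sum_add_distrib, sum_add_distrib]
    have h1 : ∑ k ∈ range K, (if k ∈ J i then (1 / 6 : ℝ) else 0) = ((J i).card : ℝ) / 6 := by
      rw [← sum_filter, sum_const, nsmul_eq_mul]
      have : (range K).filter (· ∈ J i) = J i := by
        ext x
        rw [mem_filter, mem_range]
        exact ⟨fun h => h.2, fun h => ⟨((hmemJ i x).1 h).1, h⟩⟩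
      rw [this]
      ring
    have h2 : ∑ k ∈ range K, (if k ∈ E i then (1 / 3 : ℝ) else 0) = ((E i).card : ℝ) / 3 := by
      rw [← sum_filter, sum_const, nsmul_eq_mul]
      have : (range K).filter (· ∈ E i) = E i := by
        ext x
        rw [mem_filter, mem_range]
        exact ⟨fun h => h.2, fun h => ⟨((hmemE i x).1 h).1, h⟩⟩
      rw [this]
      ring
    have h3 : ∑ k ∈ range K, (if k = low i then (1 / 2 : ℝ) else 0) ≤ 1 / 2 := by
      rw [sum_ite_eq']
      split_ifs <;> norm_num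
    have h4 : ∑ k ∈ range K, (1 / 3 + 2 / (D : ℝ)) = (1 / 3 + 2 / (D : ℝ)) * K := by
      rw [sum_const, card_range, nsmul_eq_mul]
      ring
    linarith
  refine (sum_le_sum hrow).trans ?_
  rw [sum_add_distrib, sum_const, card_range, nsmul_eq_mul]
  have hdc := double_count (fun i => (J i).card) (fun i => (E i).card) K hJK κ hnext
  have hκ0 : (0 : ℝ) ≤ κ := Nat.cast_nonneg _
  have hK0 : (0 : ℝ) ≤ K := by linarith
  have h1 : (κ : ℝ) * ((1 / 3 + 2 / (D : ℝ)) * K + 1 / 2) =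
      (1 / 3 + 2 / (D : ℝ)) * κ * K + κ / 2 := by ring
  rw [h1]
  linarith

end SF2
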