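import Pool.Agent.SFree.Defs

/-!
# A random subset avoids all containers
-/

namespace SF2

open Finset

theorem exp_le_quad {x : ℝ} (hx : |x| ≤ 1) : Real.exp x ≤ 1 + x + x ^ 2 := by
  have := (abs_le.1 (Real.abs_exp_sub_one_sub_id_le hx)).2
  linarith

theorem mix_le {p x : ℝ} (hp : 0 ≤ p) (hx : |x| ≤ 1) :
    p * Real.exp x + (1 - p) ≤ Real.exp (p * (x + x ^ 2)) := by
  have h1 := exp_le_quad hx
  have h2 : p * Real.exp x ≤ p * (1 + x + x ^ 2) := mul_le_mul_of_nonneg_left h1 hp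
  have h3 := Real.add_one_le_exp (p * (x + x ^ 2))
  nlinarith

/-- Module RAND. -/
theorem exists_random {ι : Type*} [DecidableEq ι] (U : Finset ι) (p : ι → ℝ)
    (hp0 : ∀ a ∈ U, 0 ≤ p a) (hp1 : ∀ a ∈ U, p a ≤ 1) (𝒞 : Finset (Finset ι))
    (h𝒞 : 𝒞.Nonempty) (α δ : ℝ) (hα : 0 ≤ α) (hδ : 0 < δ) (hαδ : α + δ ≤ 1)
    (hC : ∀ C ∈ 𝒞, ∑ a ∈ U ∩ C, p a ≤ α * ∑ a ∈ U, p a)
    (hcard : (𝒞.card : ℝ) < Real.exp (δ ^ 2 / 4 * ∑ a ∈ U, p a)) :
    ∃ A ⊆ U, A.Nonempty ∧ ∀ C ∈ 𝒞, ((A ∩ C).card : ℝ) ≤ (α + δ) * A.card := by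
  classical
  set P : ℝ := ∑ a ∈ U, p a with hP
  have hP0 : 0 ≤ P := Finset.sum_nonneg hp0
  set lam : ℝ := δ / 2 with hlam
  have hδ1 : δ ≤ 1 := by linarith
  have hlam0 : 0 < lam := by rw [hlam]; linarith
  have hlam1 : lam ≤ 1 := by rw [hlam]; linarith
  let t : Finset ι → ι → ℝ := fun C a => (if a ∈ C then 1 else 0) - (α + δ)
  have ht : ∀ C a, |t C a| ≤ 1 := by
    intro C a
    simp only [t]
    split_ifs <;> rw [abs_le] <;> constructor <;> linarith
  let w : Finset ι → ℝ := fun A => (∏ a ∈ A, p a) * ∏ a ∈ U \ A, (1 - p a)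
  have hw0 : ∀ A ∈ U.powerset, 0 ≤ w A := by
    intro A hA
    have hA' := Finset.mem_powerset.1 hA
    refine mul_nonneg (Finset.prod_nonneg fun a ha => hp0 a (hA' ha)) ?_
    exact Finset.prod_nonneg fun a ha => by
      have := hp1 a (Finset.mem_sdiff.1 ha).1
      linarith
  have hw1 : ∑ A ∈ U.powerset, w A = 1 := by
    have := Finset.prod_add (fun a => p a) (fun a => 1 - p a) U
    simp only [add_sub_cancel, Finset.prod_const_one] at this
    exact this.symm
  let G : Finset ι → Finset ι → ℝ := fun C A => Real.exp (lam * ∑ a ∈ A, t C a)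
  have hbound : ∀ C ∈ 𝒞, ∑ A ∈ U.powerset, w A * G C A ≤ Real.exp (-(δ ^ 2 / 4 * P)) := by
    intro C hCm
    have e1 : ∑ A ∈ U.powerset, w A * G C A =
        ∏ a ∈ U, (p a * Real.exp (lam * t C a) + (1 - p a)) := by
      rw [Finset.prod_add]
      refine Finset.sum_congr rfl fun A _ => ?_
      simp only [w, G]
      rw [Finset.prod_mul_distrib, Finset.mul_sum, Real.exp_sum]
      ring
    rw [e1]
    have e2 : ∏ a ∈ U, (p a * Real.exp (lam * t C a) + (1 - p a)) ≤
        ∏ a ∈ U, Real.exp (p a * (lam * t C a + (lam * t C a) ^ 2)) := by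
      refine Finset.prod_le_prod (fun a ha => ?_) fun a ha => ?_
      · have h1 := hp0 a ha
        have h2 := hp1 a ha
        have h3 := Real.exp_pos (lam * t C a)
        have := mul_nonneg h1 h3.le
        linarith
      · refine mix_le (hp0 a ha) ?_
        rw [abs_mul, abs_of_pos hlam0]
        calc lam * |t C a| ≤ 1 * 1 := mul_le_mul hlam1 (ht C a) (abs_nonneg _) zero_le_one
          _ = 1 := one_mul 1
    refine e2.trans ?_
    rw [← Real.exp_sum, Real.exp_le_exp]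
    have e3 : ∑ a ∈ U, p a * (lam * t C a + (lam * t C a) ^ 2) ≤
        ∑ a ∈ U, (lam * (p a * t C a) + lam ^ 2 * p a) := by
      refine Finset.sum_le_sum fun a ha => ?_
      have h1 := hp0 a ha
      have h2 : (t C a) ^ 2 ≤ 1 := by
        have := ht C a
        rw [← sq_abs]
        have h0 := abs_nonneg (t C a)
        nlinarith
      have h3 : 0 ≤ p a * lam ^ 2 := by positivity
      nlinarith
    refine e3.trans ?_
    rw [Finset.sum_add_distrib, ← Finset.mul_sum, ← Finset.mul_sum]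
    have e4 : ∑ a ∈ U, p a * t C a = ∑ a ∈ U ∩ C, p a - (α + δ) * P := by
      have : ∀ a ∈ U, p a * t C a = (if a ∈ C then p a else 0) - (α + δ) * p a := by
        intro a _
        simp only [t]
        split_ifs <;> ring
      rw [Finset.sum_congr rfl this, Finset.sum_sub_distrib, ← Finset.mul_sum,
        ← Finset.sum_filter, Finset.filter_mem_eq_inter]
    rw [e4]
    have h5 := hC C hCm
    have h6 : lam * (∑ a ∈ U ∩ C, p a - (α + δ) * P) ≤ lam * (-(δ * P)) := by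
      refine mul_le_mul_of_nonneg_left ?_ hlam0.le
      have : ∑ a ∈ U ∩ C, p a ≤ α * P := h5
      linarith
    have h7 : lam * (-(δ * P)) + lam ^ 2 * P = -(δ ^ 2 / 4 * P) := by
      rw [hlam]; ring
    linarith
  have hsum : ∑ A ∈ U.powerset, w A * ∑ C ∈ 𝒞, G C A < ∑ A ∈ U.powerset, w A := by
    rw [hw1]
    have e1 : ∑ A ∈ U.powerset, w A * ∑ C ∈ 𝒞, G C A =
        ∑ C ∈ 𝒞, ∑ A ∈ U.powerset, w A * G C A := by
      rw [Finset.sum_comm]
      exact Finset.sum_congr rfl fun A _ => Finset.mul_sum _ _ _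
    rw [e1]
    calc ∑ C ∈ 𝒞, ∑ A ∈ U.powerset, w A * G C A ≤ ∑ C ∈ 𝒞, Real.exp (-(δ ^ 2 / 4 * P)) :=
          Finset.sum_le_sum hbound
      _ = 𝒞.card * Real.exp (-(δ ^ 2 / 4 * P)) := by rw [Finset.sum_const, nsmul_eq_mul]
      _ < Real.exp (δ ^ 2 / 4 * P) * Real.exp (-(δ ^ 2 / 4 * P)) :=
          mul_lt_mul_of_pos_right hcard (Real.exp_pos _)
      _ = 1 := by rw [← Real.exp_add, add_neg_cancel, Real.exp_zero]
  obtain ⟨A, hA, hlt⟩ := Finset.exists_lt_of_sum_lt hsum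
  have hwA := hw0 A hA
  have hS : ∑ C ∈ 𝒞, G C A < 1 := by
    by_contra hcon
    push Not at hcon
    have := mul_le_mul_of_nonneg_left hcon hwA
    rw [mul_one] at this
    linarith
  have hone : ∀ C ∈ 𝒞, G C A < 1 := fun C hCm =>
    lt_of_le_of_lt (Finset.single_le_sum (f := fun C => G C A)
      (fun C _ => (Real.exp_pos _).le) hCm) hS
  have hneg : ∀ C ∈ 𝒞, ∑ a ∈ A, t C a < 0 := by
    intro C hCm
    have h1 := hone C hCm
    simp only [G] at h1
    rw [Real.exp_lt_one_iff] at h1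
    by_contra hcon
    push Not at hcon
    have := mul_nonneg hlam0.le hcon
    linarith
  refine ⟨A, Finset.mem_powerset.1 hA, ?_, ?_⟩
  · obtain ⟨C, hCm⟩ := h𝒞
    rw [Finset.nonempty_iff_ne_empty]
    rintro rfl
    have := hneg C hCm
    simp at this
  · intro C hCm
    have h1 := hneg C hCm
    have e4 : ∑ a ∈ A, t C a = ((A ∩ C).card : ℝ) - (α + δ) * A.card := by
      simp only [t]
      rw [Finset.sum_sub_distrib, Finset.sum_const, nsmul_eq_mul, ← Finset.sum_filter,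
        Finset.filter_mem_eq_inter, Finset.sum_const, nsmul_eq_mul]
      ring
    linarith

end SF2
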