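import Pool.Agent.SF2.Weight
import Pool.Agent.SF2.Node
import Pool.Agent.SF2.Rand
import Pool.Agent.SF2.Asym

/-!
# The choice of the parameters
-/

namespace SF2

open Finset SFree

/-- The sum of the reciprocals of the levels. -/
lemma sum_inv_le (T₀ ρ K : ℕ) (hT₀ : 0 < T₀) (hρ : 2 ≤ ρ) :
    ∑ k ∈ range K, (1 : ℝ) / ((T₀ * ρ ^ k : ℕ) : ℝ) ≤ 2 / T₀ := by
  have hT : (0 : ℝ) < T₀ := by exact_mod_cast hT₀
  have h1 : ∀ k ∈ range K, (1 : ℝ) / ((T₀ * ρ ^ k : ℕ) : ℝ) ≤ (1 / T₀) * (1 / 2) ^ k := by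
    intro k _
    have h2 : (2 : ℝ) ^ k ≤ (ρ : ℝ) ^ k := by
      apply pow_le_pow_left₀ (by norm_num)
      exact_mod_cast hρ
    rw [one_div_pow, one_div_mul_one_div]
    push_cast
    apply one_div_le_one_div_of_le (by positivity)
    gcongr
  calc ∑ k ∈ range K, (1 : ℝ) / ((T₀ * ρ ^ k : ℕ) : ℝ)
      ≤ ∑ k ∈ range K, (1 / (T₀ : ℝ)) * (1 / 2) ^ k := sum_le_sum h1
    _ = (1 / (T₀ : ℝ)) * ∑ k ∈ range K, (1 / 2 : ℝ) ^ k := by rw [mul_sum]
    _ ≤ (1 / (T₀ : ℝ)) * 2 := by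
        gcongr
        have h3 := geom_sum_eq (x := (1 / 2 : ℝ)) (by norm_num) K
        rw [h3]
        have h4 : (0 : ℝ) < (1 / 2) ^ K := by positivity
        rw [div_le_iff_of_neg (by norm_num)]
        linarith
    _ = 2 / T₀ := by ring

/-- The abstract assembly: containers, poor counts and a random set. -/
theorem assemble {D m : ℕ} (hD : 100 ≤ D) (L : ℤ) (hL : 0 < L)
    (hLD : ∀ q : ℕ, 0 < q → q ≤ D → (q : ℤ) ∣ L)
    (N T₀ ρ K : ℕ) (hK : K = 4 * D) (hT₀ : 0 < T₀) (hN : T₀ * ρ ^ K = N)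
    (hρL : L ≤ ρ) (hρm : 200 * D * 2 ^ (m + 1) * 2 ≤ ρ)
    (hm : (1 - 1 / (D : ℝ)) ^ m ≤ 1 / (100 * D))
    (θ : ℝ) (hθ0 : 0 < θ) (hθm : (m : ℝ) * θ ≤ 1 / (100 * D)) (hθK : K * ρ * θ ≤ 1 / (100 * D))
    (h₀ β : ℕ) (τ : ℝ) (hh₀ : 0 < h₀) (hh₀N : h₀ + 1 ≤ N) (hτ : 0 < τ)
    (hβ : (β : ℝ) ≤ h₀ * θ ^ 2 / 4)
    (hKW : Real.exp (-(τ / 2)) + Real.exp (-(τ / 2) * β) ≤ 1)
    (hbig : (N : ℝ) ^ (h₀ + 1) * Real.exp (-τ * (θ ^ 2 * T₀ / 16 - h₀)) ≤ 1 / 2)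
    (hsmall : τ * (K * N) < T₀ / (2 * D)) :
    ∃ A : Finset ℤ, (∀ a ∈ A, 0 < a) ∧ 0 < A.card ∧ A.card ≤ K * N ∧
      ∀ B ⊆ A, SumFree (B : Set ℤ) → (B.card : ℝ) ≤ (1 / 3 + 5 / D) * A.card := by
  have hD0 : (0 : ℝ) < D := by
    have : 0 < D := by omega
    exact_mod_cast this
  have hD100 : (100 : ℝ) ≤ D := by exact_mod_cast hD
  have hρ2 : 2 ≤ ρ := by
    have h1 : 1 ≤ 2 ^ (m + 1) := Nat.one_le_two_pow
    nlinarith
  have hρ1 : 1 ≤ ρ := by omega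
  set T : ℕ → ℕ := fun k => T₀ * ρ ^ k with hTdef
  have hTmono : Monotone T := by
    intro a c hac
    simp only [hTdef]
    exact Nat.mul_le_mul_left _ (Nat.pow_le_pow_right hρ1 hac)
  have hTN : ∀ k < K, T k ≤ N := by
    intro k hk
    rw [← hN]
    exact Nat.mul_le_mul_left _ (Nat.pow_le_pow_right hρ1 hk.le)
  have hTpos : ∀ k < K, 0 < T k := by
    intro k _
    simp only [hTdef]
    positivity
  have hT0 : T 0 = T₀ := by simp [hTdef]
  set U := UU L N K with hU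
  obtain ⟨𝒞, h𝒞1, h𝒞2, h𝒞3⟩ := containers L hL N T K K h₀ β (θ ^ 2) τ hTmono hTN hh₀ hh₀N
    (by positivity) hτ hβ hKW (by rw [hT0]; exact hbig) U
  have h𝒞ne : 𝒞.Nonempty := by
    obtain ⟨C', hC', _⟩ := h𝒞1 ∅ (empty_subset _) (by
      intro a ha
      simp at ha)
    exact ⟨C', hC'⟩
  have hT₀r : (0 : ℝ) < T₀ := by exact_mod_cast hT₀
  have hKr : (K : ℝ) = 4 * D := by rw [hK]; push_cast; ring
  have hK0 : (0 : ℝ) < K := by rw [hKr]; positivity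
  -- the probabilities
  set p : ℤ → ℝ := fun a => wt L T K K a * (T₀ / (2 * K)) with hp
  have hp0 : ∀ a ∈ U, 0 ≤ p a := by
    intro a _
    exact mul_nonneg (wt_nonneg _ _ _ _ _) (by positivity)
  have hp1 : ∀ a ∈ U, p a ≤ 1 := by
    intro a _
    have h1 := wt_le L T K K a
    have h2 := sum_inv_le T₀ ρ K hT₀ hρ2
    calc p a = wt L T K K a * (T₀ / (2 * K)) := rfl
      _ ≤ (K * (2 / T₀)) * (T₀ / (2 * K)) := by
          apply mul_le_mul_of_nonneg_right _ (by positivity)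
          refine h1.trans ?_
          exact mul_le_mul_of_nonneg_left h2 hK0.le
      _ = 1 := by field_simp
  have hsumU : ∑ a ∈ U, p a = K * T₀ / 2 := by
    simp only [hp]
    rw [← sum_mul, sum_wt_UU hL hTN hTpos]
    field_simp
  have hα : (0 : ℝ) ≤ 1 / 3 + 3 / D := by positivity
  have hC : ∀ C ∈ 𝒞, ∑ a ∈ U ∩ C, p a ≤ (1 / 3 + 3 / D) * ∑ a ∈ U, p a := by
    intro C hC
    have hpoor := (h𝒞2 C hC).2
    have h1 := poor_count hD L hL hLD N T₀ ρ K K hT₀ hN.le hρL hρm hm θ hθ0 hθm hθK C hpoor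
    have h2 : ∑ a ∈ U ∩ C, p a = (∑ a ∈ U ∩ C, wt L T K K a) * (T₀ / (2 * K)) := by
      rw [sum_mul]
    rw [h2, sum_wt hL hTN C, hsumU]
    have h3 : (1 / 3 + 2 / D) * K * K + 3 * K + K / 3 ≤ (1 / 3 + 3 / (D : ℝ)) * (K * K) := by
      rw [hKr]
      field_simp
      nlinarith
    calc (∑ i ∈ range K, ∑ k ∈ range K,
          (((sec L N C i).filter (· ≤ (T k : ℤ))).card : ℝ) / T k) * (T₀ / (2 * K))
        ≤ ((1 / 3 + 3 / (D : ℝ)) * (K * K)) * (T₀ / (2 * K)) := by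
          apply mul_le_mul_of_nonneg_right _ (by positivity)
          exact h1.trans h3
      _ = (1 / 3 + 3 / D) * (K * T₀ / 2) := by field_simp
  have hcard𝒞 : (𝒞.card : ℝ) ≤ Real.exp (τ * (K * N)) := by
    have h1 : ∀ C' ∈ 𝒞, Real.exp (-(τ * (K * N))) ≤ Real.exp (-τ * ((U \ C').card : ℝ)) := by
      intro C' _
      rw [Real.exp_le_exp]
      have h2 : (U \ C').card ≤ K * N := (card_le_card sdiff_subset).trans (card_UU L N K)
      have h3 : ((U \ C').card : ℝ) ≤ K * N := by exact_mod_cast h2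
      nlinarith
    have h2 : (𝒞.card : ℝ) * Real.exp (-(τ * (K * N))) ≤ 1 := by
      calc (𝒞.card : ℝ) * Real.exp (-(τ * (K * N)))
          = ∑ C' ∈ 𝒞, Real.exp (-(τ * (K * N))) := by rw [sum_const, nsmul_eq_mul]
        _ ≤ ∑ C' ∈ 𝒞, Real.exp (-τ * ((U \ C').card : ℝ)) := sum_le_sum h1
        _ ≤ 1 := h𝒞3
    rw [Real.exp_neg] at h2
    have h3 := Real.exp_pos (τ * (K * N))
    rw [← div_eq_mul_inv, div_le_one h3] at h2
    exact h2
  have hcard : (𝒞.card : ℝ) < Real.exp ((1 / (D : ℝ)) ^ 2 / 4 * ∑ a ∈ U, p a) := by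
    refine hcard𝒞.trans_lt ?_
    rw [Real.exp_lt_exp, hsumU]
    refine hsmall.trans_le (le_of_eq ?_)
    rw [hKr]
    field_simp
  obtain ⟨A, hAU, hAne, hA⟩ := exists_random U p hp0 hp1 𝒞 h𝒞ne (1 / 3 + 3 / D) (1 / D) hα
    (by positivity) (by
      have : (4 : ℝ) / D ≤ 4 / 100 := by gcongr
      have h4 : (3 : ℝ) / D + 1 / D = 4 / D := by ring
      linarith) hC hcard
  refine ⟨A, ?_, card_pos.2 hAne, (card_le_card hAU).trans (card_UU L N K), ?_⟩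
  · intro a ha
    obtain ⟨i, _, n, hn1, _, rfl⟩ := mem_UU.1 (hAU ha)
    have := pow_pos hL i
    positivity
  · intro B hB hBs
    obtain ⟨C', hC', hBC⟩ := h𝒞1 B (hB.trans hAU) hBs
    have h1 : B ⊆ A ∩ C' := subset_inter hB hBC
    have h2 : (B.card : ℝ) ≤ (A ∩ C').card := by exact_mod_cast card_le_card h1
    have h3 := hA C' hC'
    have h4 : (1 / 3 + 3 / (D : ℝ) + 1 / D) ≤ 1 / 3 + 5 / D := by
      have h5 : (3 : ℝ) / D + 1 / D = 4 / D := by ring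
      have h6 : (4 : ℝ) / D ≤ 5 / D := by gcongr; norm_num
      linarith
    have h5 : (0 : ℝ) ≤ A.card := Nat.cast_nonneg _
    calc (B.card : ℝ) ≤ (1 / 3 + 3 / D + 1 / D) * A.card := h2.trans h3
      _ ≤ (1 / 3 + 5 / D) * A.card := mul_le_mul_of_nonneg_right h4 h5

/-- Powers of `b`. -/
lemma powb_le {b : ℝ} (hb : 1 ≤ b) {s t : ℕ} (h : s ≤ t) : b ^ s ≤ b ^ t :=
  pow_le_pow_right₀ hb h

/-- Elementary numerics. -/
lemma exp_neg_le_half {x : ℝ} (h0 : 0 ≤ x) (h1 : x ≤ 1) : Real.exp (-x) ≤ 1 - x / 2 := by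
  have h2 : Real.exp (-x) ≤ 1 / (1 + x) := by
    rw [Real.exp_neg, ← one_div]
    apply one_div_le_one_div_of_le (by linarith)
    linarith [Real.add_one_le_exp x]
  refine h2.trans ?_
  rw [div_le_iff₀ (by linarith)]
  nlinarith

lemma exp_neg_le_inv {x : ℝ} (h0 : 0 < x) : Real.exp (-x) ≤ 1 / x := by
  rw [Real.exp_neg, ← one_div]
  apply one_div_le_one_div_of_le h0
  linarith [Real.add_one_le_exp x]

theorem final_sets : ∃ C₀ : ℝ, ∃ D₀ : ℕ, ∀ D : ℕ, D₀ ≤ D →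
    ∃ A : Finset ℤ, (∀ a ∈ A, 0 < a) ∧ 0 < A.card ∧
      Real.log A.card ≤ C₀ * D ^ 2 * Real.log D ∧
      ∀ B ⊆ A, SumFree (B : Set ℤ) → (B.card : ℝ) ≤ (1 / 3 + 5 / D) * A.card := by
  refine ⟨600, 256, fun D hD => ?_⟩
  have hD1 : 1 ≤ D := by omega
  have hDr : (256 : ℝ) ≤ D := by exact_mod_cast hD
  have hD0 : (0 : ℝ) < D := by linarith
  obtain ⟨l, hl⟩ : ∃ l, l = Nat.log 2 D + 8 := ⟨_, rfl⟩
  obtain ⟨b, hb⟩ : ∃ b, b = 2 ^ l := ⟨_, rfl⟩
  -- `128 D ≤ b ≤ 256 D`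
  have hb1 : 128 * D ≤ b := by
    have h1 : D < 2 ^ (Nat.log 2 D + 1) := Nat.lt_pow_succ_log_self (by norm_num) D
    rw [hb, hl, pow_add]
    rw [pow_succ] at h1
    omega
  have hb2 : b ≤ 256 * D := by
    have h1 : 2 ^ Nat.log 2 D ≤ D := Nat.pow_log_le_self 2 (by omega)
    rw [hb, hl, pow_add]
    omega
  have hb128 : 32768 ≤ b := by omega
  have hbr1 : 128 * (D : ℝ) ≤ b := by exact_mod_cast hb1
  have hbr2 : (b : ℝ) ≤ 256 * D := by exact_mod_cast hb2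
  have hbr : (1 : ℝ) ≤ b := by nlinarith
  have hbr3 : (32768 : ℝ) ≤ b := by exact_mod_cast hb128
  have hb0 : (0 : ℝ) < b := by linarith
  have hlb : l ≤ b := by rw [hb]; exact Nat.lt_two_pow_self.le
  have hl0 : 1 ≤ l := by omega
  obtain ⟨m, hm⟩ : ∃ m, m = D * l := ⟨_, rfl⟩
  have h2m : 2 ^ m = b ^ D := by rw [hb, ← pow_mul, hm, mul_comm]
  obtain ⟨ρ, hρ⟩ : ∃ ρ, ρ = b ^ (4 * D) := ⟨_, rfl⟩
  obtain ⟨K, hK⟩ : ∃ K, K = 4 * D := ⟨_, rfl⟩
  obtain ⟨T₀, hT₀⟩ : ∃ T₀, T₀ = b ^ (150 * D ^ 2) := ⟨_, rfl⟩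
  obtain ⟨N, hN⟩ : ∃ N, N = b ^ (166 * D ^ 2) := ⟨_, rfl⟩
  obtain ⟨h₀, hh₀⟩ : ∃ h₀, h₀ = b ^ (60 * D ^ 2) := ⟨_, rfl⟩
  obtain ⟨β, hβ⟩ : ∃ β, β = b ^ (32 * D ^ 2 + 7) := ⟨_, rfl⟩
  obtain ⟨τ, hτ⟩ : ∃ τ : ℝ, τ = 1 / (b : ℝ) ^ (16 * D ^ 2 + 3) := ⟨_, rfl⟩
  obtain ⟨θ, hθ⟩ : ∃ θ : ℝ, θ = 1 / (b : ℝ) ^ (5 * D) := ⟨_, rfl⟩
  have hbpos : 0 < b := by omega
  have hNeq : T₀ * ρ ^ K = N := by
    rw [hT₀, hρ, hK, hN, ← pow_mul, ← pow_add]
    congr 1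
    ring
  have hDD : D ≤ D ^ 2 := by nlinarith
  have hD2 : 256 ≤ D ^ 2 := by nlinarith
  have hbD : 800 * D ≤ b ^ 2 := by nlinarith
  have hbDr : 800 * (D : ℝ) ≤ (b : ℝ) ^ 2 := by exact_mod_cast hbD
  have hbD2 : 16384 * (D : ℝ) ^ 2 ≤ (b : ℝ) ^ 2 := by nlinarith
  have hT₀pos : 0 < T₀ := by rw [hT₀]; positivity
  have hτ0 : 0 < τ := by rw [hτ]; positivity
  have hθ0 : 0 < θ := by rw [hθ]; positivity
  -- the conditions of `poor_count`
  have hρL : ((Nat.factorial D : ℕ) : ℤ) ≤ ρ := by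
    have h1 : Nat.factorial D ≤ D ^ D := Nat.factorial_le_pow D
    have h2 : D ^ D ≤ b ^ D := Nat.pow_le_pow_left (by omega) D
    have h3 : b ^ D ≤ b ^ (4 * D) := Nat.pow_le_pow_right hbpos (by omega)
    rw [hρ]
    exact_mod_cast h1.trans (h2.trans h3)
  have hρm : 200 * D * 2 ^ (m + 1) * 2 ≤ ρ := by
    rw [hρ, pow_succ, h2m]
    calc 200 * D * (b ^ D * 2) * 2 = (800 * D) * b ^ D := by ring
      _ ≤ b ^ 2 * b ^ D := Nat.mul_le_mul_right _ hbD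
      _ = b ^ (2 + D) := by rw [pow_add]
      _ ≤ b ^ (4 * D) := Nat.pow_le_pow_right hbpos (by omega)
  have hmexp : (1 - 1 / (D : ℝ)) ^ m ≤ 1 / (100 * D) := by
    have h1 : 1 - 1 / (D : ℝ) ≤ Real.exp (-(1 / D)) := by
      linarith [Real.add_one_le_exp (-(1 / (D : ℝ)))]
    have h2 : 0 ≤ 1 - 1 / (D : ℝ) := by
      rw [sub_nonneg, div_le_one hD0]
      linarith
    have h3 : (2 : ℝ) ^ l ≤ Real.exp l := by
      have h4 : (2 : ℝ) ≤ Real.exp 1 := by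
        linarith [Real.add_one_le_exp (1 : ℝ)]
      calc (2 : ℝ) ^ l ≤ (Real.exp 1) ^ l := pow_le_pow_left₀ (by norm_num) h4 l
        _ = Real.exp l := by rw [← Real.exp_nat_mul, mul_one]
    have h5 : (b : ℝ) = 2 ^ l := by rw [hb]; push_cast; rfl
    calc (1 - 1 / (D : ℝ)) ^ m ≤ (Real.exp (-(1 / D))) ^ m := pow_le_pow_left₀ h2 h1 m
      _ = Real.exp (-l) := by
          rw [← Real.exp_nat_mul, hm]
          congr 1
          push_cast
          field_simp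
      _ = 1 / Real.exp l := by rw [Real.exp_neg, one_div]
      _ ≤ 1 / (b : ℝ) := by
          apply one_div_le_one_div_of_le hb0
          rw [h5]
          exact h3
      _ ≤ 1 / (100 * D) := by
          apply one_div_le_one_div_of_le (by positivity)
          linarith
  have hθm : (m : ℝ) * θ ≤ 1 / (100 * D) := by
    rw [hθ, hm, mul_one_div, div_le_div_iff₀ (by positivity) (by positivity)]
    push_cast
    have h1 : (l : ℝ) ≤ b := by exact_mod_cast hlb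
    have h2 : (b : ℝ) ^ 3 ≤ (b : ℝ) ^ (5 * D) := powb_le hbr (by omega)
    calc (D : ℝ) * l * (100 * D) ≤ D * b * (100 * D) := by gcongr
      _ = b * (100 * D ^ 2) := by ring
      _ ≤ b * b ^ 2 := by
          apply mul_le_mul_of_nonneg_left _ hb0.le
          nlinarith
      _ = b ^ 3 := by ring
      _ ≤ 1 * b ^ (5 * D) := by rw [one_mul]; exact h2
  have hθK : (K : ℝ) * ρ * θ ≤ 1 / (100 * D) := by
    rw [hθ, hK, hρ, mul_one_div, div_le_div_iff₀ (by positivity) (by positivity)]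
    push_cast
    have h2 : (b : ℝ) ^ (4 * D + 2) ≤ (b : ℝ) ^ (5 * D) := powb_le hbr (by omega)
    calc 4 * (D : ℝ) * b ^ (4 * D) * (100 * D) = b ^ (4 * D) * (400 * D ^ 2) := by ring
      _ ≤ b ^ (4 * D) * b ^ 2 := by
          apply mul_le_mul_of_nonneg_left _ (by positivity)
          nlinarith
      _ = b ^ (4 * D + 2) := by rw [pow_add]
      _ ≤ 1 * b ^ (5 * D) := by rw [one_mul]; exact h2
  -- the conditions of `containers`
  have hh₀pos : 0 < h₀ := by rw [hh₀]; positivity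
  have hh₀N : h₀ + 1 ≤ N := by
    have h1 : b ^ (60 * D ^ 2) < b ^ (166 * D ^ 2) :=
      Nat.pow_lt_pow_right (by omega) (by omega)
    rw [hh₀, hN]
    exact h1
  have hβ' : (β : ℝ) ≤ h₀ * θ ^ 2 / 4 := by
    have e1 : θ ^ 2 = 1 / (b : ℝ) ^ (10 * D) := by
      rw [hθ, one_div_pow, ← pow_mul]
      congr 2
      ring
    rw [e1, hβ, hh₀]
    push_cast
    rw [mul_one_div, div_div, le_div_iff₀ (by positivity)]
    calc (b : ℝ) ^ (32 * D ^ 2 + 7) * (b ^ (10 * D) * 4)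
        ≤ (b : ℝ) ^ (32 * D ^ 2 + 7) * (b ^ (10 * D) * b ^ 1) := by
          gcongr
          rw [pow_one]
          linarith
      _ = (b : ℝ) ^ (32 * D ^ 2 + 7 + 10 * D + 1) := by
          rw [pow_add, pow_add, pow_add]; ring
      _ ≤ (b : ℝ) ^ (60 * D ^ 2) := powb_le hbr (by nlinarith)
  have hτ1 : τ ≤ 1 := by
    rw [hτ, div_le_one (by positivity)]
    exact one_le_pow₀ hbr
  have hKW : Real.exp (-(τ / 2)) + Real.exp (-(τ / 2) * β) ≤ 1 := by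
    have h1 := exp_neg_le_half (x := τ / 2) (by positivity) (by linarith)
    have hβ0 : (0 : ℝ) < β := by rw [hβ]; push_cast; positivity
    have h2 : Real.exp (-(τ / 2) * β) ≤ 1 / ((τ / 2) * β) := by
      rw [neg_mul]
      exact exp_neg_le_inv (by positivity)
    have h3 : 1 / ((τ / 2) * β) ≤ τ / 2 / 2 := by
      rw [div_le_iff₀ (by positivity)]
      have h4 : 8 ≤ τ ^ 2 * β := by
        rw [hτ, hβ, one_div_pow, ← pow_mul]
        push_cast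
        rw [one_div_mul_eq_div, le_div_iff₀ (by positivity)]
        calc (8 : ℝ) * (b : ℝ) ^ ((16 * D ^ 2 + 3) * 2)
            ≤ (b : ℝ) ^ 1 * (b : ℝ) ^ ((16 * D ^ 2 + 3) * 2) := by
              gcongr
              rw [pow_one]
              linarith
          _ = (b : ℝ) ^ (32 * D ^ 2 + 7) := by
              rw [← pow_add]
              congr 1
              ring
      nlinarith
    linarith
  have hh₀1 : (1 : ℝ) ≤ h₀ := by exact_mod_cast hh₀pos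
  have hbig : (N : ℝ) ^ (h₀ + 1) * Real.exp (-τ * (θ ^ 2 * T₀ / 16 - h₀)) ≤ 1 / 2 := by
    have h1 : (N : ℝ) ≤ Real.exp (166 * D ^ 2 * b) := by
      have h2 : (b : ℝ) ≤ Real.exp b := by linarith [Real.add_one_le_exp (b : ℝ)]
      calc (N : ℝ) = (b : ℝ) ^ (166 * D ^ 2) := by rw [hN]; push_cast; rfl
        _ ≤ (Real.exp b) ^ (166 * D ^ 2) := pow_le_pow_left₀ hb0.le h2 _
        _ = Real.exp (166 * D ^ 2 * b) := by
            rw [← Real.exp_nat_mul]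
            push_cast
            rfl
    have h2 : (N : ℝ) ^ (h₀ + 1) ≤ Real.exp (166 * D ^ 2 * b * (h₀ + 1)) := by
      calc (N : ℝ) ^ (h₀ + 1) ≤ (Real.exp (166 * D ^ 2 * b)) ^ (h₀ + 1) :=
            pow_le_pow_left₀ (Nat.cast_nonneg _) h1 _
        _ = Real.exp (166 * D ^ 2 * b * (h₀ + 1)) := by
            rw [← Real.exp_nat_mul]
            push_cast
            congr 1
            ring
    -- the exponent
    obtain ⟨e, he⟩ : ∃ e, 150 * D ^ 2 = (16 * D ^ 2 + 3) + 5 * D * 2 + e :=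
      ⟨150 * D ^ 2 - ((16 * D ^ 2 + 3) + 5 * D * 2), by omega⟩
    have he1 : 60 * D ^ 2 + 6 ≤ e := by omega
    have h3 : τ * (θ ^ 2 * T₀) = (b : ℝ) ^ e := by
      have h30 : (T₀ : ℝ) = (b : ℝ) ^ (16 * D ^ 2 + 3) * ((b : ℝ) ^ (5 * D)) ^ 2 * (b : ℝ) ^ e := by
        rw [hT₀, he, ← pow_mul, ← pow_add, ← pow_add]
        push_cast
        rfl
      have h31 : (0 : ℝ) < (b : ℝ) ^ (16 * D ^ 2 + 3) := by positivity
      have h32 : (0 : ℝ) < (b : ℝ) ^ (5 * D) := by positivity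
      rw [h30, hτ, hθ]
      generalize (b : ℝ) ^ (16 * D ^ 2 + 3) = u at h31 ⊢
      generalize (b : ℝ) ^ (5 * D) = v at h32 ⊢
      generalize (b : ℝ) ^ e = w
      field_simp
    have h4 : (h₀ : ℝ) = (b : ℝ) ^ (60 * D ^ 2) := by rw [hh₀]; push_cast; rfl
    have h5 : (h₀ : ℝ) * b ^ 6 ≤ (b : ℝ) ^ e := by
      rw [h4, ← pow_add]
      exact powb_le hbr he1
    have h6 : 166 * (D : ℝ) ^ 2 * b * (h₀ + 1) + 1 ≤ τ * (θ ^ 2 * T₀ / 16 - h₀) := by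
      have h7 : τ * (θ ^ 2 * T₀ / 16 - h₀) = (b : ℝ) ^ e / 16 - τ * h₀ := by
        rw [← h3]; ring
      rw [h7]
      have h8 : τ * h₀ ≤ h₀ := by nlinarith
      have h9 : 332 * (D : ℝ) ^ 2 * b ≤ b ^ 3 := by
        have : 332 * (D : ℝ) ^ 2 ≤ b ^ 2 := by nlinarith
        calc 332 * (D : ℝ) ^ 2 * b ≤ (b : ℝ) ^ 2 * (b : ℝ) := by gcongr
          _ = (b : ℝ) ^ 3 := by ring
      have h10 : 166 * (D : ℝ) ^ 2 * b * (h₀ + 1) + 1 ≤ h₀ * (b ^ 3 + 1) := by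
        have h11 : 166 * (D : ℝ) ^ 2 * b * (h₀ + 1) ≤ 166 * (D : ℝ) ^ 2 * b * (2 * h₀) := by
          gcongr
          linarith
        nlinarith
      have h11 : (b : ℝ) ^ 3 + 2 ≤ b ^ 6 / 16 := by
        have h12 : (1 : ℝ) ≤ b ^ 3 := one_le_pow₀ hbr
        have h13 : (48 : ℝ) ≤ b ^ 3 := by
          calc (48 : ℝ) ≤ (b : ℝ) := by linarith
            _ = (b : ℝ) ^ 1 := by rw [pow_one]
            _ ≤ (b : ℝ) ^ 3 := powb_le hbr (by norm_num)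
        have h14 : (b : ℝ) ^ 6 = b ^ 3 * b ^ 3 := by ring
        rw [h14]
        nlinarith
      have h12 : (h₀ : ℝ) * (b ^ 3 + 2) ≤ h₀ * (b ^ 6 / 16) :=
        mul_le_mul_of_nonneg_left h11 (by positivity)
      linarith
    calc (N : ℝ) ^ (h₀ + 1) * Real.exp (-τ * (θ ^ 2 * T₀ / 16 - h₀))
        ≤ Real.exp (166 * D ^ 2 * b * (h₀ + 1)) * Real.exp (-τ * (θ ^ 2 * T₀ / 16 - h₀)) := by
          gcongr
      _ = Real.exp (166 * D ^ 2 * b * (h₀ + 1) - τ * (θ ^ 2 * T₀ / 16 - h₀)) := by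
          rw [← Real.exp_add]
          congr 1
          ring
      _ ≤ Real.exp (-1) := by
          rw [Real.exp_le_exp]
          linarith
      _ ≤ 1 / 2 := by
          have := exp_neg_le_half (x := 1) (by norm_num) le_rfl
          linarith
  have hsmall : τ * (K * N) < T₀ / (2 * D) := by
    have h1 : (N : ℝ) = T₀ * (b : ℝ) ^ (16 * D ^ 2) := by
      rw [hN, hT₀]
      push_cast
      rw [← pow_add]
      congr 1
      ring
    have h2 : τ * (K * N) = 4 * D * T₀ / b ^ 3 := by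
      rw [h1, hτ, hK, pow_add]
      push_cast
      field_simp
    rw [h2, div_lt_div_iff₀ (by positivity) (by positivity)]
    have hT : (0 : ℝ) < T₀ := by exact_mod_cast hT₀pos
    have h3 : 8 * (D : ℝ) ^ 2 < b ^ 3 := by
      calc 8 * (D : ℝ) ^ 2 < 16384 * (D : ℝ) ^ 2 := by nlinarith
        _ ≤ (b : ℝ) ^ 2 := hbD2
        _ ≤ (b : ℝ) ^ 3 := powb_le hbr (by norm_num)
    nlinarith
  obtain ⟨A, hA1, hA2, hA3, hA4⟩ := assemble (D := D) (m := m) (by omega)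
    ((Nat.factorial D : ℕ) : ℤ) (by exact_mod_cast Nat.factorial_pos D)
    (fun q hq hqD => by exact_mod_cast Nat.dvd_factorial hq hqD) N T₀ ρ K hK hT₀pos hNeq hρL hρm
    hmexp θ hθ0 hθm hθK h₀ β τ hh₀pos hh₀N hτ0 hβ' hKW hbig hsmall
  refine ⟨A, hA1, hA2, ?_, hA4⟩
  have hAr : (0 : ℝ) < A.card := by exact_mod_cast hA2
  have h1 : (A.card : ℝ) ≤ (b : ℝ) ^ (167 * D ^ 2) := by
    calc (A.card : ℝ) ≤ K * N := by exact_mod_cast hA3
      _ = 4 * D * (b : ℝ) ^ (166 * D ^ 2) := by rw [hK, hN]; push_cast; rfl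
      _ ≤ (b : ℝ) ^ (D ^ 2) * (b : ℝ) ^ (166 * D ^ 2) := by
          gcongr
          calc 4 * (D : ℝ) ≤ b := by linarith
            _ = b ^ 1 := by rw [pow_one]
            _ ≤ b ^ (D ^ 2) := powb_le hbr (by nlinarith)
      _ = (b : ℝ) ^ (167 * D ^ 2) := by
          rw [← pow_add]
          congr 1
          ring
  have h2 : Real.log b ≤ 2 * Real.log D := by
    have h3 : (b : ℝ) ≤ (D : ℝ) ^ 2 := by nlinarith
    calc Real.log b ≤ Real.log ((D : ℝ) ^ 2) := Real.log_le_log hb0 h3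
      _ = 2 * Real.log D := by rw [Real.log_pow]; push_cast; rfl
  have h4 : 0 ≤ Real.log D := Real.log_nonneg (by linarith)
  calc Real.log A.card ≤ Real.log ((b : ℝ) ^ (167 * D ^ 2)) := Real.log_le_log hAr h1
    _ = (167 * D ^ 2) * Real.log b := by rw [Real.log_pow]; push_cast; rfl
    _ ≤ (167 * D ^ 2) * (2 * Real.log D) := by gcongr
    _ ≤ 600 * D ^ 2 * Real.log D := by
        have : 0 ≤ (D : ℝ) ^ 2 * Real.log D := by positivity
        nlinarith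

/-- The bound for all large `n`. -/
theorem main_bound : ∃ C : ℝ, ∃ n₀ : ℕ, ∀ n : ℕ, n₀ ≤ n → (f n : ℝ) ≤
    n / 3 + C * n * Real.sqrt (Real.log (Real.log n) / Real.log n) :=
  asym2 final_sets

end SF2
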