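import Mathlib

/-!
# A random sample
-/

namespace SF2

open Finset

/-- The sample `ω` misses a big set or hits a small set. -/
def Faulty {α : Type*} (w δ θ : ℝ) {m : ℕ} (ω : Fin m → α) (I : Finset α) : Prop :=
  (δ * w ≤ I.card ∧ ∀ j, ω j ∉ I) ∨ ((I.card : ℝ) ≤ θ * w ∧ ∃ j, ω j ∈ I)

open Classical in
theorem card_faulty {α : Type*} (W I : Finset α) (hI : I ⊆ W) (m : ℕ)
    {δ θ η : ℝ} (hδ0 : 0 ≤ δ) (hδ1 : δ ≤ 1) (h1 : (1 - δ) ^ m ≤ η)
    (h2 : m * θ ≤ η) (hη : 0 ≤ η) (hW : W.Nonempty) :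
    (((Fintype.piFinset (fun _ : Fin m => W)).filter
      (fun ω => Faulty (W.card : ℝ) δ θ ω I)).card : ℝ) ≤ 2 * η * (W.card : ℝ) ^ m := by
  have hw : (0 : ℝ) < W.card := by exact_mod_cast hW.card_pos
  set Ω := Fintype.piFinset (fun _ : Fin m => W) with hΩ
  have hΩc : (Ω.card : ℝ) = (W.card : ℝ) ^ m := by
    rw [hΩ, Fintype.card_piFinset]; simp
  have hmiss : (((Ω.filter (fun ω => ∀ j, ω j ∉ I))).card : ℝ) = ((W.card : ℝ) - I.card) ^ m := by
    have : Ω.filter (fun ω => ∀ j, ω j ∉ I) = Fintype.piFinset (fun _ : Fin m => W \ I) := by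
      ext ω
      simp only [hΩ, mem_filter, Fintype.mem_piFinset, mem_sdiff]
      exact ⟨fun h j => ⟨h.1 j, h.2 j⟩, fun h => ⟨fun j => (h j).1, fun j => (h j).2⟩⟩
    rw [this, Fintype.card_piFinset]
    simp only [prod_const, card_univ, Fintype.card_fin]
    rw [card_sdiff_of_subset hI]
    push_cast [Nat.cast_sub (card_le_card hI)]
    ring
  have hIw : (I.card : ℝ) ≤ W.card := by exact_mod_cast card_le_card hI
  have hA : (((Ω.filter (fun ω => δ * (W.card : ℝ) ≤ I.card ∧ ∀ j, ω j ∉ I))).card : ℝ) ≤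
      η * (W.card : ℝ) ^ m := by
    by_cases hb : δ * (W.card : ℝ) ≤ I.card
    · simp only [hb, true_and]
      rw [hmiss]
      calc ((W.card : ℝ) - I.card) ^ m ≤ ((1 - δ) * W.card) ^ m := by
            apply pow_le_pow_left₀ (by linarith)
            nlinarith
        _ = (1 - δ) ^ m * (W.card : ℝ) ^ m := by rw [mul_pow]
        _ ≤ η * (W.card : ℝ) ^ m := by gcongr
    · simp only [hb, false_and, filter_false, card_empty, Nat.cast_zero]
      positivity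
  have hB : (((Ω.filter (fun ω => (I.card : ℝ) ≤ θ * (W.card : ℝ) ∧ ∃ j, ω j ∈ I))).card : ℝ) ≤
      η * (W.card : ℝ) ^ m := by
    by_cases hb : (I.card : ℝ) ≤ θ * (W.card : ℝ)
    · simp only [hb, true_and]
      have h3 : (((Ω.filter (fun ω => ∃ j, ω j ∈ I))).card : ℝ) =
          (W.card : ℝ) ^ m - ((W.card : ℝ) - I.card) ^ m := by
        rw [← hmiss, ← hΩc]
        have h4 := card_filter_add_card_filter_not (s := Ω) (fun ω => ∃ j, ω j ∈ I)
        have h5 : Ω.filter (fun ω => ¬ ∃ j, ω j ∈ I) = Ω.filter (fun ω => ∀ j, ω j ∉ I) := by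
          congr 1; ext ω; simp
        rw [h5] at h4
        have h6 : ((Ω.filter (fun ω => ∃ j, ω j ∈ I)).card : ℝ) +
          (Ω.filter (fun ω => ∀ j, ω j ∉ I)).card = Ω.card := by exact_mod_cast h4
        linarith
      rw [h3]
      set x : ℝ := I.card / W.card with hx
      have hx0 : 0 ≤ x := by positivity
      have hx1 : x ≤ 1 := by rw [hx, div_le_one hw]; exact hIw
      have hxθ : x ≤ θ := by rw [hx, div_le_iff₀ hw]; exact hb
      have h7 : (W.card : ℝ) - I.card = W.card * (1 + (-x)) := by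
        rw [hx]; field_simp; ring
      rw [h7, mul_pow]
      have h8 := one_add_mul_le_pow (show (-2 : ℝ) ≤ -x by linarith) m
      have h9 : (m : ℝ) * x ≤ η := le_trans (by gcongr) h2
      have h10 : (0 : ℝ) ≤ (W.card : ℝ) ^ m := by positivity
      nlinarith
    · simp only [hb, false_and, filter_false, card_empty, Nat.cast_zero]
      positivity
  have hsub : Ω.filter (fun ω => Faulty (W.card : ℝ) δ θ ω I) ⊆
      Ω.filter (fun ω => δ * (W.card : ℝ) ≤ I.card ∧ ∀ j, ω j ∉ I) ∪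
      Ω.filter (fun ω => (I.card : ℝ) ≤ θ * (W.card : ℝ) ∧ ∃ j, ω j ∈ I) := by
    intro ω hω
    rw [mem_filter] at hω
    rw [mem_union, mem_filter, mem_filter]
    rcases hω.2 with h | h
    · exact Or.inl ⟨hω.1, h⟩
    · exact Or.inr ⟨hω.1, h⟩
  have hc : ((Ω.filter (fun ω => Faulty (W.card : ℝ) δ θ ω I)).card : ℝ) ≤
      ((Ω.filter (fun ω => δ * (W.card : ℝ) ≤ I.card ∧ ∀ j, ω j ∉ I)).card : ℝ) +
      ((Ω.filter (fun ω => (I.card : ℝ) ≤ θ * (W.card : ℝ) ∧ ∃ j, ω j ∈ I)).card : ℝ) := by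
    exact_mod_cast (card_le_card hsub).trans (card_union_le _ _)
  linarith

open Classical in
theorem sample {α β γ : Type*} (W : Finset α) (V : Finset β) (Z : Finset γ)
    (I : β → γ → Finset α) (hI : ∀ v z, I v z ⊆ W) (m : ℕ) {δ θ η : ℝ} (hδ0 : 0 ≤ δ)
    (hδ1 : δ ≤ 1) (h1 : (1 - δ) ^ m ≤ η) (h2 : m * θ ≤ η) (hη : 0 ≤ η) (hW : W.Nonempty) :
    ∃ ω : Fin m → α, ∑ v ∈ V, ((Z.filter (fun z => Faulty (W.card : ℝ) δ θ ω (I v z))).card : ℝ) ≤
      2 * η * V.card * Z.card := by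
  have hw : (0 : ℝ) < W.card := by exact_mod_cast hW.card_pos
  set Ω := Fintype.piFinset (fun _ : Fin m => W) with hΩ
  have hΩc : (Ω.card : ℝ) = (W.card : ℝ) ^ m := by
    rw [hΩ, Fintype.card_piFinset]; simp
  have hΩn : Ω.Nonempty := by
    rw [← card_pos]
    have : (0 : ℝ) < Ω.card := by rw [hΩc]; positivity
    exact_mod_cast this
  have hsum : ∑ ω ∈ Ω, ∑ v ∈ V,
      ((Z.filter (fun z => Faulty (W.card : ℝ) δ θ ω (I v z))).card : ℝ) ≤
      ∑ ω ∈ Ω, (2 * η * V.card * Z.card : ℝ) := by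
    rw [sum_const, nsmul_eq_mul, hΩc, sum_comm]
    have h3 : ∀ v ∈ V, ∑ ω ∈ Ω,
        ((Z.filter (fun z => Faulty (W.card : ℝ) δ θ ω (I v z))).card : ℝ) ≤
        Z.card * (2 * η * (W.card : ℝ) ^ m) := by
      intro v _
      have h4 : ∑ ω ∈ Ω, ((Z.filter (fun z => Faulty (W.card : ℝ) δ θ ω (I v z))).card : ℝ) =
          ∑ z ∈ Z, ((Ω.filter (fun ω => Faulty (W.card : ℝ) δ θ ω (I v z))).card : ℝ) := by
        simp only [card_filter]
        push_cast
        rw [sum_comm]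
      rw [h4]
      calc _ ≤ ∑ z ∈ Z, (2 * η * (W.card : ℝ) ^ m) :=
            sum_le_sum (fun z _ => card_faulty W _ (hI v z) m hδ0 hδ1 h1 h2 hη hW)
        _ = Z.card * (2 * η * (W.card : ℝ) ^ m) := by rw [sum_const, nsmul_eq_mul]
    calc _ ≤ ∑ v ∈ V, (Z.card * (2 * η * (W.card : ℝ) ^ m) : ℝ) := sum_le_sum h3
      _ = V.card * (Z.card * (2 * η * (W.card : ℝ) ^ m)) := by rw [sum_const, nsmul_eq_mul]
      _ = (W.card : ℝ) ^ m * (2 * η * V.card * Z.card) := by ring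
  obtain ⟨ω, _, hω⟩ := exists_le_of_sum_le hΩn hsum
  exact ⟨ω, hω⟩

end SF2
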