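import Pool.Agent.SF2.Basic
import Pool.Agent.SF2.Sample

/-!
# The near period
-/

namespace SF2

open Finset

/-- `{w ∈ [1, t] : w - v ∈ S}` -/
noncomputable def nb (S : Finset ℤ) (t : ℕ) (v : ℤ) : Finset ℤ :=
  (Icc (1 : ℤ) t).filter (fun w => w - v ∈ S)

theorem mem_nb {S : Finset ℤ} {t : ℕ} {v w : ℤ} :
    w ∈ nb S t v ↔ (1 ≤ w ∧ w ≤ t) ∧ w - v ∈ S := by
  simp [nb]

theorem nb_sub {S : Finset ℤ} {t : ℕ} {v : ℤ} (hv : 0 ≤ v) : nb S t v ⊆ tr (lev S t) v := by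
  intro w hw
  rw [mem_nb] at hw
  rw [mem_tr, mem_lev]
  exact ⟨hw.2, by omega⟩

theorem card_nb {S : Finset ℤ} (hpos : ∀ s ∈ S, 0 < s) {t B : ℕ} {v : ℤ} (hv : 0 ≤ v)
    (hvB : v ≤ B) : (lev S t).card ≤ (nb S t v).card + B := by
  have hsub : tr (lev S t) v ⊆ nb S t v ∪ Icc ((t : ℤ) + 1) (t + B) := by
    intro w hw
    rw [mem_tr, mem_lev] at hw
    have := hpos _ hw.1
    rw [mem_union, mem_nb, mem_Icc]
    by_cases h : w ≤ t
    · exact Or.inl ⟨⟨by omega, h⟩, hw.1⟩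
    · exact Or.inr ⟨by omega, by omega⟩
  have := (card_le_card hsub).trans (card_union_le _ _)
  rw [card_tr, Int.card_Icc] at this
  omega

theorem nb_inter {S : Finset ℤ} {t : ℕ} {v s : ℤ} (hv : 0 ≤ v) (hs : 0 ≤ s) :
    (nb S t v ∩ nb S t (v + s)).card ≤ rep (lev S t) s := by
  have h1 := card_le_card (inter_subset_inter (nb_sub (S := S) (t := t) hv)
    (nb_sub (S := S) (t := t) (show 0 ≤ v + s by omega)))
  rw [card_tr_inter] at h1
  have : v - (v + s) = -s := by ring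
  rw [this, rep_neg] at h1
  exact h1

set_option maxHeartbeats 1000000 in
theorem near_period {D m : ℕ} (hD : 100 ≤ D) (S : Finset ℤ) (hpos : ∀ s ∈ S, 0 < s)
    (t₂ t₃ t₄ t₅ x₀ : ℕ) (hx₀ : 0 < x₀) (θ : ℝ) (hθ0 : 0 ≤ θ)
    (hθm : (m : ℝ) * θ ≤ 1 / (100 * D)) (hθ : θ ≤ 1 / (100 * D))
    (hm : (1 - 1 / (D : ℝ)) ^ m ≤ 1 / (100 * D))
    (hd4 : (1 / 3 + 1 / (D : ℝ)) * t₄ ≤ (lev S t₄).card)
    (hd5 : (1 / 3 + 1 / (D : ℝ)) * t₅ ≤ (lev S t₅).card)
    (hf4 : ∀ s ∈ lev S t₄, (rep (lev S t₄) s : ℝ) ≤ θ * t₄)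
    (hf5 : ∀ s ∈ lev S t₅, (rep (lev S t₅) s : ℝ) ≤ θ * t₅)
    (h24 : 100 * D * t₂ ≤ t₄) (h34 : 100 * D * t₃ ≤ t₄) (h45 : 100 * D * t₄ ≤ t₅)
    (hx4 : 100 * D * (2 ^ (m + 1) * x₀) ≤ t₄) :
    ∃ h : ℕ, x₀ ≤ h ∧ h ≤ 2 ^ (m + 1) * x₀ ∧
      ∀ y ∈ lev S t₂, (rep (lev S t₃) (y - h) : ℝ) ≤ θ * t₃ := by
  classical
  have hD0 : (0 : ℝ) < D := by exact_mod_cast (by omega : 0 < D)
  have hDr : (100 : ℝ) ≤ D := by exact_mod_cast hD
  have hpow : 0 < 2 ^ (m + 1) * x₀ := by positivity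
  have ht4 : 0 < t₄ := lt_of_lt_of_le (by positivity) hx4
  have ht5 : 0 < t₅ := lt_of_lt_of_le (by positivity) h45
  have ht4r : (0 : ℝ) < t₄ := by exact_mod_cast ht4
  have ht5r : (0 : ℝ) < t₅ := by exact_mod_cast ht5
  have h45r : 100 * (D : ℝ) * t₄ ≤ t₅ := by exact_mod_cast h45
  have h34r : 100 * (D : ℝ) * t₃ ≤ t₄ := by exact_mod_cast h34
  set W : Finset ℤ := Icc (1 : ℤ) t₅ with hW
  have hWc : W.card = t₅ := by rw [hW, Int.card_Icc]; omega
  have hWn : W.Nonempty := by rw [← card_pos, hWc]; exact ht5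
  set V := range (2 ^ (m + 1)) with hV
  set Z : Finset ℤ := Icc (0 : ℤ) (2 * t₄) with hZ
  have hZc : Z.card = 2 * t₄ + 1 := by rw [hZ, Int.card_Icc]; omega
  have hZr : (Z.card : ℝ) = 2 * t₄ + 1 := by rw [hZc]; push_cast; ring
  have hZpos : (0 : ℝ) < Z.card := by rw [hZr]; positivity
  have hVc : (V.card : ℝ) = 2 ^ (m + 1) := by rw [hV, card_range]; push_cast; ring
  have hδ1 : 1 / (D : ℝ) ≤ 1 := by rw [div_le_one hD0]; linarith
  obtain ⟨ω, hω⟩ := sample W V Z (fun i z => nb S t₅ ((i : ℤ) * x₀) ∩ nb S t₅ z)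
    (fun i z => inter_subset_left.trans (filter_subset _ _)) m
    (show (0 : ℝ) ≤ 1 / D by positivity) hδ1 hm hθm (by positivity) hWn
  -- few faulty
  set F : ℕ → Finset ℤ := fun i => Z.filter (fun z =>
    Faulty (W.card : ℝ) (1 / D) θ ω (nb S t₅ ((i : ℤ) * x₀) ∩ nb S t₅ z)) with hF
  set bad := V.filter (fun i => 1 / (10 * (D : ℝ)) * Z.card < (F i).card) with hbad
  have hbadc : (bad.card : ℝ) ≤ V.card / 5 := by
    have h1 : ∑ i ∈ bad, (1 / (10 * (D : ℝ)) * Z.card) ≤ ∑ i ∈ V, ((F i).card : ℝ) := by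
      calc ∑ i ∈ bad, (1 / (10 * (D : ℝ)) * Z.card) ≤ ∑ i ∈ bad, ((F i).card : ℝ) :=
            sum_le_sum (fun i hi => (mem_filter.1 hi).2.le)
        _ ≤ _ := sum_le_sum_of_subset_of_nonneg (filter_subset _ _) (fun _ _ _ => by positivity)
    rw [sum_const, nsmul_eq_mul] at h1
    have h2 := h1.trans hω
    have h3 : (bad.card : ℝ) * (1 / (10 * (D : ℝ)) * Z.card) =
        (bad.card : ℝ) * (Z.card / (10 * D)) := by ring
    have h4 : 2 * (1 / (100 * (D : ℝ))) * V.card * Z.card =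
        (V.card / 5 : ℝ) * (Z.card / (10 * D)) := by field_simp; ring
    rw [h3, h4] at h2
    exact le_of_mul_le_mul_right h2 (by positivity)
  set good := V \ bad with hgood
  have hgoodc : (2 ^ m : ℕ) < good.card := by
    have h1 : good.card + bad.card = V.card := by
      rw [hgood]
      exact card_sdiff_add_card_eq_card (filter_subset _ _)
    have h2 : (good.card : ℝ) + bad.card = V.card := by exact_mod_cast h1
    have h3 : ((2 ^ m : ℕ) : ℝ) < good.card := by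
      push_cast
      rw [hVc, pow_succ] at h2 hbadc
      have : (0 : ℝ) < 2 ^ m := by positivity
      linarith
    exact_mod_cast h3
  obtain ⟨i, hi, i', hi', hne, htype⟩ := exists_ne_map_eq_of_card_lt_of_maps_to
    (s := good) (t := (univ : Finset (Finset (Fin m))))
    (f := fun i : ℕ => univ.filter (fun j : Fin m => ω j ∈ nb S t₅ ((i : ℤ) * x₀)))
    (by rw [card_univ, Fintype.card_finset, Fintype.card_fin]; exact hgoodc)
    (fun _ _ => mem_univ _)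
  wlog hlt : i < i' generalizing i i'
  · exact this i' hi' i hi hne.symm htype.symm (by omega)
  have hgd : ∀ i ∈ good, ((F i).card : ℝ) ≤ 1 / (10 * (D : ℝ)) * Z.card := by
    intro i hi
    rw [hgood, mem_sdiff, hbad, mem_filter] at hi
    by_contra hcon
    exact hi.2 ⟨hi.1, not_le.1 hcon⟩
  have hi'V : i' < 2 ^ (m + 1) := by
    have := (mem_sdiff.1 hi').1
    rwa [hV, mem_range] at this
  refine ⟨(i' - i) * x₀, ?_, ?_, ?_⟩
  · exact Nat.le_mul_of_pos_left _ (by omega)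
  · exact Nat.mul_le_mul_right _ (by omega)
  intro y hy
  rw [mem_lev] at hy
  have hy0 := hpos _ hy.1
  by_contra hcon
  push Not at hcon
  have hrpos : 0 < rep (lev S t₃) (y - ((i' - i) * x₀ : ℕ)) := by
    have : (0 : ℝ) < rep (lev S t₃) (y - ((i' - i) * x₀ : ℕ)) :=
      lt_of_le_of_lt (by positivity) hcon
    exact_mod_cast this
  set n : ℤ := y - ((i' - i) * x₀ : ℕ) with hn
  unfold rep at hrpos
  rw [card_pos] at hrpos
  obtain ⟨a', ha'⟩ := hrpos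
  rw [mem_filter] at ha'
  have hpop := pop (S := S) hpos (t₂ := t₄) ha'.2 ha'.1
  rw [show a' + n - a' = n by ring] at hpop
  have hlev34 : ∀ s ∈ lev S t₃, s ∈ lev S t₄ := by
    intro s hs
    rw [mem_lev] at hs ⊢
    refine ⟨hs.1, hs.2.trans ?_⟩
    have : t₃ ≤ t₄ := le_trans (Nat.le_mul_of_pos_left _ (by omega)) h34
    exact_mod_cast this
  have hr1 := hf4 _ (hlev34 _ ha'.1)
  have hr2 := hf4 _ (hlev34 _ ha'.2)
  have hpopr : 3 * ((lev S t₄).card : ℝ) ≤ t₄ + t₃ + rep (lev S t₄) (a' + n) +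
      rep (lev S t₄) a' + rep (lev S t₄) n := by exact_mod_cast hpop
  have hθt4 : θ * t₄ ≤ t₄ / (100 * D) := by
    calc θ * t₄ ≤ 1 / (100 * D) * t₄ := by gcongr
      _ = t₄ / (100 * D) := by ring
  have ht3' : (t₃ : ℝ) ≤ t₄ / (100 * D) := by rw [le_div_iff₀ (by positivity)]; linarith
  have hZbig : 2 * (t₄ : ℝ) / D ≤ rep (lev S t₄) n := by
    have e1 : (1 / 3 + 1 / (D : ℝ)) * t₄ = t₄ / 3 + t₄ / D := by ring
    have e2 : (t₄ : ℝ) / (100 * D) = t₄ / D / 100 := by field_simp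
    have e3 : 2 * (t₄ : ℝ) / D = 2 * (t₄ / D) := by ring
    have e4 : (0 : ℝ) ≤ t₄ / D := by positivity
    rw [e1] at hd4
    rw [e2] at hθt4 ht3'
    rw [e3]
    linarith
  -- the good `s`
  set E : Finset ℤ := (lev S t₄).filter (fun s => s + n ∈ lev S t₄) with hE
  have hEc : E.card = rep (lev S t₄) n := rfl
  set v : ℤ := (i : ℤ) * x₀ with hv
  set v' : ℤ := (i' : ℤ) * x₀ with hv'
  have hvv' : v' = v + ((i' - i) * x₀ : ℕ) := by
    rw [hv, hv']
    push_cast [Nat.cast_sub hlt.le]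
    ring
  have hv0 : 0 ≤ v := by positivity
  have hvle : v ≤ v' := by
    rw [hvv']
    have : (0 : ℤ) ≤ ((i' - i) * x₀ : ℕ) := Int.natCast_nonneg _
    linarith
  have hvmax : v' ≤ (2 ^ (m + 1) * x₀ : ℕ) := by
    rw [hv']
    have : i' * x₀ ≤ 2 ^ (m + 1) * x₀ := Nat.mul_le_mul_right _ hi'V.le
    exact_mod_cast this
  have hx4' : (2 : ℤ) * (2 ^ (m + 1) * x₀ : ℕ) ≤ t₄ := by
    have : 2 * (2 ^ (m + 1) * x₀) ≤ t₄ := le_trans (Nat.mul_le_mul_right _ (by omega)) hx4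
    exact_mod_cast this
  have hv4 : 2 * v' ≤ t₄ := by linarith
  have h24' : (2 : ℤ) * t₂ ≤ t₄ := by
    have : 2 * t₂ ≤ t₄ := le_trans (Nat.mul_le_mul_right _ (by omega)) h24
    exact_mod_cast this
  have hEF : ∃ s ∈ E, v + y + s ∉ F i ∧ v + y + s ∉ F i' := by
    by_contra hno
    push Not at hno
    have hsub : E.image (fun s => v + y + s) ⊆ F i ∪ F i' := by
      intro z hz
      rw [mem_image] at hz
      obtain ⟨s, hs, rfl⟩ := hz
      rw [mem_union]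
      by_cases h : v + y + s ∈ F i
      · exact Or.inl h
      · exact Or.inr (hno s hs h)
    have h1 := (card_le_card hsub).trans (card_union_le _ _)
    rw [card_image_of_injective _ (add_right_injective _), hEc] at h1
    have h2 : (rep (lev S t₄) n : ℝ) ≤ (F i).card + (F i').card := by exact_mod_cast h1
    have h3 := hgd i hi
    have h4 := hgd i' hi'
    have h5 : 1 / (10 * (D : ℝ)) * Z.card ≤ 3 / 10 * (t₄ / D) := by
      rw [hZr]
      have : (1 : ℝ) ≤ t₄ := by exact_mod_cast ht4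
      calc 1 / (10 * (D : ℝ)) * (2 * t₄ + 1) ≤ 1 / (10 * (D : ℝ)) * (3 * t₄) := by gcongr; linarith
        _ = 3 / 10 * (t₄ / D) := by field_simp
    have e3 : 2 * (t₄ : ℝ) / D = 2 * (t₄ / D) := by ring
    have e4 : (0 : ℝ) < t₄ / D := by positivity
    rw [e3] at hZbig
    linarith
  obtain ⟨s, hs, hs1, hs2⟩ := hEF
  rw [hE, mem_filter, mem_lev, mem_lev] at hs
  have hs0 := hpos _ hs.1.1
  have hsn0 := hpos _ hs.2.1
  set z := v + y + s with hz
  have hzZ : z ∈ Z := by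
    rw [hZ, mem_Icc, hz]
    constructor <;> omega
  have hnf : ¬ Faulty (W.card : ℝ) (1 / D) θ ω (nb S t₅ v ∩ nb S t₅ z) :=
    fun h => hs1 (mem_filter.2 ⟨hzZ, h⟩)
  have hnf' : ¬ Faulty (W.card : ℝ) (1 / D) θ ω (nb S t₅ v' ∩ nb S t₅ z) :=
    fun h => hs2 (mem_filter.2 ⟨hzZ, h⟩)
  have hzv' : z = v' + (s + n) := by rw [hz, hvv', hn]; ring
  have h45' : (100 : ℤ) * t₄ ≤ t₅ := by
    have : 100 * t₄ ≤ t₅ := by
      refine le_trans (Nat.mul_le_mul_right _ ?_) h45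
      exact Nat.le_mul_of_pos_right _ (by omega)
    exact_mod_cast this
  -- small
  have hsmall : ((nb S t₅ v' ∩ nb S t₅ z).card : ℝ) ≤ θ * W.card := by
    rw [hWc, hzv']
    refine le_trans (by exact_mod_cast nb_inter (by omega) hsn0.le) (hf5 _ ?_)
    rw [mem_lev]
    exact ⟨hs.2.1, by omega⟩
  -- big
  have hθt5 : θ * t₅ ≤ t₅ / (100 * D) := by
    calc θ * t₅ ≤ 1 / (100 * D) * t₅ := by gcongr
      _ = t₅ / (100 * D) := by ring
  have hbig : 1 / (D : ℝ) * W.card ≤ (nb S t₅ v ∩ nb S t₅ z).card := by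
    rw [hWc]
    have c1 := card_nb (S := S) hpos (t := t₅) (B := 2 * t₄) (v := v) hv0 (by omega)
    have c2 := card_nb (S := S) hpos (t := t₅) (B := 2 * t₄) (v := v + y) (by omega)
      (by omega)
    have c3 := card_nb (S := S) hpos (t := t₅) (B := 2 * t₄) (v := z) (by omega)
      (by rw [hZ, mem_Icc] at hzZ; exact_mod_cast hzZ.2)
    have c4 := card_three (A := nb S t₅ v) (B := nb S t₅ (v + y)) (C := nb S t₅ z)
      (U := W) (filter_subset _ _) (filter_subset _ _) (filter_subset _ _)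
    have c5 := nb_inter (S := S) (t := t₅) (v := v) (s := y) hv0 hy0.le
    have c6 := nb_inter (S := S) (t := t₅) (v := v + y) (s := s) (by omega) hs0.le
    rw [← hz] at c6
    have c7 := hf5 y (by rw [mem_lev]; exact ⟨hy.1, by omega⟩)
    have c8 := hf5 s (by rw [mem_lev]; exact ⟨hs.1.1, by omega⟩)
    rw [hWc] at c4
    have c9 : (3 * (lev S t₅).card : ℝ) ≤ t₅ + 6 * t₄ + rep (lev S t₅) y + rep (lev S t₅) s +
        (nb S t₅ v ∩ nb S t₅ z).card := by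
      have : 3 * (lev S t₅).card ≤ t₅ + 6 * t₄ + rep (lev S t₅) y + rep (lev S t₅) s +
        (nb S t₅ v ∩ nb S t₅ z).card := by omega
      exact_mod_cast this
    have e1 : (1 / 3 + 1 / (D : ℝ)) * t₅ = t₅ / 3 + t₅ / D := by ring
    have e2 : (t₅ : ℝ) / (100 * D) = t₅ / D / 100 := by field_simp
    have e3 : 1 / (D : ℝ) * t₅ = t₅ / D := by ring
    have e4 : (t₄ : ℝ) ≤ t₅ / D / 100 := by
      rw [← e2, le_div_iff₀ (by positivity)]; linarith
    have e5 : (0 : ℝ) ≤ t₅ / D := by positivity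
    rw [e1] at hd5
    rw [e2] at hθt5
    rw [e3]
    linarith
  unfold Faulty at hnf hnf'
  push Not at hnf hnf'
  obtain ⟨j, hj⟩ := hnf.1 hbig
  rw [mem_inter] at hj
  have hj1 : j ∈ univ.filter (fun j : Fin m => ω j ∈ nb S t₅ ((i : ℤ) * x₀)) :=
    mem_filter.2 ⟨mem_univ _, hj.1⟩
  have htype' : univ.filter (fun j : Fin m => ω j ∈ nb S t₅ ((i : ℤ) * x₀)) =
    univ.filter (fun j : Fin m => ω j ∈ nb S t₅ ((i' : ℤ) * x₀)) := htype
  rw [htype', mem_filter] at hj1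
  exact hnf'.2 hsmall j (mem_inter.2 ⟨hj1.2, hj.2⟩)

end SF2
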