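import Pool.Agent.SF2.Cont

/-!
# The weights on the union of the nodes
-/

namespace SF2

open Finset SFree

/-- The union of the sets `L ^ i * [1, N]`, `i < κ`. -/
noncomputable def UU (L : ℤ) (N κ : ℕ) : Finset ℤ :=
  (range κ).biUnion (fun i => (Icc (1 : ℤ) N).image (fun n => L ^ i * n))

/-- The `(i, k)` node, `L ^ i * [1, T k]`. -/
noncomputable def nod (L : ℤ) (T : ℕ → ℕ) (i k : ℕ) : Finset ℤ :=
  (Icc (1 : ℤ) (T k)).image (fun n => L ^ i * n)

open Classical in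
/-- The weight of `a`: the sum of `1 / T k` over the nodes containing `a`. -/
noncomputable def wt (L : ℤ) (T : ℕ → ℕ) (κ K : ℕ) (a : ℤ) : ℝ :=
  ∑ i ∈ range κ, ∑ k ∈ range K, if a ∈ nod L T i k then (1 : ℝ) / T k else 0

lemma mem_UU {L : ℤ} {N κ : ℕ} {a : ℤ} :
    a ∈ UU L N κ ↔ ∃ i < κ, ∃ n : ℤ, 1 ≤ n ∧ n ≤ N ∧ L ^ i * n = a := by
  unfold UU
  rw [mem_biUnion]
  constructor
  · rintro ⟨i, hi, h⟩
    rw [mem_image] at h
    obtain ⟨n, hn, rfl⟩ := h
    rw [mem_Icc] at hn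
    exact ⟨i, mem_range.1 hi, n, hn.1, hn.2, rfl⟩
  · rintro ⟨i, hi, n, h1, h2, rfl⟩
    exact ⟨i, mem_range.2 hi, mem_image.2 ⟨n, mem_Icc.2 ⟨h1, h2⟩, rfl⟩⟩

lemma card_UU (L : ℤ) (N κ : ℕ) : (UU L N κ).card ≤ κ * N := by
  unfold UU
  refine card_biUnion_le.trans ?_
  calc ∑ i ∈ range κ, ((Icc (1 : ℤ) N).image (fun n => L ^ i * n)).card
      ≤ ∑ i ∈ range κ, N := by
        apply sum_le_sum
        intro i _
        refine card_image_le.trans ?_
        rw [Int.card_Icc]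
        simp
    _ = κ * N := by rw [sum_const, card_range, smul_eq_mul]

lemma wt_nonneg (L : ℤ) (T : ℕ → ℕ) (κ K : ℕ) (a : ℤ) : 0 ≤ wt L T κ K a := by
  unfold wt
  apply sum_nonneg
  intro i _
  apply sum_nonneg
  intro k _
  split_ifs
  · positivity
  · exact le_refl _

lemma wt_le (L : ℤ) (T : ℕ → ℕ) (κ K : ℕ) (a : ℤ) :
    wt L T κ K a ≤ κ * ∑ k ∈ range K, (1 : ℝ) / T k := by
  unfold wt
  calc ∑ i ∈ range κ, ∑ k ∈ range K, (if a ∈ nod L T i k then (1 : ℝ) / T k else 0)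
      ≤ ∑ i ∈ range κ, ∑ k ∈ range K, (1 : ℝ) / T k := by
        apply sum_le_sum
        intro i _
        apply sum_le_sum
        intro k _
        split_ifs
        · exact le_refl _
        · positivity
    _ = κ * ∑ k ∈ range K, (1 : ℝ) / T k := by
        rw [sum_const, card_range, nsmul_eq_mul]

/-- The number of points of a set in a node. -/
lemma card_node {L : ℤ} (hL : 0 < L) {T : ℕ → ℕ} {N : ℕ} {κ : ℕ} (C : Finset ℤ) (i k : ℕ)
    (hi : i < κ) (hk : T k ≤ N) :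
    ((UU L N κ ∩ C).filter (· ∈ nod L T i k)).card =
      ((sec L N C i).filter (· ≤ (T k : ℤ))).card := by
  have hLi : (0 : ℤ) < L ^ i := pow_pos hL i
  symm
  apply card_bij (fun n _ => L ^ i * n)
  · intro n hn
    rw [mem_filter] at hn
    obtain ⟨h1, h2⟩ := hn
    unfold sec at h1
    rw [mem_filter, mem_Icc] at h1
    obtain ⟨⟨h3, h4⟩, h5⟩ := h1
    rw [mem_filter, mem_inter]
    refine ⟨⟨mem_UU.2 ⟨i, hi, n, h3, h4, rfl⟩, h5⟩, ?_⟩
    unfold nod
    exact mem_image.2 ⟨n, mem_Icc.2 ⟨h3, h2⟩, rfl⟩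
  · intro n _ n' _ h
    exact mul_left_cancel₀ hLi.ne' h
  · intro a ha
    rw [mem_filter, mem_inter] at ha
    obtain ⟨⟨_, h2⟩, h3⟩ := ha
    unfold nod at h3
    rw [mem_image] at h3
    obtain ⟨n, hn, rfl⟩ := h3
    rw [mem_Icc] at hn
    refine ⟨n, ?_, rfl⟩
    rw [mem_filter]
    refine ⟨?_, hn.2⟩
    unfold sec
    rw [mem_filter, mem_Icc]
    exact ⟨⟨hn.1, hn.2.trans (by exact_mod_cast hk)⟩, h2⟩

lemma sum_wt {L : ℤ} (hL : 0 < L) {T : ℕ → ℕ} {N κ K : ℕ} (hT : ∀ k < K, T k ≤ N)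
    (C : Finset ℤ) :
    ∑ a ∈ UU L N κ ∩ C, wt L T κ K a =
      ∑ i ∈ range κ, ∑ k ∈ range K,
        (((sec L N C i).filter (· ≤ (T k : ℤ))).card : ℝ) / T k := by
  classical
  unfold wt
  rw [sum_comm]
  apply sum_congr rfl
  intro i hi
  rw [sum_comm]
  apply sum_congr rfl
  intro k hk
  rw [← card_node hL C i k (mem_range.1 hi) (hT k (mem_range.1 hk)), ← sum_filter, sum_const,
    nsmul_eq_mul]
  rw [mul_one_div]

lemma sum_wt_UU {L : ℤ} (hL : 0 < L) {T : ℕ → ℕ} {N κ K : ℕ} (hT : ∀ k < K, T k ≤ N)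
    (hT0 : ∀ k < K, 0 < T k) :
    ∑ a ∈ UU L N κ, wt L T κ K a = κ * K := by
  have h := sum_wt hL hT (UU L N κ) (κ := κ)
  rw [inter_self] at h
  rw [h]
  calc ∑ i ∈ range κ, ∑ k ∈ range K,
        (((sec L N (UU L N κ) i).filter (· ≤ (T k : ℤ))).card : ℝ) / T k
      = ∑ i ∈ range κ, ∑ k ∈ range K, (1 : ℝ) := by
        apply sum_congr rfl
        intro i hi
        apply sum_congr rfl
        intro k hk
        have h1 : (sec L N (UU L N κ) i).filter (· ≤ (T k : ℤ)) = Icc (1 : ℤ) (T k) := by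
          ext n
          unfold sec
          rw [mem_filter, mem_filter, mem_Icc, mem_Icc]
          constructor
          · rintro ⟨⟨⟨h1, _⟩, _⟩, h2⟩
            exact ⟨h1, h2⟩
          · rintro ⟨h1, h2⟩
            have h3 : n ≤ N := h2.trans (by exact_mod_cast hT k (mem_range.1 hk))
            exact ⟨⟨⟨h1, h3⟩, mem_UU.2 ⟨i, mem_range.1 hi, n, h1, h3, rfl⟩⟩, h2⟩
        rw [h1, Int.card_Icc]
        have h2 : ((T k : ℤ) + 1 - 1).toNat = T k := by simp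
        rw [h2]
        have h3 : (0 : ℝ) < T k := by exact_mod_cast hT0 k (mem_range.1 hk)
        exact div_self h3.ne'
    _ = κ * K := by
        simp

end SF2
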